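import Pool.Agent.Helper21.Mix.OvMain

/-!
Asymptotics.
-/

namespace Pool.Agent.Helper21.Mix

open scoped BigOperators Classical
open Pool.Agent.Helper21.AC0p

/-- The number of blocks. -/
noncomputable def uN (q n : ℕ) : ℕ := Nat.findGreatest (fun u => (1 + q * u) ^ q ≤ n) n

theorem choose_uN {q : ℕ} (hq : 2 ≤ q) (n : ℕ) :
    (1 + q * uN q n).choose q ≤ n ∧ 1 + q * uN q n ≤ n + 1 := by
  rcases Nat.eq_zero_or_pos n with rfl | hn
  · have : uN q 0 = 0 := by simp [uN]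
    rw [this, mul_zero, add_zero]
    refine ⟨?_, le_rfl⟩
    rw [Nat.choose_eq_zero_of_lt (by omega)]
  · have h := Nat.findGreatest_spec (P := fun u => (1 + q * u) ^ q ≤ n) (Nat.zero_le n)
      (by simpa using Nat.succ_le_of_lt hn)
    have h1 : (1 + q * uN q n) ^ q ≤ n := h
    refine ⟨(Nat.choose_le_pow _ _).trans h1, ?_⟩
    have h2 : 1 + q * uN q n ≤ (1 + q * uN q n) ^ q := Nat.le_self_pow (by omega) _
    omega

theorem le_uN {q n Y : ℕ} (hq3 : q ≤ 3) (hY1 : 1 ≤ Y) (hY : 64 * Y ^ 3 ≤ n) :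
    Y ≤ uN q n := by
  refine Nat.le_findGreatest ?_ ?_
  · calc Y = Y ^ 1 := (pow_one Y).symm
      _ ≤ Y ^ 3 := Nat.pow_le_pow_right hY1 (by norm_num)
      _ ≤ 64 * Y ^ 3 := Nat.le_mul_of_pos_left _ (by norm_num)
      _ ≤ n := hY
  · have h1 : 1 + q * Y ≤ 4 * Y := by
      have : q * Y ≤ 3 * Y := Nat.mul_le_mul_right _ hq3
      omega
    calc (1 + q * Y) ^ q ≤ (4 * Y) ^ q := Nat.pow_le_pow_left h1 _
      _ ≤ (4 * Y) ^ 3 := Nat.pow_le_pow_right (by omega) hq3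
      _ = 64 * Y ^ 3 := by ring
      _ ≤ n := hY

theorem big_aux {q s v : ℕ} (hq3 : q ≤ 3) (hs : s ≤ v) (hv : 2 ^ 16 ≤ v) :
    4 * ((1 + q * v) ^ q * (2 * (s * ((1 + q * v) ^ q + 1) ^ q))) + v ≤ v ^ 15 := by
  have h1 : 1 + q * v ≤ 4 * v := by
    have : q * v ≤ 3 * v := Nat.mul_le_mul_right _ hq3
    omega
  have h2 : (1 + q * v) ^ q ≤ 64 * v ^ 3 := by
    calc (1 + q * v) ^ q ≤ (4 * v) ^ q := Nat.pow_le_pow_left h1 _
      _ ≤ (4 * v) ^ 3 := Nat.pow_le_pow_right (by omega) hq3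
      _ = 64 * v ^ 3 := by ring
  have hv3 : 1 ≤ v ^ 3 := Nat.one_le_pow _ _ (by omega)
  have h3 : ((1 + q * v) ^ q + 1) ^ q ≤ (128 * v ^ 3) ^ 3 := by
    calc ((1 + q * v) ^ q + 1) ^ q ≤ (128 * v ^ 3) ^ q := Nat.pow_le_pow_left (by omega) _
      _ ≤ (128 * v ^ 3) ^ 3 := Nat.pow_le_pow_right (by omega) hq3
  have h4 : 4 * ((1 + q * v) ^ q * (2 * (s * ((1 + q * v) ^ q + 1) ^ q))) ≤
      4 * ((64 * v ^ 3) * (2 * (v * (128 * v ^ 3) ^ 3))) := by
    gcongr
  have h5 : 4 * ((64 * v ^ 3) * (2 * (v * (128 * v ^ 3) ^ 3))) = 2 ^ 30 * v ^ 13 := by ring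
  have h6 : 2 ^ 32 * v ^ 13 ≤ v ^ 15 := by
    calc 2 ^ 32 * v ^ 13 = (2 ^ 16) ^ 2 * v ^ 13 := by ring
      _ ≤ v ^ 2 * v ^ 13 := by gcongr
      _ = v ^ 15 := by ring
  have h7 : v ≤ v ^ 13 := Nat.le_self_pow (by norm_num) _
  calc 4 * ((1 + q * v) ^ q * (2 * (s * ((1 + q * v) ^ q + 1) ^ q))) + v
      ≤ 2 ^ 30 * v ^ 13 + v ^ 13 := by rw [← h5]; exact Nat.add_le_add h4 h7
    _ ≤ 2 ^ 32 * v ^ 13 := by nlinarith [Nat.zero_le (v ^ 13)]
    _ ≤ v ^ 15 := h6

/-- Discrete form of the lower bound. -/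
theorem ov_discrete {p : ℕ} [hp : Fact p.Prime] {q c : ℕ} (hq2 : 2 ≤ q) (hq3 : q ≤ 3)
    (hc : 1 ≤ c)
    (hard : ∀ m w : ℕ, m % q = 1 → c ≤ w → c * w ≤ m →
      ∀ (V : Type) (_ : Fintype V) (U : Finset V), U.card = m →
      ∃ (X K : Type) (_ : Field K) (_ : CharP K p) (𝔉 : Filt X K)
        (M : X → Finset (Finset V)),
        (∀ x, IsPM q (M x) ∧ supp (M x) ⊆ U) ∧
        (∀ B, ind K (fun x => decide (B ∈ M x)) ∈ 𝔉.LD 5) ∧
        ¬ Der 𝔉 {g | ∃ a ∈ U, g = ind K (fun x => decide (a ∉ supp (M x)))} w 1)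
    {u0 y z d cst : ℕ} (hz : 1 ≤ z) (hy : 2 ^ 16 ≤ y) (hcy : c * c ≤ y)
    (hu0 : y ^ 15 ^ (d + 1) ≤ u0)
    {R : List Rule} (hR : ∀ r ∈ R, r.Sound p) (hcst : ∀ r ∈ R, ruleCost r ≤ cst)
    (hcst2 : 2 ≤ cst)
    (hyz : c * (cst * ((2 * p) ^ d * (70 * (z ^ (d + 2))))) ≤ y)
    (hyd : (6 * d + 30) * z ≤ y)
    {π : List Fm} (hπ : Refutation R (countCNF q (1 + q * u0)) π) (hd : ∀ A ∈ π, A.depth ≤ d)
    {G : Finset Fm} (hG : G.card + 1 ≤ z)
    (hgs : ∀ g ∈ G, g ∈ subs π) (hgv : ∀ i, Fm.var i ∉ G) (hgl : ∀ i, Fm.neg (.var i) ∉ G)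
    (hfew : ∀ (k : ℕ) (f : Fin k → Fm), Fm.or k f ∈ subs π →
      ((Finset.univ.image f).filter (fun z => ¬ z.Over G)).card + 1 ≤ z)
    (hnum : numOr π < 2 ^ z) : False := by
  have hp1 : 1 ≤ p := hp.out.one_lt.le
  set u : ℕ → ℕ := fun i => if i = 0 then u0 else y ^ 15 ^ (d + 1 - i) with hu
  have hu15 : ∀ i < d + 1, u (i + 1) ^ 15 ≤ u i := by
    intro i hi
    have h1 : u (i + 1) = y ^ 15 ^ (d + 1 - (i + 1)) := by simp [hu]
    rw [h1, ← pow_mul]
    have e : 15 ^ (d + 1 - (i + 1)) * 15 = 15 ^ (d + 1 - i) := by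
      rw [← pow_succ]; congr 1; omega
    rw [e]
    by_cases hi0 : i = 0
    · subst hi0
      simpa [hu] using hu0
    · simp [hu, hi0]
  have hyu : ∀ i, y ≤ u i := by
    intro i
    have h1 : ∀ j, y ≤ y ^ 15 ^ j := fun j =>
      Nat.le_self_pow (by positivity) _
    by_cases hi0 : i = 0
    · subst hi0
      simpa [hu] using (h1 (d + 1)).trans hu0
    · simpa [hu, hi0] using h1 (d + 1 - i)
  have huu : ∀ i < d + 1, u (i + 1) ≤ u i := by
    intro i hi
    exact (Nat.le_self_pow (by norm_num) _).trans (hu15 i hi)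
  have hu0' : u 0 = u0 := by simp [hu]
  have hule : ∀ i ≤ d + 1, u i ≤ u0 := by
    intro i
    induction i with
    | zero => intro _; exact hu0'.le
    | succ i ih => intro hi; exact (huu i (by omega)).trans (ih (by omega))
  have hs3 : q * (2 * z) ≤ 6 * z := by
    calc q * (2 * z) ≤ 3 * (2 * z) := Nat.mul_le_mul_right _ hq3
      _ = 6 * z := by ring
  have hsy : q * (2 * z) * (d + 5) ≤ y := by
    calc q * (2 * z) * (d + 5) ≤ 6 * z * (d + 5) := Nat.mul_le_mul_right _ hs3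
      _ = (6 * d + 30) * z := by ring
      _ ≤ y := hyd
  set s := q * (2 * z) with hs
  have hs1 : 1 ≤ s := Nat.mul_pos (by omega) (by omega)
  have hsy2 : s * (d + 2) + 3 * s ≤ y := by
    calc s * (d + 2) + 3 * s = s * (d + 5) := by ring
      _ ≤ y := hsy
  have hsd : s ≤ s * (d + 2) := Nat.le_mul_of_pos_right _ (by omega)
  have hqk : ∀ i ≤ d + 1, q * (u0 - u i) + q * u i = q * u0 := by
    intro i hi
    rw [← mul_add, Nat.sub_add_cancel (hule i hi)]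
  have h5 : 5 * (s + 1) ≤ 35 * z := by omega
  set κ := 2 * p * z with hκ
  set Dm := z * (κ ^ d * (5 * (s + 1))) with hDm
  have hz2 : z ≤ p * z := Nat.le_mul_of_pos_left _ (by omega)
  have hκz : 2 * z ≤ κ := by
    rw [hκ, mul_assoc]; omega
  have hκpos : 1 ≤ κ ^ d := Nat.one_le_pow _ _ (by omega)
  have hwmain : ∀ b ≤ cst, b * Dm ≤ y / c := by
    intro b hb
    rw [Nat.le_div_iff_mul_le (by omega)]
    calc b * Dm * c ≤ cst * (z * (κ ^ d * (70 * z))) * c := by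
          rw [hDm]
          exact Nat.mul_le_mul_right _ (Nat.mul_le_mul hb
            (Nat.mul_le_mul_left _ (Nat.mul_le_mul_left _ (by omega))))
      _ = c * (cst * ((2 * p) ^ d * (70 * (z ^ (d + 2))))) := by rw [hκ, mul_pow]; ring
      _ ≤ y := hyz
  refine ov_core (N := 1 + q * u0) (s := s) (j0 := 2 * z) (w := y / c) (t := z - 1) (d := d)
    (κ := κ) (Dm := Dm) (by omega : 1 ≤ q) hard (V := Fin (1 + q * u0))
    (blk := blkOf q (1 + q * u0))
    (fun i B h => blkOf_card h) (Fintype.card_fin _)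
    (Fs := countCNF q (1 + q * u0)) (fun C hC M hM hcc => not_fo_clause (by omega) hC hM hcc)
    ?_ hs1 (fun i => u0 - u i) (fun i => 1 + q * u i) ?_ ?_ ?_ ?_ ?_ ?_ le_rfl ?_ ?_ ?_ ?_
    (G := G) ?_ ?_ ?_ hR ?_ ?_ hπ hd hgs hgv hgl ?_ ?_
  · rw [Nat.add_mul_mod_self_left]
    exact Nat.mod_eq_of_lt (by omega)
  · simp [hu0']
  · intro i hi
    have := huu i hi
    omega
  · intro i hi
    have h1 := hyu i
    have h2 := hule i hi
    have h3 : q * (u0 - u i + s + 1) ≤ q * u0 := Nat.mul_le_mul_left _ (by omega)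
    omega
  · intro i hi
    have := hqk (i + 1) (by omega)
    omega
  · intro i; simp
  · intro i hi
    have h1 := big_aux (q := q) (s := s) (v := u (i + 1)) hq3
      (by have := hyu (i + 1); omega) (hy.trans (hyu (i + 1)))
    have h2 := hu15 i hi
    have h3 := hule i (by omega)
    have h4 := hule (i + 1) (by omega)
    have h6 := huu i hi
    refine le_trans ?_ (by omega : u i - u (i + 1) ≤ u0 - u (i + 1) + 1 - (u0 - u i))
    omega
  · have h1 := hyu (d + 1)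
    have h2 := hule (d + 1) le_rfl
    have h3 : q * (u0 - u (d + 1) + 2 * s + 1) + q * s * (d + 2) =
        q * (u0 - u (d + 1) + 2 * s + 1 + s * (d + 2)) := by ring
    rw [h3]
    have h4 : q * (u0 - u (d + 1) + 2 * s + 1 + s * (d + 2)) ≤ q * u0 :=
      Nat.mul_le_mul_left _ (by omega)
    omega
  · rw [Nat.le_div_iff_mul_le (by omega)]; exact hcy
  · have h1 := hyu (d + 1)
    have h2 := hqk (d + 1) le_rfl
    have h3 : c * (y / c) ≤ y := Nat.mul_div_le _ _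
    have h4 : u (d + 1) ≤ q * u (d + 1) := Nat.le_mul_of_pos_left _ (by omega)
    omega
  · have h1 := hwmain 1 (by omega)
    rw [one_mul] at h1
    refine le_trans ?_ h1
    calc 5 * (s + 1) ≤ κ ^ d * (5 * (s + 1)) := Nat.le_mul_of_pos_left _ (by omega)
      _ ≤ Dm := Nat.le_mul_of_pos_left _ (by omega)
  · rw [hκ]
    calc p ≤ p * (2 * z) := Nat.le_mul_of_pos_right _ (by omega)
      _ = 2 * p * z := by ring
  · omega
  · rw [hDm]
    calc G.card * (κ ^ d * (5 * (s + 1))) + κ ^ d * (5 * (s + 1)) =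
          (G.card + 1) * (κ ^ d * (5 * (s + 1))) := by ring
      _ ≤ z * (κ ^ d * (5 * (s + 1))) := Nat.mul_le_mul_right _ hG
  · intro r hr; exact hwmain _ (hcst r hr)
  · exact hwmain 2 hcst2
  · intro k f hf
    have := hfew k f hf
    omega
  · calc 2 ^ G.card * numOr π < 2 ^ G.card * 2 ^ z :=
          Nat.mul_lt_mul_of_pos_left hnum (by positivity)
      _ = 2 ^ (G.card + z) := by rw [pow_add]
      _ ≤ 2 ^ (2 * z) := Nat.pow_le_pow_right (by norm_num) (by omega)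

theorem card_filter_over {G : Finset Fm} {k : ℕ} (f : Fin k → Fm) :
    ((Finset.univ.image f).filter (fun z => ¬ z.Over G)).card =
      {B | B ∈ Set.range f ∧ ¬ B.Over G}.ncard := by
  rw [← Set.ncard_coe_finset]
  congr 1
  ext B
  simp

theorem over_filter {π : List Fm} {G : Finset Fm} (A : Fm) : A ∈ subs π → A.Over G →
    A.Over (G.filter (fun g => g ∈ subs π ∧ (∀ i, g ≠ .var i) ∧ ∀ i, g ≠ .neg (.var i))) := by
  induction A with
  | var i => intro _ _; trivial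
  | neg A ih =>
    intro hA hO
    by_cases hv : ∃ i, A = .var i
    · obtain ⟨i, rfl⟩ := hv
      exact Or.inr trivial
    · rcases hO with h | h
      · left
        rw [Finset.mem_filter]
        refine ⟨h, hA, fun i e => Fm.noConfusion e, fun i e => hv ⟨i, Fm.neg.inj e⟩⟩
      · exact Or.inr (ih (subs_trans hA (Fm.IsSub.neg Fm.IsSub.refl)) h)
  | or k f ih =>
    intro hA hO
    rcases hO with h | h
    · left
      rw [Finset.mem_filter]
      exact ⟨h, hA, fun i e => Fm.noConfusion e, fun i e => Fm.noConfusion e⟩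
    · exact Or.inr (fun i => ih i (subs_trans hA (Fm.IsSub.or i Fm.IsSub.refl)) (h i))
  | mod k f ih =>
    intro hA hO
    have hO' : Fm.mod k f ∈ G := hO
    change Fm.mod k f ∈ _
    rw [Finset.mem_filter]
    exact ⟨hO', hA, fun i e => Fm.noConfusion e, fun i e => Fm.noConfusion e⟩

set_option maxHeartbeats 4000000 in
/-- The lower bound for refutations with few disjuncts that are not over a small set. -/
theorem few_over (p : ℕ) (hp : p.Prime) :
    ∃ F : ℕ → List Clause,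
      (∀ n, (∀ C ∈ F n, C.length ≤ n + 2 ∧ ∀ l ∈ C, l.1 < n) ∧ (F n).length ≤ (n + 1) ^ 2 ∧
        Unsat (F n)) ∧
      ∀ R : List Rule, (∀ r ∈ R, r.Sound p) → ∀ d : ℕ,
        ∃ ε : ℝ, 0 < ε ∧ ∃ n₀ : ℕ, ∀ n : ℕ, n₀ ≤ n → ∀ π : List Fm, Refutation R (F n) π →
          (∀ A ∈ π, A.depth ≤ d) → ∀ G : Finset Fm, (G.card : ℝ) ≤ (n : ℝ) ^ ε →
          (∀ (k : ℕ) (f : Fin k → Fm), (∃ A ∈ π, Fm.IsSub (Fm.or k f) A) →
            ({B | B ∈ Set.range f ∧ ¬ B.Over G}.ncard : ℝ) ≤ (n : ℝ) ^ ε) →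
          (2 : ℝ) ^ ((n : ℝ) ^ ε) ≤ numOr π ∧ (2 : ℝ) ^ ((n : ℝ) ^ ε) ≤ psize π := by
  have : Fact p.Prime := ⟨hp⟩
  obtain ⟨q, c, hqp, hq3, hc1, hard⟩ := count_hard p
  have hq2 := hqp.two_le
  refine ⟨fun n => countCNF q (1 + q * uN q n), ?_, ?_⟩
  · intro n
    obtain ⟨h1, h2⟩ := choose_uN hq2 n
    refine ⟨?_, ?_, ?_⟩
    · intro C hC
      refine ⟨(countCNF_width hC).trans (by omega), ?_⟩
      intro l hl
      exact (countCNF_lit hC hl).trans_le h1
    · refine (countCNF_length _ _).trans ?_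
      have : (1 + q * uN q n).choose q * (1 + q * uN q n).choose q ≤ n * n :=
        Nat.mul_le_mul h1 h1
      calc _ ≤ (n + 1) + n * n := Nat.add_le_add h2 this
        _ ≤ (n + 1) ^ 2 := by nlinarith
    · refine countCNF_unsat ?_
      rw [Nat.add_mul_mod_self_left]
      exact Nat.mod_eq_of_lt (by omega)
  intro R hR d
  set cst : ℕ := (R.map ruleCost).sum + 2 with hcst
  have hcstR : ∀ r ∈ R, ruleCost r ≤ cst := by
    intro r hr
    have := List.le_sum_of_mem (List.mem_map.2 ⟨r, hr, rfl⟩ : ruleCost r ∈ R.map ruleCost)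
    omega
  set E : ℕ := 15 ^ (d + 1) with hE
  have hE1 : 1 ≤ E := Nat.one_le_pow _ _ (by norm_num)
  set β : ℝ := 1 / (4 * E) with hβ
  have hE0 : (0 : ℝ) < E := by exact_mod_cast hE1
  have hβ0 : 0 < β := by positivity
  set ε : ℝ := β / (2 * (d + 2)) with hε
  have hε0 : 0 < ε := by positivity
  -- all constants
  set K1 : ℕ := c * (cst * ((2 * p) ^ d * 70)) + (6 * d + 30) with hK1
  have hlarge : ∀ᶠ n : ℕ in Filter.atTop, (1 : ℝ) ≤ n ∧
      (2 : ℝ) ^ 17 ≤ (n : ℝ) ^ β ∧ (2 * (c * c) : ℝ) ≤ (n : ℝ) ^ β ∧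
      (K1 : ℝ) * 2 ^ (d + 3) ≤ (n : ℝ) ^ (β / 2) ∧ (64 : ℝ) ≤ (n : ℝ) ^ (1 / 4 : ℝ) := by
    have h1 : ∀ b : ℝ, 0 < b → Filter.Tendsto (fun n : ℕ => ((n : ℝ)) ^ b) Filter.atTop
        Filter.atTop := fun b hb => (tendsto_rpow_atTop hb).comp tendsto_natCast_atTop_atTop
    have h2 : Filter.Tendsto (fun n : ℕ => ((n : ℝ))) Filter.atTop Filter.atTop :=
      tendsto_natCast_atTop_atTop
    filter_upwards [h2.eventually_ge_atTop 1, (h1 β hβ0).eventually_ge_atTop (2 ^ 17),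
      (h1 β hβ0).eventually_ge_atTop (2 * (c * c) : ℝ),
      (h1 (β / 2) (by positivity)).eventually_ge_atTop ((K1 : ℝ) * 2 ^ (d + 3)),
      (h1 (1 / 4) (by norm_num)).eventually_ge_atTop 64] with n a1 a2 a3 a4 a5
    exact ⟨a1, a2, a3, a4, a5⟩
  obtain ⟨n₀, hn₀⟩ := Filter.eventually_atTop.1 hlarge
  refine ⟨ε, hε0, n₀, ?_⟩
  intro n hn π hπ hdep G hG hfew
  obtain ⟨hx1, hx17, hxc, hxK, hx64⟩ := hn₀ n hn
  suffices hmain : (2 : ℝ) ^ ((n : ℝ) ^ ε) ≤ numOr π from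
    ⟨hmain, hmain.trans (by exact_mod_cast numOr_le_psize π)⟩
  by_contra hcon
  push Not at hcon
  set x : ℝ := (n : ℝ) with hx
  have hx0 : 0 < x := by linarith
  have hxe1 : 1 ≤ x ^ ε := Real.one_le_rpow hx1 hε0.le
  have hxe0 : 0 ≤ x ^ ε := by linarith
  set z : ℕ := ⌊x ^ ε⌋₊ + 1 with hz
  set y : ℕ := ⌊x ^ β⌋₊ with hy
  have hxb1 : 1 ≤ x ^ β := Real.one_le_rpow hx1 hβ0.le
  have hyle : (y : ℝ) ≤ x ^ β := Nat.floor_le (by linarith)
  have hyge : x ^ β / 2 ≤ y := by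
    have h1 := Nat.lt_floor_add_one (x ^ β)
    have h2 : (2 : ℝ) ≤ x ^ β := by linarith
    rw [← hy] at h1
    linarith
  have hzle : (z : ℝ) ≤ 2 * x ^ ε := by
    rw [hz]; push_cast
    have := Nat.floor_le hxe0
    linarith
  have hzge : x ^ ε ≤ z := by
    rw [hz]; push_cast
    exact (Nat.lt_floor_add_one (x ^ ε)).le
  have hz1 : 1 ≤ z := by omega
  -- main inequality
  have hmain1 : ((K1 * z ^ (d + 2) : ℕ) : ℝ) ≤ y := by
    push_cast
    calc (K1 : ℝ) * (z : ℝ) ^ (d + 2) ≤ K1 * (2 * x ^ ε) ^ (d + 2) := by gcongr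
      _ = (K1 * 2 ^ (d + 3)) * (x ^ ε) ^ (d + 2) / 2 := by rw [mul_pow]; ring
      _ ≤ x ^ (β / 2) * (x ^ ε) ^ (d + 2) / 2 := by gcongr
      _ = x ^ β / 2 := by
          rw [← Real.rpow_natCast, ← Real.rpow_mul hx0.le, ← Real.rpow_add hx0]
          congr 2
          rw [hε]
          push_cast
          field_simp
          ring
      _ ≤ y := hyge
  have hmain2 : K1 * z ^ (d + 2) ≤ y := by exact_mod_cast hmain1
  have hzpow : z ≤ z ^ (d + 2) := Nat.le_self_pow (by omega) _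
  have hu0 : y ^ 15 ^ (d + 1) ≤ uN q n := by
    have hy1 : 1 ≤ y := by
      have : (1 : ℝ) ≤ y := by linarith
      exact_mod_cast this
    refine le_uN hq3 (Nat.one_le_pow _ _ hy1) ?_
    have h1 : ((64 * (y ^ 15 ^ (d + 1)) ^ 3 : ℕ) : ℝ) ≤ x := by
      push_cast
      have h2 : (y : ℝ) ^ (15 ^ (d + 1)) ≤ x ^ (1 / 4 : ℝ) := by
        calc (y : ℝ) ^ (15 ^ (d + 1)) ≤ (x ^ β) ^ (15 ^ (d + 1)) := by gcongr
          _ = x ^ (1 / 4 : ℝ) := by
              rw [← Real.rpow_natCast, ← Real.rpow_mul hx0.le]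
              congr 1
              rw [hβ, hE]
              field_simp
      calc (64 : ℝ) * ((y : ℝ) ^ (15 ^ (d + 1))) ^ 3 ≤
            x ^ (1 / 4 : ℝ) * (x ^ (1 / 4 : ℝ)) ^ 3 := by
            gcongr
        _ = (x ^ (1 / 4 : ℝ)) ^ (4 : ℕ) := by ring
        _ = x := by
            rw [← Real.rpow_natCast, ← Real.rpow_mul hx0.le]
            norm_num
    rw [hx] at h1
    exact_mod_cast h1
  set G' : Finset Fm :=
    G.filter (fun g => g ∈ subs π ∧ (∀ i, g ≠ .var i) ∧ ∀ i, g ≠ .neg (.var i)) with hG'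
  refine ov_discrete (p := p) (z := z) (y := y) (d := d) (cst := cst) hq2 hq3 hc1 hard hz1 ?_ ?_
    hu0 hR hcstR (by omega) ?_ ?_ hπ hdep (G := G') ?_ ?_ ?_ ?_ ?_ ?_
  · have : ((2 ^ 16 : ℕ) : ℝ) ≤ y := by
      push_cast
      refine le_trans ?_ hyge
      linarith
    exact_mod_cast this
  · have : ((c * c : ℕ) : ℝ) ≤ y := by
      push_cast
      refine le_trans ?_ hyge
      linarith
    exact_mod_cast this
  · refine le_trans ?_ hmain2
    calc c * (cst * ((2 * p) ^ d * (70 * z ^ (d + 2)))) =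
          c * (cst * ((2 * p) ^ d * 70)) * z ^ (d + 2) := by ring
      _ ≤ K1 * z ^ (d + 2) := Nat.mul_le_mul_right _ (by omega)
  · refine le_trans ?_ hmain2
    exact Nat.mul_le_mul (by omega) hzpow
  · have h1 : G.card ≤ ⌊x ^ ε⌋₊ := Nat.le_floor hG
    have h2 : G'.card ≤ G.card := Finset.card_filter_le _ _
    omega
  · intro g hg
    rw [hG', Finset.mem_filter] at hg
    exact hg.2.1
  · intro i hi
    rw [hG', Finset.mem_filter] at hi
    exact hi.2.2.1 i rfl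
  · intro i hi
    rw [hG', Finset.mem_filter] at hi
    exact hi.2.2.2 i rfl
  · intro k f hf
    have h1 := hfew k f hf
    rw [← card_filter_over] at h1
    have h2 := Nat.le_floor h1
    have h3 : ((Finset.univ.image f).filter (fun z => ¬ z.Over G')).card ≤
        ((Finset.univ.image f).filter (fun z => ¬ z.Over G)).card := by
      refine Finset.card_le_card ?_
      intro B hB
      rw [Finset.mem_filter, Finset.mem_image] at hB ⊢
      refine ⟨hB.1, fun hO => hB.2 ?_⟩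
      obtain ⟨⟨i, _, rfl⟩, _⟩ := hB
      exact over_filter (f i) (subs_trans hf (Fm.IsSub.or i Fm.IsSub.refl)) hO
    omega
  · have h1 : (numOr π : ℝ) < (2 : ℝ) ^ z := by
      refine hcon.trans_le ?_
      rw [← Real.rpow_natCast]
      exact Real.rpow_le_rpow_of_exponent_le (by norm_num) hzge
    exact_mod_cast h1

end Pool.Agent.Helper21.Mix
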