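import Mathlib

/-!
Partial partitions of a finite set into blocks of size `q`.
-/

namespace Pool.Agent.Helper21.Mix

open scoped BigOperators Classical

set_option linter.unusedSectionVars false

variable {V : Type} [Fintype V]

/-- `M` is a set of pairwise disjoint blocks of size `q`. -/
def IsPM (q : ℕ) (M : Finset (Finset V)) : Prop :=
  (∀ B ∈ M, B.card = q) ∧ ∀ B ∈ M, ∀ B' ∈ M, B ≠ B' → Disjoint B B'

/-- The points covered by `M`. -/
noncomputable def supp (M : Finset (Finset V)) : Finset V := M.biUnion id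

theorem mem_supp {M : Finset (Finset V)} {a : V} : a ∈ supp M ↔ ∃ B ∈ M, a ∈ B := by
  simp [supp]

theorem supp_mono {M M' : Finset (Finset V)} (h : M ⊆ M') : supp M ⊆ supp M' := by
  intro a ha
  rw [mem_supp] at ha ⊢
  obtain ⟨B, hB, hab⟩ := ha
  exact ⟨B, h hB, hab⟩

theorem supp_union (M M' : Finset (Finset V)) : supp (M ∪ M') = supp M ∪ supp M' := by
  ext a
  simp only [mem_supp, Finset.mem_union]
  constructor
  · rintro ⟨B, hB | hB, h⟩
    · exact Or.inl ⟨B, hB, h⟩
    · exact Or.inr ⟨B, hB, h⟩
  · rintro (⟨B, hB, h⟩ | ⟨B, hB, h⟩)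
    · exact ⟨B, Or.inl hB, h⟩
    · exact ⟨B, Or.inr hB, h⟩

theorem supp_insert (B : Finset V) (M : Finset (Finset V)) :
    supp (insert B M) = B ∪ supp M := by
  rw [Finset.insert_eq, supp_union]
  congr 1
  ext a; simp [mem_supp]

theorem supp_empty : supp (∅ : Finset (Finset V)) = ∅ := by simp [supp]

namespace IsPM

variable {q : ℕ} {M M' : Finset (Finset V)}

theorem mono (h : IsPM q M') (hM : M ⊆ M') : IsPM q M :=
  ⟨fun B hB => h.1 B (hM hB), fun B hB B' hB' => h.2 B (hM hB) B' (hM hB')⟩

theorem empty : IsPM q (∅ : Finset (Finset V)) := ⟨by simp, by simp⟩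

theorem card_supp (h : IsPM q M) : (supp M).card = q * M.card := by
  unfold supp
  rw [Finset.card_biUnion]
  · rw [Finset.sum_congr rfl (fun B hB => (h.1 B hB : (id B).card = q))]
    simp [mul_comm]
  · intro B hB B' hB' hne
    exact h.2 B hB B' hB' hne

theorem card_le (h : IsPM q M) : q * M.card ≤ Fintype.card V := by
  rw [← h.card_supp, ← Finset.card_univ]
  exact Finset.card_le_card (Finset.subset_univ _)

/-- Adding a block disjoint from the support. -/
theorem insert (h : IsPM q M) {B : Finset V} (hB : B.card = q) (hd : Disjoint B (supp M)) :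
    IsPM q (insert B M) := by
  have hdis : ∀ B' ∈ M, Disjoint B B' := by
    intro B' hB'
    refine hd.mono_right ?_
    intro a ha
    exact mem_supp.2 ⟨B', hB', ha⟩
  refine ⟨?_, ?_⟩
  · intro C hC
    rcases Finset.mem_insert.1 hC with rfl | hC
    · exact hB
    · exact h.1 C hC
  · intro C hC C' hC' hne
    rcases Finset.mem_insert.1 hC with h1 | h1
    · rcases Finset.mem_insert.1 hC' with h2 | h2
      · exact absurd (h1.trans h2.symm) hne
      · rw [h1]; exact hdis C' h2
    · rcases Finset.mem_insert.1 hC' with h2 | h2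
      · rw [h2]; exact (hdis C h1).symm
      · exact h.2 C h1 C' h2 hne

theorem not_mem_of_disjoint (hq : 1 ≤ q) {B : Finset V} (hB : B.card = q)
    (hd : Disjoint B (supp M)) : B ∉ M := by
  intro hBM
  have hne : B.Nonempty := Finset.card_pos.1 (by omega)
  obtain ⟨a, ha⟩ := hne
  exact Finset.disjoint_left.1 hd ha (mem_supp.2 ⟨B, hBM, ha⟩)

/-- Union of two partial partitions with disjoint supports. -/
theorem union (h : IsPM q M) (h' : IsPM q M') (hd : Disjoint (supp M) (supp M')) :
    IsPM q (M ∪ M') := by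
  have hdis : ∀ B ∈ M, ∀ B' ∈ M', Disjoint B B' := by
    intro B hB B' hB'
    rw [Finset.disjoint_left]
    intro a ha ha'
    exact Finset.disjoint_left.1 hd (mem_supp.2 ⟨B, hB, ha⟩) (mem_supp.2 ⟨B', hB', ha'⟩)
  refine ⟨?_, ?_⟩
  · intro C hC
    rcases Finset.mem_union.1 hC with hC | hC
    · exact h.1 C hC
    · exact h'.1 C hC
  · intro C hC C' hC' hne
    rcases Finset.mem_union.1 hC with hC | hC
    · rcases Finset.mem_union.1 hC' with hC' | hC'
      · exact h.2 C hC C' hC' hne
      · exact hdis C hC C' hC'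
    · rcases Finset.mem_union.1 hC' with hC' | hC'
      · exact (hdis C' hC' C hC).symm
      · exact h'.2 C hC C' hC' hne

/-- Blocks outside a subset are disjoint from the support of the subset. -/
theorem disjoint_supp (h : IsPM q M) {S : Finset (Finset V)} (hS : S ⊆ M) {B : Finset V}
    (hB : B ∈ M) (hBS : B ∉ S) : Disjoint B (supp S) := by
  rw [Finset.disjoint_left]
  intro a ha haS
  rw [mem_supp] at haS
  obtain ⟨C, hC, haC⟩ := haS
  have hne : B ≠ C := by rintro rfl; exact hBS hC
  exact Finset.disjoint_left.1 (h.2 B hB C (hS hC) hne) ha haC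

theorem disjoint_supp' (h : IsPM q M) {S S' : Finset (Finset V)} (hS : S ⊆ M) (hS' : S' ⊆ M)
    (hd : Disjoint S S') : Disjoint (supp S) (supp S') := by
  rw [Finset.disjoint_left]
  intro a ha
  rw [mem_supp] at ha
  obtain ⟨B, hB, haB⟩ := ha
  exact Finset.disjoint_left.1 (h.disjoint_supp hS' (hS hB)
    (fun h' => Finset.disjoint_left.1 hd hB h')) haB

theorem eq_of_mem (h : IsPM q M) {B B' : Finset V} (hB : B ∈ M) (hB' : B' ∈ M) {a : V}
    (ha : a ∈ B) (ha' : a ∈ B') : B = B' := by
  by_contra hne
  exact Finset.disjoint_left.1 (h.2 B hB B' hB' hne) ha ha'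

end IsPM

/-- A block through a given uncovered point exists if enough points are left. -/
theorem exists_block {q : ℕ} (hq : 1 ≤ q) {S : Finset V} (hS : S.card + q ≤ Fintype.card V)
    {a : V} (ha : a ∉ S) : ∃ B : Finset V, a ∈ B ∧ B.card = q ∧ Disjoint B S := by
  have h1 : q - 1 ≤ ((Finset.univ \ S).erase a).card := by
    have h2 : (Finset.univ \ S).card = Fintype.card V - S.card := by
      rw [Finset.card_sdiff_of_subset (Finset.subset_univ _), Finset.card_univ]
    rw [Finset.card_erase_of_mem (by simp [ha]), h2]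
    omega
  obtain ⟨C, hC, hCc⟩ := Finset.exists_subset_card_eq h1
  have haC : a ∉ C := fun h => by simpa using hC h
  refine ⟨insert a C, by simp, ?_, ?_⟩
  · rw [Finset.card_insert_of_notMem haC, hCc]; omega
  · rw [Finset.disjoint_left]
    intro b hb
    rcases Finset.mem_insert.1 hb with rfl | hb
    · exact ha
    · have := hC hb
      simp only [Finset.mem_erase, Finset.mem_sdiff, Finset.mem_univ, true_and] at this
      exact this.2

/-- A set whose cardinality is divisible by `q` can be partitioned into blocks. -/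
theorem exists_part {q : ℕ} (n : ℕ) : ∀ S : Finset V, S.card = q * n →
    ∃ P : Finset (Finset V), IsPM q P ∧ supp P = S := by
  induction n with
  | zero =>
    intro S hS
    have : S = ∅ := Finset.card_eq_zero.1 (by simpa using hS)
    exact ⟨∅, IsPM.empty, by rw [this, supp_empty]⟩
  | succ n ih =>
    intro S hS
    obtain ⟨B, hB, hBc⟩ := Finset.exists_subset_card_eq (s := S) (n := q)
      (by rw [hS]; exact Nat.le_mul_of_pos_right _ (by omega))
    obtain ⟨P, hP, hPs⟩ := ih (S \ B) (by
      rw [Finset.card_sdiff_of_subset hB, hS, hBc, Nat.mul_succ]; omega)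
    refine ⟨insert B P, hP.insert hBc ?_, ?_⟩
    · rw [hPs]; exact Finset.disjoint_sdiff
    · rw [supp_insert, hPs]
      exact Finset.union_sdiff_of_subset hB

end Pool.Agent.Helper21.Mix
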