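import Pool.Agent.Helper21.AC0p.System
import Pool.Agent.Helper21.Mix.Matching

/-!
Polynomial calculus degree lower bound for partitions into blocks of size `q`, by reduction
from sparse linear systems modulo `q`.
-/

namespace Pool.Agent.Helper21.Mix

open scoped BigOperators Classical
open Pool.Agent.Helper21.AC0p

set_option linter.unusedSectionVars false

section Junta

variable {q n : ℕ} [hq : Fact q.Prime] {K : Type} [Field K]

/-- Functions of five coordinates have degree five. -/
theorem junta_mem (ψ : AddChar (ZMod q) K) (hψ : ψ.IsPrimitive) (hqK : (q : K) ≠ 0)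
    (f : Fin 5 → Fin n) (g : (Fin n → ZMod q) → K)
    (hg : ∀ x x', (∀ t, x (f t) = x' (f t)) → g x = g x') : g ∈ (chrFilt ψ n).LD 5 := by
  have h : g = ∑ y : Fin 5 → ZMod q,
      (if h : ∃ x : Fin n → ZMod q, ∀ t, x (f t) = y t then g h.choose else 0) •
        ∏ t ∈ (Finset.univ : Finset (Fin 5)),
          (fun x : Fin n → ZMod q => (fun s : ZMod q => if s = y t then (1 : K) else 0)
            (x (f t))) := by
    funext x
    simp only [Finset.sum_apply, Pi.smul_apply, Finset.prod_apply, smul_eq_mul]
    rw [Finset.sum_eq_single (fun t => x (f t))]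
    · have hex : ∃ x' : Fin n → ZMod q, ∀ t, x' (f t) = (fun t => x (f t)) t := ⟨x, fun _ => rfl⟩
      rw [dif_pos hex]
      rw [Finset.prod_eq_one (fun t _ => by simp), mul_one]
      exact (hg _ _ hex.choose_spec).symm
    · intro y _ hy
      have : ∃ t, x (f t) ≠ y t := by
        by_contra hcon
        push Not at hcon
        exact hy (funext fun t => (hcon t).symm)
      obtain ⟨t, ht⟩ := this
      rw [Finset.prod_eq_zero (Finset.mem_univ t) (by rw [if_neg ht]), mul_zero]
    · intro h; exact absurd (Finset.mem_univ _) h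
  rw [h]
  refine Submodule.sum_mem _ (fun y _ => Submodule.smul_mem _ _ ?_)
  have := (chrFilt ψ n).prod_mem (Finset.univ : Finset (Fin 5))
    (fun t => (fun x : Fin n → ZMod q => (fun s : ZMod q => if s = y t then (1 : K) else 0)
            (x (f t)))) 1 (fun t _ => coord_mem ψ hψ hqK (f t)
      (fun s : ZMod q => if s = y t then (1 : K) else 0))
  simpa using this

end Junta

section Regions

variable {P : Type} [Fintype P] (q : ℕ)

/-- A partition of `S` into blocks of size `q`, if it exists. -/
noncomputable def partF (S : Finset P) : Finset (Finset P) :=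
  if h : ∃ Q : Finset (Finset P), IsPM q Q ∧ supp Q = S then h.choose else ∅

variable {q}

theorem partF_pm (S : Finset P) : IsPM q (partF q S) := by
  unfold partF
  split_ifs with h
  · exact h.choose_spec.1
  · exact IsPM.empty

theorem partF_supp_subset (S : Finset P) : supp (partF q S) ⊆ S := by
  unfold partF
  split_ifs with h
  · exact h.choose_spec.2.le
  · rw [supp_empty]; exact Finset.empty_subset _

theorem partF_supp {S : Finset P} (h : q ∣ S.card) : supp (partF q S) = S := by
  obtain ⟨n, hn⟩ := h
  have h1 := exists_part n S hn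
  unfold partF
  rw [dif_pos h1]
  exact h1.choose_spec.2

theorem partF_dvd {S : Finset P} {a : P} (h : a ∈ supp (partF q S)) : q ∣ S.card := by
  by_cases h1 : ∃ Q : Finset (Finset P), IsPM q Q ∧ supp Q = S
  · obtain ⟨Q, hQ, hs⟩ := h1
    rw [← hs, hQ.card_supp]
    exact dvd_mul_right _ _
  · unfold partF at h
    rw [dif_neg h1, supp_empty] at h
    exact absurd h (by simp)

variable {R : Type} (reg : P → R)

/-- The region of a point as a set of points. -/
noncomputable def fib (reg : P → R) (a : P) : Finset P :=
  Finset.univ.filter (fun b => reg b = reg a)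

theorem mem_fib {reg : P → R} {a b : P} : b ∈ fib reg a ↔ reg b = reg a := by simp [fib]

/-- The partial partition given by a map to regions. -/
noncomputable def Mreg (q : ℕ) (reg : P → R) : Finset (Finset P) :=
  (Finset.univ : Finset P).biUnion (fun a => partF q (fib reg a))

variable {reg}

theorem mem_Mreg {B : Finset P} {a : P} (ha : a ∈ B) :
    B ∈ Mreg q reg ↔ B ∈ partF q (fib reg a) := by
  constructor
  · intro h
    simp only [Mreg, Finset.mem_biUnion, Finset.mem_univ, true_and] at h
    obtain ⟨a', ha'⟩ := h
    have h1 : a ∈ fib reg a' :=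
      partF_supp_subset _ (mem_supp.2 ⟨B, ha', ha⟩)
    rw [mem_fib] at h1
    have h2 : fib reg a = fib reg a' := by
      ext b; rw [mem_fib, mem_fib, h1]
    rw [h2]
    exact ha'
  · intro h
    simp only [Mreg, Finset.mem_biUnion, Finset.mem_univ, true_and]
    exact ⟨a, h⟩

theorem Mreg_pm : IsPM q (Mreg q reg) := by
  have hcard : ∀ B ∈ Mreg q reg, B.card = q := by
    intro B hB
    simp only [Mreg, Finset.mem_biUnion, Finset.mem_univ, true_and] at hB
    obtain ⟨a, ha⟩ := hB
    exact (partF_pm _).1 B ha
  refine ⟨hcard, ?_⟩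
  intro B hB B' hB' hne
  rw [Finset.disjoint_left]
  intro a ha ha'
  rw [mem_Mreg ha] at hB
  rw [mem_Mreg ha'] at hB'
  exact hne ((partF_pm _).eq_of_mem hB hB' ha ha')

theorem mem_supp_Mreg {a : P} :
    a ∈ supp (Mreg q reg) ↔ q ∣ (fib reg a).card := by
  constructor
  · intro h
    rw [mem_supp] at h
    obtain ⟨B, hB, haB⟩ := h
    rw [mem_Mreg haB] at hB
    exact partF_dvd (mem_supp.2 ⟨B, hB, haB⟩)
  · intro h
    have h1 : a ∈ supp (partF q (fib reg a)) := by
      rw [partF_supp h, mem_fib]
    rw [mem_supp] at h1 ⊢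
    obtain ⟨B, hB, haB⟩ := h1
    exact ⟨B, (mem_Mreg haB).2 hB, haB⟩

theorem Mreg_congr {reg reg' : P → R} {B : Finset P} {a : P} (ha : a ∈ B)
    (h : ∀ b, reg b = reg a ↔ reg' b = reg' a) : B ∈ Mreg q reg ↔ B ∈ Mreg q reg' := by
  rw [mem_Mreg ha, mem_Mreg ha]
  have : fib reg a = fib reg' a := by
    ext b; rw [mem_fib, mem_fib]; exact h b
  rw [this]

theorem supp_Mreg_congr {reg reg' : P → R} {a : P}
    (h : ∀ b, reg b = reg a ↔ reg' b = reg' a) :
    a ∈ supp (Mreg q reg) ↔ a ∈ supp (Mreg q reg') := by
  rw [mem_supp_Mreg, mem_supp_Mreg]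
  have : fib reg a = fib reg' a := by
    ext b; rw [mem_fib, mem_fib]; exact h b
  rw [this]

theorem dvd_fib {reg : P → R} {a : P} {g : R} (hag : reg a = g) {S : Finset P}
    (hS : ∀ b, b ∈ S ↔ reg b = g) (h : q ∣ S.card) : a ∈ supp (Mreg q reg) := by
  rw [mem_supp_Mreg]
  have : fib reg a = S := by
    ext b; rw [mem_fib, hS, hag]
  rw [this]; exact h

end Regions

section Points

variable {q n : ℕ} (f : Fin (n + 1) → Fin 5 → Fin n) (u : Fin (n + 1) → ZMod q)
  (pad : Fin (n + 1) → ℕ) (ex : ℕ)

/-- The points. -/
abbrev Pt : Type :=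
  ((r : Fin (n + 1)) × (Fin (u r).val × ((Fin 5 × Fin (q - 1)) ⊕ Fin (pad r)))) ⊕ Fin ex

/-- The region of a point. -/
def reg (x : Fin n → ZMod q) : Pt u pad ex →
    (Fin n × Fin (q - 1)) ⊕ ((Fin (n + 1) × ℕ) ⊕ Unit)
  | .inl ⟨r, c, .inl (t, j)⟩ =>
    if j.val < (x (f r t)).val then .inl (f r t, j) else .inr (.inl (r, c.val))
  | .inl ⟨r, c, .inr _⟩ => .inr (.inl (r, c.val))
  | .inr _ => .inr (.inr ())

variable {f u pad ex}

theorem reg_congr {x x' : Fin n → ZMod q} {r : Fin (n + 1)}
    {z : Fin (u r).val × ((Fin 5 × Fin (q - 1)) ⊕ Fin (pad r))}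
    (h : ∀ t, x (f r t) = x' (f r t)) (b : Pt u pad ex) :
    reg f u pad ex x b = reg f u pad ex x (.inl ⟨r, z⟩) ↔
      reg f u pad ex x' b = reg f u pad ex x' (.inl ⟨r, z⟩) := by
  obtain ⟨c, z⟩ := z
  rcases b with ⟨r', c', z'⟩ | e
  · rcases z with ⟨t, j⟩ | e
    · rcases z' with ⟨t', j'⟩ | e'
      · simp only [reg, ← h t]
        by_cases hon : j.val < (x (f r t)).val
        · rw [if_pos hon]
          by_cases heq : f r' t' = f r t ∧ j' = j
          · rw [heq.1, heq.2, ← h t, if_pos hon]
          · constructor
            · intro h1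
              exfalso
              apply heq
              split_ifs at h1 with h2
              simpa using h1
            · intro h1
              exfalso
              apply heq
              split_ifs at h1 with h2
              simpa using h1
        · rw [if_neg hon]
          by_cases hr : r' = r
          · subst hr
            rw [← h t']
          · constructor
            · intro h1
              exfalso
              apply hr
              split_ifs at h1 with h2
              have := Sum.inl.inj (Sum.inr.inj h1)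
              exact congrArg Prod.fst this
            · intro h1
              exfalso
              apply hr
              split_ifs at h1 with h2
              have := Sum.inl.inj (Sum.inr.inj h1)
              exact congrArg Prod.fst this
      · simp only [reg, ← h t]
    · rcases z' with ⟨t', j'⟩ | e'
      · simp only [reg]
        by_cases hr : r' = r
        · subst hr
          rw [← h t']
        · constructor
          · intro h1
            exfalso
            apply hr
            split_ifs at h1 with h2
            have := Sum.inl.inj (Sum.inr.inj h1)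
            exact congrArg Prod.fst this
          · intro h1
            exfalso
            apply hr
            split_ifs at h1 with h2
            have := Sum.inl.inj (Sum.inr.inj h1)
            exact congrArg Prod.fst this
      · simp only [reg]
  · rcases z with ⟨t, j⟩ | e'
    · simp only [reg, ← h t]
    · simp only [reg]

variable [hq : Fact q.Prime]

theorem card_on (x : Fin n → ZMod q) (i : Fin n) (j : Fin (q - 1)) (hj : j.val < (x i).val) :
    ((Finset.univ.filter (fun b : Pt u pad ex => reg f u pad ex x b = .inl (i, j))).card :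
      ZMod q) = comb (mat q f) u i := by
  rw [Finset.card_filter]
  push_cast
  rw [Fintype.sum_sum_type, Fintype.sum_sigma]
  have h1 : ∑ e : Fin ex, (if reg f u pad ex x (.inr e) = .inl (i, j) then (1 : ZMod q) else 0)
      = 0 := by
    apply Finset.sum_eq_zero
    intro e _
    simp [reg]
  rw [h1, add_zero]
  unfold comb
  refine Finset.sum_congr rfl (fun r _ => ?_)
  rw [Fintype.sum_prod_type]
  have h2 : ∀ c : Fin (u r).val, ∑ z : (Fin 5 × Fin (q - 1)) ⊕ Fin (pad r),
      (if reg f u pad ex x (.inl ⟨r, c, z⟩) = .inl (i, j) then (1 : ZMod q) else 0) =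
      mat q f r i := by
    intro c
    rw [Fintype.sum_sum_type, Fintype.sum_prod_type]
    have h3 : ∑ e : Fin (pad r),
        (if reg f u pad ex x (.inl ⟨r, c, .inr e⟩) = .inl (i, j) then (1 : ZMod q) else 0)
        = 0 := by
      apply Finset.sum_eq_zero
      intro e _
      simp [reg]
    rw [h3, add_zero]
    unfold mat
    refine Finset.sum_congr rfl (fun t _ => ?_)
    by_cases hi : f r t = i
    · rw [if_pos hi, Finset.sum_eq_single j]
      · rw [if_pos]
        simp only [reg, hi]
        rw [if_pos hj]
      · intro j' _ hj'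
        rw [if_neg]
        simp only [reg]
        intro h
        split_ifs at h with h4
        have := Sum.inl.inj h
        exact hj' (congrArg Prod.snd this)
      · intro h; exact absurd (Finset.mem_univ _) h
    · rw [if_neg hi]
      apply Finset.sum_eq_zero
      intro j' _
      rw [if_neg]
      simp only [reg]
      intro h
      split_ifs at h with h4
      have := Sum.inl.inj h
      exact hi (congrArg Prod.fst this)
  rw [Finset.sum_congr rfl (fun c _ => h2 c), Finset.sum_const, Finset.card_univ,
    Fintype.card_fin, nsmul_eq_mul, ZMod.natCast_zmod_val]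

theorem card_off (x : Fin n → ZMod q) (r : Fin (n + 1)) (c : Fin (u r).val) :
    ((Finset.univ.filter (fun b : Pt u pad ex =>
      reg f u pad ex x b = .inr (.inl (r, c.val)))).card : ZMod q) =
      -5 - ∑ t, x (f r t) + pad r := by
  rw [Finset.card_filter]
  push_cast
  rw [Fintype.sum_sum_type, Fintype.sum_sigma]
  have h1 : ∑ e : Fin ex,
      (if reg f u pad ex x (.inr e) = .inr (.inl (r, c.val)) then (1 : ZMod q) else 0)
      = 0 := by
    apply Finset.sum_eq_zero
    intro e _
    simp [reg]
  rw [h1, add_zero, Finset.sum_eq_single r]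
  · rw [Fintype.sum_prod_type, Finset.sum_eq_single c]
    · rw [Fintype.sum_sum_type, Fintype.sum_prod_type]
      have h3 : ∑ e : Fin (pad r),
          (if reg f u pad ex x (.inl ⟨r, c, .inr e⟩) = .inr (.inl (r, c.val)) then
            (1 : ZMod q) else 0) = pad r := by
        simp [reg]
      rw [h3]
      congr 1
      have h4 : ∀ t : Fin 5, ∑ j : Fin (q - 1),
          (if reg f u pad ex x (.inl ⟨r, c, .inl (t, j)⟩) = .inr (.inl (r, c.val)) then
            (1 : ZMod q) else 0) = -1 - x (f r t) := by
        intro t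
        have h5 : ∀ j : Fin (q - 1),
            (if reg f u pad ex x (.inl ⟨r, c, .inl (t, j)⟩) = .inr (.inl (r, c.val)) then
            (1 : ZMod q) else 0) = 1 - (if decide (j.val < (x (f r t)).val) = true then
              (1 : ZMod q) else 0) := by
          intro j
          by_cases h6 : j.val < (x (f r t)).val
          · have h8 : reg f u pad ex x (.inl ⟨r, c, .inl (t, j)⟩) = .inl (f r t, j) := by
              simp only [reg]; rw [if_pos h6]
            rw [if_neg (by rw [h8]; simp), if_pos (by simpa using h6)]; ring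
          · have h8 : reg f u pad ex x (.inl ⟨r, c, .inl (t, j)⟩) = .inr (.inl (r, c.val)) := by
              simp only [reg]; rw [if_neg h6]
            rw [if_pos h8, if_neg (by simpa using h6)]; ring
        rw [Finset.sum_congr rfl (fun j _ => h5 j), Finset.sum_sub_distrib, sum_enc]
        simp only [Finset.sum_const, Finset.card_univ, Fintype.card_fin, nsmul_eq_mul, mul_one]
        have h7 := hq.out.one_lt
        rw [Nat.cast_sub h7.le]
        simp
      rw [Finset.sum_congr rfl (fun t _ => h4 t), Finset.sum_sub_distrib]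
      simp
    · intro c' _ hc'
      apply Finset.sum_eq_zero
      intro z _
      rw [if_neg]
      intro h
      apply hc'
      rcases z with ⟨t, j⟩ | e
      · simp only [reg] at h
        split_ifs at h with h2
        have := Sum.inl.inj (Sum.inr.inj h)
        exact Fin.ext (congrArg Prod.snd this)
      · simp only [reg] at h
        have := Sum.inl.inj (Sum.inr.inj h)
        exact Fin.ext (congrArg Prod.snd this)
    · intro h; exact absurd (Finset.mem_univ _) h
  · intro r' _ hr'
    apply Finset.sum_eq_zero
    rintro ⟨c', z⟩ _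
    rw [if_neg]
    intro h
    apply hr'
    rcases z with ⟨t, j⟩ | e
    · simp only [reg] at h
      split_ifs at h with h2
      have := Sum.inl.inj (Sum.inr.inj h)
      exact congrArg Prod.fst this
    · simp only [reg] at h
      have := Sum.inl.inj (Sum.inr.inj h)
      exact congrArg Prod.fst this
  · intro h; exact absurd (Finset.mem_univ _) h

theorem card_ex (x : Fin n → ZMod q) :
    (Finset.univ.filter (fun b : Pt u pad ex =>
      reg f u pad ex x b = .inr (.inr ()))).card = ex := by
  rw [Finset.card_filter, Fintype.sum_sum_type]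
  have h1 : ∑ e : Fin ex,
      (if reg f u pad ex x (.inr e) = .inr (.inr ()) then 1 else 0) = ex := by
    simp [reg]
  rw [h1]
  have h2 : ∑ z : (r : Fin (n + 1)) × (Fin (u r).val × ((Fin 5 × Fin (q - 1)) ⊕ Fin (pad r))),
      (if reg f u pad ex x (.inl z) = .inr (.inr ()) then 1 else 0) = 0 := by
    apply Finset.sum_eq_zero
    rintro ⟨r, c, z⟩ _
    rw [if_neg]
    intro h
    rcases z with ⟨t, j⟩ | e
    · simp only [reg] at h
      split_ifs at h with h2
      exact absurd (Sum.inr.inj h) (by simp)
    · simp only [reg] at h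
      exact absurd (Sum.inr.inj h) (by simp)
  rw [h2, zero_add]

theorem card_Pt : Fintype.card (Pt u pad ex) =
    ∑ r, (u r).val * (5 * (q - 1) + pad r) + ex := by
  simp [Pt]

end Points

/-- The reduction. -/
theorem count_hard_aux {q n : ℕ} [hqF : Fact q.Prime] {K : Type} [Field K]
    (ψ : AddChar (ZMod q) K) (hψ : ψ.IsPrimitive) (hqK : (q : K) ≠ 0)
    {f : Fin (n + 1) → Fin 5 → Fin n} {u rhs : Fin (n + 1) → ZMod q}
    {pad : Fin (n + 1) → ℕ} {ex : ℕ} (hcomb : comb (mat q f) u = 0)
    (hpad : ∀ r, ((pad r : ℕ) : ZMod q) = rhs r + 5) (hexq : q ∣ ex) {w : ℕ}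
    (hE : Expands (mat q f) (2 * w) w) (hw : 10 ≤ w) {V : Type} [Fintype V] (U : Finset V)
    (hcard : Fintype.card (Pt u pad ex) = Fintype.card U) :
    ∃ M : (Fin n → ZMod q) → Finset (Finset V),
        (∀ x, IsPM q (M x) ∧ supp (M x) ⊆ U) ∧
        (∀ B, ind K (fun x => decide (B ∈ M x)) ∈ (chrFilt ψ n).LD 5) ∧
        ¬ Der (chrFilt ψ n) {g | ∃ a ∈ U, g = ind K (fun x => decide (a ∉ supp (M x)))} w 1 := by
  have hq2 := hqF.out.two_le
  obtain ⟨e⟩ := Fintype.card_eq.1 hcard
  let emb : Pt u pad ex ↪ V := ⟨fun a => (e a : V), fun a b h => e.injective (Subtype.ext h)⟩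
  let M : (Fin n → ZMod q) → Finset (Finset V) := fun x =>
    (Mreg q (reg f u pad ex x)).map (Finset.mapEmbedding emb).toEmbedding
  have hmemM : ∀ x B, B ∈ M x ↔ ∃ B' ∈ Mreg q (reg f u pad ex x), B'.map emb = B := by
    intro x B
    simp only [M, Finset.mem_map]
    rfl
  have hsuppM : ∀ x (a : Pt u pad ex), emb a ∈ supp (M x) ↔
      a ∈ supp (Mreg q (reg f u pad ex x)) := by
    intro x a
    rw [mem_supp, mem_supp]
    constructor
    · rintro ⟨B, hB, ha⟩
      rw [hmemM] at hB
      obtain ⟨B', hB', rfl⟩ := hB
      exact ⟨B', hB', (Finset.mem_map' emb).1 ha⟩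
    · rintro ⟨B', hB', ha⟩
      exact ⟨B'.map emb, (hmemM _ _).2 ⟨B', hB', rfl⟩, (Finset.mem_map' emb).2 ha⟩
  have hembU : ∀ a, emb a ∈ U := fun a => (e a).2
  have hUemb : ∀ b ∈ U, ∃ a, emb a = b := by
    intro b hb
    refine ⟨e.symm ⟨b, hb⟩, ?_⟩
    change ((e (e.symm ⟨b, hb⟩) : U) : V) = b
    rw [Equiv.apply_symm_apply]
  refine ⟨M, ?_, ?_, ?_⟩
  · intro x
    refine ⟨⟨?_, ?_⟩, ?_⟩
    · intro B hB
      rw [hmemM] at hB
      obtain ⟨B', hB', rfl⟩ := hB
      rw [Finset.card_map]
      exact Mreg_pm.1 B' hB'
    · intro B hB C hC hne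
      rw [hmemM] at hB hC
      obtain ⟨B', hB', rfl⟩ := hB
      obtain ⟨C', hC', rfl⟩ := hC
      rw [Finset.disjoint_map]
      exact Mreg_pm.2 B' hB' C' hC' (fun h => hne (by rw [h]))
    · intro b hb
      rw [mem_supp] at hb
      obtain ⟨B, hB, hbB⟩ := hb
      rw [hmemM] at hB
      obtain ⟨B', hB', rfl⟩ := hB
      rw [Finset.mem_map] at hbB
      obtain ⟨a, _, rfl⟩ := hbB
      exact hembU a
  · intro B
    by_cases hB : ∃ (r : Fin (n + 1)) (z : Fin (u r).val × ((Fin 5 × Fin (q - 1)) ⊕ Fin (pad r))),
        emb (.inl ⟨r, z⟩) ∈ B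
    · obtain ⟨r, z, hz⟩ := hB
      refine junta_mem ψ hψ hqK (f r) _ ?_
      have key : ∀ x x' : Fin n → ZMod q, (∀ t, x (f r t) = x' (f r t)) →
          (B ∈ M x) → (B ∈ M x') := by
        intro x x' h hx
        rw [hmemM] at hx ⊢
        obtain ⟨B', hB', hBB⟩ := hx
        have ha : (.inl ⟨r, z⟩ : Pt u pad ex) ∈ B' := by
          rw [← hBB] at hz
          exact (Finset.mem_map' emb).1 hz
        exact ⟨B', (Mreg_congr ha (reg_congr h)).1 hB', hBB⟩
      intro x x' h
      have key2 : (B ∈ M x) ↔ (B ∈ M x') := ⟨key x x' h, key x' x (fun t => (h t).symm)⟩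
      simp only [ind, key2]
    · -- blocks inside the extra points do not depend on `x`
      have hconst : ∀ x x' : Fin n → ZMod q, (B ∈ M x) → (B ∈ M x') := by
        intro x x' h
        rw [hmemM] at h ⊢
        obtain ⟨B', hB', hBB⟩ := h
        refine ⟨B', ?_, hBB⟩
        have hne : B'.Nonempty := by
          apply Finset.card_pos.1
          rw [Mreg_pm.1 B' hB']; omega
        obtain ⟨a, ha⟩ := hne
        rcases a with ⟨r, z⟩ | a
        · exact absurd ⟨r, z, (by rw [← hBB]; exact (Finset.mem_map' emb).2 ha)⟩ hB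
        · refine (Mreg_congr ha ?_).1 hB'
          intro b
          rcases b with ⟨r, c, z⟩ | b
          · rcases z with ⟨t, j⟩ | e
            · simp only [reg]
              constructor
              · intro h; split_ifs at h with h2 <;> simp at h
              · intro h; split_ifs at h with h2 <;> simp at h
            · simp [reg]
          · simp [reg]
      have hz : ind K (fun x => decide (B ∈ M x)) = ind K (fun _ => decide (B ∈ M 0)) := by
        funext x
        have : (B ∈ M x) ↔ (B ∈ M 0) := ⟨hconst x 0, hconst 0 x⟩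
        simp only [ind, this]
      rw [hz]
      exact (chrFilt ψ n).const_mem _ _
  · refine linsys_lower (b := rhs) (k := 5) hψ hqK hE (by omega) ?_ ?_
    · intro r j
      unfold hammingNorm
      have h1 : Finset.univ.filter (fun i => (j • mat q f r) i ≠ 0) ⊆
          Finset.univ.image (f r) := by
        intro i hi
        rw [Finset.mem_filter] at hi
        rw [Finset.mem_image]
        by_contra hcon
        push Not at hcon
        apply hi.2
        have : mat q f r i = 0 := by
          unfold mat
          refine Finset.sum_eq_zero (fun t _ => ?_)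
          rw [if_neg (hcon t (Finset.mem_univ _))]
        simp [this]
      refine (Finset.card_le_card h1).trans (Finset.card_image_le.trans ?_)
      rw [Finset.card_univ, Fintype.card_fin]
    · rintro g ⟨b, hb, rfl⟩
      obtain ⟨a, rfl⟩ := hUemb b hb
      rcases a with ⟨r, c, z⟩ | a
      · refine ⟨?_, r, ?_⟩
        · refine junta_mem ψ hψ hqK (f r) _ ?_
          intro x x' h
          have key : (emb (.inl ⟨r, c, z⟩) ∈ supp (M x)) ↔
              (emb (.inl ⟨r, c, z⟩) ∈ supp (M x')) := by
            rw [hsuppM, hsuppM]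
            exact supp_Mreg_congr (reg_congr h)
          simp only [ind, key]
        · intro x hx
          rw [sum_mat] at hx
          have hcov : (.inl ⟨r, c, z⟩ : Pt u pad ex) ∈
              supp (Mreg q (reg f u pad ex x)) := by
            have hoff : q ∣ (Finset.univ.filter (fun b : Pt u pad ex =>
                reg f u pad ex x b = .inr (.inl (r, c.val)))).card := by
              rw [← ZMod.natCast_eq_zero_iff, card_off, hx, hpad]; ring
            rcases z with ⟨t, j⟩ | e
            · by_cases hon : j.val < (x (f r t)).val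
              · have e2 : reg f u pad ex x (.inl ⟨r, c, .inl (t, j)⟩) = .inl (f r t, j) := by
                  simp only [reg]; rw [if_pos hon]
                refine dvd_fib e2 (S := Finset.univ.filter (fun b : Pt u pad ex =>
                  reg f u pad ex x b = .inl (f r t, j))) (fun b => by simp) ?_
                rw [← ZMod.natCast_eq_zero_iff, card_on x _ _ hon, hcomb]; rfl
              · have e2 : reg f u pad ex x (.inl ⟨r, c, .inl (t, j)⟩) =
                    .inr (.inl (r, c.val)) := by
                  simp only [reg]; rw [if_neg hon]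
                exact dvd_fib e2 (S := Finset.univ.filter (fun b : Pt u pad ex =>
                  reg f u pad ex x b = .inr (.inl (r, c.val)))) (fun b => by simp) hoff
            · have e2 : reg f u pad ex x (.inl ⟨r, c, .inr e⟩) =
                    .inr (.inl (r, c.val)) := rfl
              exact dvd_fib e2 (S := Finset.univ.filter (fun b : Pt u pad ex =>
                  reg f u pad ex x b = .inr (.inl (r, c.val)))) (fun b => by simp) hoff
          have hcov' : emb (.inl ⟨r, c, z⟩) ∈ supp (M x) := (hsuppM _ _).2 hcov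
          simp only [ind]
          rw [if_neg (by simpa using hcov')]
      · have hz : ∀ x, emb (.inr a) ∈ supp (M x) := by
          intro x
          rw [hsuppM]
          have e2 : reg f u pad ex x (.inr a) = .inr (.inr ()) := rfl
          refine dvd_fib e2 (S := Finset.univ.filter (fun b : Pt u pad ex =>
            reg f u pad ex x b = .inr (.inr ()))) (fun b => by simp) ?_
          rw [card_ex]
          exact hexq
        have hz' : ind K (fun x => decide (emb (.inr a) ∉ supp (M x))) = (fun _ => 0) := by
          funext x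
          simp only [ind]
          rw [if_neg (by simpa using hz x)]
        rw [hz']
        exact ⟨(chrFilt ψ n).const_mem _ _, 0, fun _ _ => rfl⟩

/-- Polynomial calculus hardness of partitions into blocks of size `q`. -/
theorem count_hard (p : ℕ) [hp : Fact p.Prime] :
    ∃ q c : ℕ, q.Prime ∧ q ≤ 3 ∧ 1 ≤ c ∧ ∀ m w : ℕ, m % q = 1 → c ≤ w → c * w ≤ m →
      ∀ (V : Type) (_ : Fintype V) (U : Finset V), U.card = m →
      ∃ (X K : Type) (_ : Field K) (_ : CharP K p) (𝔉 : Filt X K)
        (M : X → Finset (Finset V)),
        (∀ x, IsPM q (M x) ∧ supp (M x) ⊆ U) ∧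
        (∀ B, ind K (fun x => decide (B ∈ M x)) ∈ 𝔉.LD 5) ∧
        ¬ Der 𝔉 {g | ∃ a ∈ U, g = ind K (fun x => decide (a ∉ supp (M x)))} w 1 := by
  obtain ⟨q, hq, hqp, hq3⟩ : ∃ q : ℕ, q.Prime ∧ q ≠ p ∧ q ≤ 3 := by
    by_cases h : p = 2
    · exact ⟨3, Nat.prime_three, by omega, le_refl _⟩
    · exact ⟨2, Nat.prime_two, fun h' => h h'.symm, by norm_num⟩
  have hqF : Fact q.Prime := ⟨hq⟩
  have hq2 := hq.two_le
  have hne : ((q : ℕ) : ZMod p) ≠ 0 := by
    rw [Ne, ZMod.natCast_eq_zero_iff]
    intro h
    exact hqp ((Nat.prime_dvd_prime_iff_eq hp.out hq).1 h).symm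
  have : NeZero ((q : ℕ) : ZMod p) := ⟨hne⟩
  obtain ⟨ζ, hζ⟩ := HasEnoughRootsOfUnity.exists_primitiveRoot (AlgebraicClosure (ZMod p)) q
  have hψ := AddChar.zmodChar_primitive_of_primitive_root q hζ
  set ψ := AddChar.zmodChar q ((IsPrimitiveRoot.iff_def ζ q).mp hζ).left with hψdef
  have hqK : ((q : ℕ) : AlgebraicClosure (ZMod p)) ≠ 0 := by
    intro h
    apply hne
    have := (algebraMap (ZMod p) (AlgebraicClosure (ZMod p))).injective
    apply this
    simpa using h
  refine ⟨q, 200000, hq, hq3, by norm_num, ?_⟩
  intro m w hm hcw hwm V _ U hU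
  set n := 8000 * w with hn
  obtain ⟨f, hf⟩ := exists_expander (m := n + 1) (n := n) (by omega)
  have hE : Expands (mat q f) (2 * w) w := expands_of f hf (by omega) (by omega)
  -- a linear dependence of the rows
  obtain ⟨u, hu0, hcomb⟩ : ∃ u : Fin (n + 1) → ZMod q, u ≠ 0 ∧ comb (mat q f) u = 0 := by
    by_contra hcon
    push Not at hcon
    have hinj : Function.Injective (comb (mat q f)) := by
      intro u u' h
      by_contra hne
      apply hcon (u - u') (sub_ne_zero.2 hne)
      have h1 : comb (mat q f) ((u - u') + u') = comb (mat q f) (u - u') + comb (mat q f) u' :=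
        comb_add _ _ _
      rw [sub_add_cancel, h] at h1
      exact add_eq_right.1 h1.symm
    have := Fintype.card_le_of_injective _ hinj
    simp only [Fintype.card_pi, ZMod.card, Finset.prod_const, Finset.card_univ,
      Fintype.card_fin] at this
    have h3 : q ^ n < q ^ (n + 1) := Nat.pow_lt_pow_right (by omega) (by omega)
    omega
  obtain ⟨r0, hr0⟩ : ∃ r, u r ≠ 0 := by
    by_contra hcon
    push Not at hcon
    exact hu0 (funext hcon)
  set rhs : Fin (n + 1) → ZMod q := Pi.single r0 (u r0)⁻¹ with hrhs
  have hdot : ∑ r, u r * rhs r = 1 := by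
    rw [Finset.sum_eq_single r0]
    · rw [hrhs, Pi.single_eq_same, mul_inv_cancel₀ hr0]
    · intro r _ hr
      rw [hrhs, Pi.single_eq_of_ne hr, mul_zero]
    · intro h; exact absurd (Finset.mem_univ _) h
  set pad : Fin (n + 1) → ℕ := fun r => (rhs r + 5).val with hpad
  set tot : ℕ := ∑ r, (u r).val * (5 * (q - 1) + pad r) with htot
  have htotq : ((tot : ℕ) : ZMod q) = 1 := by
    rw [htot]
    push_cast
    rw [← hdot]
    refine Finset.sum_congr rfl (fun r _ => ?_)
    rw [ZMod.natCast_zmod_val, hpad]
    simp only []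
    rw [ZMod.natCast_zmod_val, Nat.cast_sub (by omega)]
    simp only [CharP.cast_eq_zero, Nat.cast_one]
    ring
  have htotle : tot ≤ m := by
    have h1 : ∀ r ∈ (Finset.univ : Finset (Fin (n + 1))),
        (u r).val * (5 * (q - 1) + pad r) ≤ 24 := by
      intro r _
      have h2 : (u r).val ≤ q - 1 := by
        have := ZMod.val_lt (u r); omega
      have h3 : pad r ≤ q - 1 := by
        have := ZMod.val_lt (rhs r + 5)
        simp only [hpad]; omega
      have h4 : q - 1 ≤ 2 := by omega
      calc (u r).val * (5 * (q - 1) + pad r) ≤ 2 * (5 * 2 + 2) :=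
            Nat.mul_le_mul (by omega) (by omega)
        _ = 24 := by norm_num
    have h5 := Finset.sum_le_card_nsmul _ _ _ h1
    rw [Finset.card_univ, Fintype.card_fin, smul_eq_mul] at h5
    omega
  set ex : ℕ := m - tot with hex
  have hexq : q ∣ ex := by
    have h1 : tot % q = 1 := by
      have h2 : ((tot : ℕ) : ZMod q) = ((1 : ℕ) : ZMod q) := by rw [htotq]; simp
      rw [ZMod.natCast_eq_natCast_iff'] at h2
      rw [h2]
      exact Nat.mod_eq_of_lt (by omega)
    rw [hex]
    exact (Nat.modEq_iff_dvd' htotle).1 (by rw [Nat.ModEq, h1, hm])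
  have hcard : Fintype.card (Pt u pad ex) = Fintype.card U := by
    rw [card_Pt, Fintype.card_coe, hU, ← htot, hex]
    omega
  obtain ⟨M, h1, h2, h3⟩ := count_hard_aux ψ hψ hqK (rhs := rhs) hcomb (by
    intro r
    rw [hpad]
    simp only []
    rw [ZMod.natCast_zmod_val]) hexq hE (by omega) U hcard
  exact ⟨Fin n → ZMod q, AlgebraicClosure (ZMod p), inferInstance, inferInstance, chrFilt ψ n,
    M, h1, h2, h3⟩

end Pool.Agent.Helper21.Mix
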