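import Pool.Agent.Helper21.Mix.Force

/-!
Level by level restriction: all formulas of a family get shallow decision trees.
-/

namespace Pool.Agent.Helper21.Mix

open scoped BigOperators Classical
open Pool.Agent.Helper21.AC0p

set_option linter.unusedSectionVars false

variable {V : Type} [Fintype V]

/-- A set of formulas without `MOD_p` closed under immediate subformulas. -/
structure Closed (Γ : Finset Fm) : Prop where
  mf : ∀ A ∈ Γ, A.ModFree
  neg : ∀ A, Fm.neg A ∈ Γ → A ∈ Γ
  or : ∀ (k : ℕ) (f : Fin k → Fm), Fm.or k f ∈ Γ → ∀ i, f i ∈ Γ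

/-- The list of terms of a disjunction. -/
noncomputable def termsOf (q s : ℕ) (blk : ℕ → Option (Finset V)) (ρ : Finset (Finset V)) :
    Fm → List (Finset (Finset V))
  | .or _ f => terms q s blk ρ f
  | _ => []

theorem levels {q s : ℕ} {blk : ℕ → Option (Finset V)} (hq : 1 ≤ q) (hs : 1 ≤ s)
    (hblk : ∀ i B, blk i = some B → B.card = q) {Γ : Finset Fm} (hΓ : Closed Γ)
    {d j0 : ℕ} (k a : ℕ → ℕ) (hk0 : k 0 = 0)
    (hkmono : ∀ i < d, k i ≤ k (i + 1))
    (hkV : ∀ i ≤ d, q * (k i + s + 1) ≤ Fintype.card V)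
    (ha : ∀ i < d, Fintype.card V - q * k (i + 1) ≤ a (i + 1)) (ha1 : ∀ i, 1 ≤ a i)
    (hbig : ∀ i < d, 4 * (a (i + 1) ^ q * (2 * (s * (a (i + 1) ^ q + 1) ^ q))) ≤
      k (i + 1) + 1 - k i)
    (hj0 : q * j0 ≤ s)
    (hG : (Γ.filter (fun A => ∃ (k : ℕ) (f : Fin k → Fm), A = .or k f)).card < 2 ^ j0) :
    ∀ i ≤ d, ∃ ρ : Finset (Finset V), IsPM q ρ ∧ ρ.card = k i ∧
      ∀ A ∈ Γ, ordep A ≤ i → Dec q (Dcd q s blk A) s ρ := by
  intro i
  induction i with
  | zero =>
    intro _
    refine ⟨∅, IsPM.empty, by simp [hk0], ?_⟩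
    intro A
    induction A with
    | var i => intro _ _; exact dec_var hq hs hblk i ∅
    | neg A ih =>
      intro hA ho
      exact dec_neg (ih (hΓ.neg A hA) (by simpa [ordep] using ho))
    | or k f _ => intro _ ho; simp [ordep] at ho
    | mod k f _ => intro hA _; exact (hΓ.mf _ hA).elim
  | succ i ih =>
    intro hi
    obtain ⟨ρ, hρ, hρk, hdec⟩ := ih (by omega)
    obtain ⟨M, hM, hρM, hMk, hgood⟩ := exists_good hq
      (Γ.filter (fun A => ∃ (k : ℕ) (f : Fin k → Fm), A = .or k f))
      (termsOf q s blk ρ) (r := s) (by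
        intro A hA t ht
        rw [Finset.mem_filter] at hA
        obtain ⟨_, k', f, rfl⟩ := hA
        simp only [termsOf, mem_terms] at ht
        exact ⟨ht.1, fun B hB => ht.2.1.1 B (Finset.mem_union_right _ hB)⟩)
      hρ (k := k (i + 1)) (a := a (i + 1)) (by rw [hρk]; exact hkmono i (by omega)) (by
        have := hkV (i + 1) hi
        exact (Nat.mul_le_mul_left _ (by omega)).trans this) (ha i (by omega)) (ha1 _)
      (by rw [hρk]; exact hbig i (by omega)) hs hj0 hG
    refine ⟨M, hM, hMk, ?_⟩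
    intro A
    induction A with
    | var j => intro _ _; exact dec_var hq hs hblk j M
    | neg A ihA =>
      intro hA ho
      exact dec_neg (ihA (hΓ.neg A hA) (by simpa [ordep] using ho))
    | or k' f _ =>
      intro hA ho
      by_cases ho' : ordep (.or k' f) ≤ i
      · exact (hdec _ hA ho').restrict Dcd_mono hρM hM
      · refine dec_or hq (ρ := ρ) ?_ hρM hM ?_ ?_
        · intro j
          refine hdec (f j) (hΓ.or k' f hA j) ?_
          have := ordep_lt (f := f) j
          omega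
        · rw [hMk]; exact hkV (i + 1) hi
        · exact hgood (.or k' f) (Finset.mem_filter.2 ⟨hA, k', f, rfl⟩)
    | mod k' f _ => intro hA _; exact (hΓ.mf _ hA).elim

end Pool.Agent.Helper21.Mix
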