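import Pool.Agent.Helper21.Mix.MixSim
import Pool.Agent.Helper21.Mix.Levels
import Pool.Agent.Helper21.Mix.CountHard

/-!
The modular counting principles as CNF formulas, and the core of the lower bound.
-/

namespace Pool.Agent.Helper21.Mix

open scoped BigOperators Classical
open Pool.Agent.Helper21.AC0p

set_option linter.unusedSectionVars false

/-- The block with index `i`. -/
noncomputable def blkOf (q N : ℕ) (i : ℕ) : Option (Finset (Fin N)) :=
  ((Finset.univ.powersetCard q).toList)[i]?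

theorem blkOf_card {q N i : ℕ} {B : Finset (Fin N)} (h : blkOf q N i = some B) : B.card = q := by
  have h1 := List.mem_of_getElem? h
  rw [Finset.mem_toList, Finset.mem_powersetCard] at h1
  exact h1.2

theorem blkOf_lt {q N i : ℕ} {B : Finset (Fin N)} (h : blkOf q N i = some B) :
    i < N.choose q := by
  obtain ⟨h1, _⟩ := List.getElem?_eq_some_iff.1 h
  rw [Finset.length_toList, Finset.card_powersetCard, Finset.card_univ, Fintype.card_fin] at h1
  exact h1

theorem exists_blkOf {q N : ℕ} {B : Finset (Fin N)} (h : B.card = q) :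
    ∃ i, blkOf q N i = some B := by
  have h1 : B ∈ (Finset.univ.powersetCard q : Finset (Finset (Fin N))).toList := by
    rw [Finset.mem_toList, Finset.mem_powersetCard]
    exact ⟨Finset.subset_univ _, h⟩
  exact List.mem_iff_getElem?.1 h1

/-- Some block contains the point `a`. -/
noncomputable def pointClause (q N : ℕ) (a : Fin N) : Clause :=
  ((List.range (N.choose q)).filter
    (fun i => decide (∃ B, blkOf q N i = some B ∧ a ∈ B))).map (fun i => (i, true))

/-- The blocks with the two indices intersect and are different. -/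
def Clash (q N : ℕ) (ij : ℕ × ℕ) : Prop :=
  ∃ B B', blkOf q N ij.1 = some B ∧ blkOf q N ij.2 = some B' ∧ B ≠ B' ∧ ¬ Disjoint B B'

/-- The principle: there is a partition of `N` points into blocks of size `q`. -/
noncomputable def countCNF (q N : ℕ) : List Clause :=
  (List.finRange N).map (pointClause q N) ++
    (((List.range (N.choose q)) ×ˢ (List.range (N.choose q))).filter
      (fun ij => decide (Clash q N ij))).map (fun ij => [(ij.1, false), (ij.2, false)])

theorem mem_countCNF {q N : ℕ} {C : Clause} : C ∈ countCNF q N ↔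
    (∃ a, C = pointClause q N a) ∨ ∃ i j, Clash q N (i, j) ∧ C = [(i, false), (j, false)] := by
  unfold countCNF
  rw [List.mem_append, List.mem_map, List.mem_map]
  constructor
  · rintro (⟨a, _, rfl⟩ | ⟨⟨i, j⟩, h, rfl⟩)
    · exact Or.inl ⟨a, rfl⟩
    · rw [List.mem_filter] at h
      exact Or.inr ⟨i, j, by simpa using h.2, rfl⟩
  · rintro (⟨a, rfl⟩ | ⟨i, j, h, rfl⟩)
    · exact Or.inl ⟨a, List.mem_finRange a, rfl⟩
    · right
      refine ⟨(i, j), ?_, rfl⟩
      rw [List.mem_filter]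
      refine ⟨?_, by simpa using h⟩
      obtain ⟨B, B', h1, h2, _⟩ := h
      have h3 := blkOf_lt h1
      have h4 := blkOf_lt h2
      simpa using ⟨h3, h4⟩

theorem mem_pointClause {q N : ℕ} {a : Fin N} {l : Lit} : l ∈ pointClause q N a ↔
    ∃ i B, blkOf q N i = some B ∧ a ∈ B ∧ l = (i, true) := by
  unfold pointClause
  rw [List.mem_map]
  constructor
  · rintro ⟨i, hi, rfl⟩
    rw [List.mem_filter] at hi
    obtain ⟨B, h1, h2⟩ := by simpa using hi.2
    exact ⟨i, B, h1, h2, rfl⟩
  · rintro ⟨i, B, h1, h2, rfl⟩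
    refine ⟨i, ?_, rfl⟩
    rw [List.mem_filter, List.mem_range]
    exact ⟨blkOf_lt h1, by simpa using ⟨B, h1, h2⟩⟩

theorem countCNF_lit {q N : ℕ} {C : Clause} (hC : C ∈ countCNF q N) {l : Lit} (hl : l ∈ C) :
    l.1 < N.choose q := by
  rcases mem_countCNF.1 hC with ⟨a, rfl⟩ | ⟨i, j, ⟨B, B', h1, h2, _⟩, rfl⟩
  · obtain ⟨i, B, h1, _, rfl⟩ := mem_pointClause.1 hl
    exact blkOf_lt h1
  · rcases List.mem_cons.1 hl with rfl | hl
    · exact blkOf_lt h1
    · rw [List.mem_singleton] at hl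
      subst hl
      exact blkOf_lt h2

theorem countCNF_width {q N : ℕ} {C : Clause} (hC : C ∈ countCNF q N) :
    C.length ≤ N.choose q + 2 := by
  rcases mem_countCNF.1 hC with ⟨a, rfl⟩ | ⟨i, j, _, rfl⟩
  · unfold pointClause
    rw [List.length_map]
    refine (List.length_filter_le _ _).trans ?_
    rw [List.length_range]; omega
  · simp

theorem countCNF_length (q N : ℕ) :
    (countCNF q N).length ≤ N + N.choose q * N.choose q := by
  unfold countCNF
  rw [List.length_append, List.length_map, List.length_finRange, List.length_map]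
  have := List.length_filter_le (fun ij => decide (Clash q N ij))
    ((List.range (N.choose q)) ×ˢ (List.range (N.choose q)))
  rw [List.length_product, List.length_range] at this
  omega

theorem countCNF_unsat {q N : ℕ} (hN : N % q = 1) : Unsat (countCNF q N) := by
  intro v
  by_contra hcon
  push Not at hcon
  set M : Finset (Finset (Fin N)) :=
    Finset.univ.filter (fun B => ∃ i, blkOf q N i = some B ∧ v i = true) with hM
  have hmem : ∀ B, B ∈ M ↔ ∃ i, blkOf q N i = some B ∧ v i = true := by intro B; simp [hM]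
  have hPM : IsPM q M := by
    refine ⟨?_, ?_⟩
    · intro B hB
      obtain ⟨i, hi, _⟩ := (hmem B).1 hB
      exact blkOf_card hi
    · intro B hB B' hB' hne
      by_contra hd
      obtain ⟨i, hi, hvi⟩ := (hmem B).1 hB
      obtain ⟨j, hj, hvj⟩ := (hmem B').1 hB'
      obtain ⟨l, hl, hvl⟩ := hcon [(i, false), (j, false)]
        (mem_countCNF.2 (Or.inr ⟨i, j, ⟨B, B', hi, hj, hne, hd⟩, rfl⟩))
      rcases List.mem_cons.1 hl with rfl | hl
      · simp [hvi] at hvl
      · rw [List.mem_singleton] at hl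
        subst hl
        simp [hvj] at hvl
  have hsupp : supp M = Finset.univ := by
    rw [Finset.eq_univ_iff_forall]
    intro a
    obtain ⟨l, hl, hvl⟩ := hcon (pointClause q N a) (mem_countCNF.2 (Or.inl ⟨a, rfl⟩))
    obtain ⟨i, B, h1, h2, rfl⟩ := mem_pointClause.1 hl
    exact mem_supp.2 ⟨B, (hmem B).2 ⟨i, h1, hvl⟩, h2⟩
  have := hPM.card_supp
  rw [hsupp, Finset.card_univ, Fintype.card_fin] at this
  rw [this, Nat.mul_mod_right] at hN
  omega

/-! ### Forcing and the clauses -/

section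

variable {V : Type} [Fintype V] {q s : ℕ} {blk : ℕ → Option (Finset V)}

theorem exists_cover {M : Finset (Finset V)} (hq : 1 ≤ q) (hM : IsPM q M)
    (hc : q * (M.card + 1) ≤ Fintype.card V) (a : V) :
    ∃ M', M ⊆ M' ∧ IsPM q M' ∧ M'.card ≤ M.card + 1 ∧ ∃ B ∈ M', a ∈ B := by
  by_cases ha : a ∈ supp M
  · obtain ⟨B, hB, haB⟩ := mem_supp.1 ha
    exact ⟨M, le_refl _, hM, Nat.le_succ _, B, hB, haB⟩
  · obtain ⟨B, h1, h2, h3⟩ := exists_block hq (by rw [hM.card_supp]; rw [mul_add] at hc; omega) ha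
    exact ⟨insert B M, Finset.subset_insert _ _, hM.insert h2 h3,
      Finset.card_insert_le _ _, B, Finset.mem_insert_self _ _, h1⟩

theorem fo_orL_true {L : List Fm} {M : Finset (Finset V)} :
    Fo q s blk (Fm.orL L) true M ↔ ∃ z ∈ L, Fo q s blk z true M := by
  have := exists_get_iff L (fun z => Fo q s blk z true M)
  simp only [Fm.orL, Fo]
  exact this

theorem fo_orL_false {L : List Fm} {M : Finset (Finset V)} (h : Fo q s blk (Fm.orL L) false M)
    {M' : Finset (Finset V)} (hM : M ⊆ M') (hPM : IsPM q M')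
    (hc : q * M'.card + q * s * ordep (Fm.orL L) ≤ Fintype.card V) :
    ∀ z ∈ L, ¬ Fo q s blk z true M' := by
  have h' := h M' hM hPM hc
  have := exists_get_iff L (fun z => Fo q s blk z true M')
  intro z hz hF
  obtain ⟨i, hi⟩ := this.2 ⟨z, hz, hF⟩
  exact h' i hi

theorem ordep_orL_le {L : List Fm} {m : ℕ} (h : ∀ z ∈ L, ordep z ≤ m) :
    ordep (Fm.orL L) ≤ m + 1 := by
  simp only [Fm.orL, ordep]
  apply Nat.succ_le_succ
  apply Finset.sup_le
  intro i _
  exact h _ (List.get_mem L i)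

theorem ordep_clauseFm (C : Clause) : ordep (clauseFm C) ≤ 1 := by
  unfold clauseFm
  apply ordep_orL_le
  intro z hz
  rw [List.mem_map] at hz
  obtain ⟨⟨j, c⟩, _, rfl⟩ := hz
  cases c <;> simp [litFm, ordep]

end

theorem not_fo_clause {q N s : ℕ} (hq : 1 ≤ q) {C : Clause} (hC : C ∈ countCNF q N)
    {M : Finset (Finset (Fin N))} (hM : IsPM q M) (hc : q * (M.card + 1) + q * s ≤ N) :
    ¬ Fo q s (blkOf q N) (clauseFm C) false M := by
  intro h
  have key : ∀ a : Fin N, ∃ M', M ⊆ M' ∧ IsPM q M' ∧ (∃ B ∈ M', a ∈ B) ∧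
      ∀ l ∈ C, ¬ Fo q s (blkOf q N) (litFm l) true M' := by
    intro a
    obtain ⟨M', h1, h2, h3, h4⟩ := exists_cover hq hM (by rw [Fintype.card_fin]; omega) a
    refine ⟨M', h1, h2, h4, ?_⟩
    intro l hl
    refine fo_orL_false h h1 h2 ?_ _ (List.mem_map.2 ⟨l, hl, rfl⟩)
    rw [Fintype.card_fin]
    have e1 : q * s * ordep (clauseFm C) ≤ q * s * 1 :=
      Nat.mul_le_mul_left _ (ordep_clauseFm C)
    have e2 : q * M'.card ≤ q * (M.card + 1) := Nat.mul_le_mul_left _ h3
    change q * M'.card + q * s * ordep (clauseFm C) ≤ N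
    omega
  rcases mem_countCNF.1 hC with ⟨a, rfl⟩ | ⟨i, j, ⟨B, B', h1, h2, hne, hd⟩, rfl⟩
  · obtain ⟨M', _, hPM, ⟨B, hB, haB⟩, hno⟩ := key a
    obtain ⟨i, hi⟩ := exists_blkOf (hPM.1 B hB)
    exact hno (i, true) (mem_pointClause.2 ⟨i, B, hi, haB, rfl⟩) ⟨B, hi, hB⟩
  · rw [Finset.not_disjoint_iff] at hd
    obtain ⟨a, ha, ha'⟩ := hd
    obtain ⟨M', _, hPM, ⟨B'', hB'', haB''⟩, hno⟩ := key a
    by_cases hB : B'' = B
    · refine hno (j, false) (by simp) ?_
      change ∀ B, blkOf q N j = some B → ∃ B' ∈ M', B' ≠ B ∧ ¬ Disjoint B' B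
      intro C hC
      rw [h2, Option.some_inj] at hC
      subst hC
      exact ⟨B'', hB'', fun e => hne (hB ▸ e),
        fun hd => Finset.disjoint_left.1 hd haB'' ha'⟩
    · refine hno (i, false) (by simp) ?_
      change ∀ B, blkOf q N i = some B → ∃ B' ∈ M', B' ≠ B ∧ ¬ Disjoint B' B
      intro C hC
      rw [h1, Option.some_inj] at hC
      subst hC
      exact ⟨B'', hB'', hB, fun hd => Finset.disjoint_left.1 hd haB'' ha⟩

/-! ### The closed set -/

def args : Fm → List Fm
  | .or _ f => List.ofFn f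
  | _ => []

theorem args_orL (L : List Fm) : args (Fm.orL L) = L := by
  simp only [Fm.orL, args, List.ofFn_get]

/-- The part of a disjunction without `MOD_p`. -/
noncomputable def mfMap : Fm → Fm
  | .or _ f => mfOr f
  | A => A

theorem mfMap_orL (L : List Fm) : mfMap (Fm.orL L) = mfOrL L := by
  simp only [Fm.orL, mfMap, mfOr, List.ofFn_get]

def IsOr (A : Fm) : Prop := ∃ (k : ℕ) (f : Fin k → Fm), A = .or k f

/-- Formulas without `MOD_p` to be handled by decision trees. -/
noncomputable def Gam (π : List Fm) : Finset Fm :=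
  ((finite_subs π).toFinset.filter (fun A => A.ModFree)) ∪
    ((finite_subs π).toFinset.filter IsOr).image mfMap

theorem mem_Gam {π : List Fm} {A : Fm} : A ∈ Gam π ↔
    (A ∈ subs π ∧ A.ModFree) ∨ ∃ (k : ℕ) (f : Fin k → Fm), .or k f ∈ subs π ∧ mfOr f = A := by
  unfold Gam
  rw [Finset.mem_union, Finset.mem_filter, Finset.mem_image, Set.Finite.mem_toFinset]
  constructor
  · rintro (h | ⟨B, hB, rfl⟩)
    · exact Or.inl h
    · rw [Finset.mem_filter, Set.Finite.mem_toFinset] at hB
      obtain ⟨hB, k, f, rfl⟩ := hB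
      exact Or.inr ⟨k, f, hB, rfl⟩
  · rintro (h | ⟨k, f, hB, rfl⟩)
    · exact Or.inl h
    · refine Or.inr ⟨.or k f, ?_, rfl⟩
      rw [Finset.mem_filter, Set.Finite.mem_toFinset]
      exact ⟨hB, k, f, rfl⟩

theorem closed_Gam (π : List Fm) : Closed (Gam π) := by
  refine ⟨?_, ?_, ?_⟩
  · intro A hA
    rcases mem_Gam.1 hA with h | ⟨k, f, _, rfl⟩
    · exact h.2
    · exact mfOrL_modFree _
  · intro A hA
    rcases mem_Gam.1 hA with ⟨h1, h2⟩ | ⟨k, f, _, h⟩
    · exact mem_Gam.2 (Or.inl ⟨subs_trans h1 (Fm.IsSub.neg Fm.IsSub.refl), h2⟩)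
    · simp [mfOr, mfOrL, Fm.orL] at h
  · intro k f hA i
    rcases mem_Gam.1 hA with ⟨h1, h2⟩ | ⟨k', g, hg, h⟩
    · exact mem_Gam.2 (Or.inl ⟨subs_trans h1 (Fm.IsSub.or i Fm.IsSub.refl), h2 i⟩)
    · have h3 := congrArg args h
      rw [mfOr, mfOrL, args_orL] at h3
      have h4 : f i ∈ List.ofFn f := List.mem_ofFn.2 ⟨i, rfl⟩
      change (List.ofFn g).filter (fun A => decide A.ModFree) = List.ofFn f at h3
      rw [← h3, List.mem_filter, List.mem_ofFn] at h4
      obtain ⟨⟨j, hj⟩, hm⟩ := h4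
      refine mem_Gam.2 (Or.inl ⟨?_, by simpa using hm⟩)
      rw [← hj]
      exact subs_trans hg (Fm.IsSub.or j Fm.IsSub.refl)

theorem card_Gam_or (π : List Fm) :
    ((Gam π).filter (fun A => ∃ (k : ℕ) (f : Fin k → Fm), A = .or k f)).card ≤ numOr π := by
  have h1 : (Gam π).filter (fun A => ∃ (k : ℕ) (f : Fin k → Fm), A = .or k f) ⊆
      ((finite_subs π).toFinset.filter IsOr).image mfMap := by
    intro A hA
    rw [Finset.mem_filter] at hA
    obtain ⟨hA, k, f, rfl⟩ := hA
    rw [Finset.mem_image]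
    rcases mem_Gam.1 hA with ⟨h1, h2⟩ | ⟨k', g, hg, h⟩
    · refine ⟨.or k f, ?_, ?_⟩
      · rw [Finset.mem_filter, Set.Finite.mem_toFinset]
        exact ⟨h1, k, f, rfl⟩
      · exact modFree_or h2
    · refine ⟨.or k' g, ?_, h⟩
      rw [Finset.mem_filter, Set.Finite.mem_toFinset]
      exact ⟨hg, k', g, rfl⟩
  refine (Finset.card_le_card h1).trans (Finset.card_image_le.trans ?_)
  unfold numOr
  have h2 : {B : Fm | (∃ (k : ℕ) (f : Fin k → Fm), B = Fm.or k f) ∧ ∃ A ∈ π, Fm.IsSub B A} =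
      (((finite_subs π).toFinset.filter IsOr : Finset Fm) : Set Fm) := by
    ext B
    rw [Set.mem_ofPred_eq, Finset.mem_coe, Finset.mem_filter, Set.Finite.mem_toFinset]
    exact and_comm
  rw [h2, Set.ncard_coe_finset]

theorem ordep_Gam {π : List Fm} {d : ℕ} (hd : ∀ A ∈ π, A.depth ≤ d) {A : Fm} (hA : A ∈ Gam π) :
    ordep A ≤ d := by
  rcases mem_Gam.1 hA with h | ⟨k, f, hf, rfl⟩
  · exact (ordep_le_depth A).trans (depth_subs hd h.1)
  · refine le_trans ?_ ((ordep_le_depth _).trans (depth_subs hd hf))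
    simp only [ordep]
    refine ordep_orL_le ?_
    intro z hz
    rw [List.mem_filter, List.mem_ofFn] at hz
    obtain ⟨⟨j, rfl⟩, _⟩ := hz
    exact Finset.le_sup (f := fun i => ordep (f i)) (Finset.mem_univ j)

end Pool.Agent.Helper21.Mix
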