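import Pool.Agent.Helper21.Mix.Levels
import Pool.Agent.Helper21.AC0p.Simul

/-!
Low-degree functions computed by decision trees.
-/

namespace Pool.Agent.Helper21.Mix

open scoped BigOperators Classical
open Pool.Agent.Helper21.AC0p

set_option linter.unusedSectionVars false

variable {V : Type} [Fintype V] {X K : Type} [Field K] {𝔉 : Filt X K}
  {M : X → Finset (Finset V)} {q e : ℕ}

theorem ind_mul (b c : X → Bool) : ind K b * ind K c = ind K (fun x => b x && c x) :=
  (ind_and b c).symm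

/-- The path indicator. -/
theorem path_mem (hB : ∀ B, ind K (fun x => decide (B ∈ M x)) ∈ 𝔉.LD e)
    (t : Finset (Finset V)) : ind K (fun x => decide (t ⊆ M x)) ∈ 𝔉.LD (e * t.card) := by
  have h : ind K (fun x => decide (t ⊆ M x)) = ∏ B ∈ t, ind K (fun x => decide (B ∈ M x)) := by
    funext x
    rw [Finset.prod_apply]
    by_cases hx : t ⊆ M x
    · rw [Finset.prod_eq_one]
      · simp [ind, hx]
      · intro B hB
        simp [ind, hx hB]
    · obtain ⟨B, hB, hBM⟩ := Finset.not_subset.1 hx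
      rw [Finset.prod_eq_zero hB]
      · simp [ind, hx]
      · simp [ind, hBM]
  rw [h, mul_comm]
  exact 𝔉.prod_mem _ _ _ (fun B _ => hB B)

/-- The sum over the blocks of a family through the point `a`. -/
theorem sum_blocks (hM : ∀ x, IsPM q (M x)) {𝓑 : Finset (Finset V)} {a : V}
    (h𝓑 : ∀ B ∈ 𝓑, a ∈ B) (g : Finset V → X → K) (x : X) :
    (∑ B ∈ 𝓑, ind K (fun x => decide (B ∈ M x)) * g B) x =
      if h : ∃ B ∈ 𝓑, B ∈ M x then g h.choose x else 0 := by
  rw [Finset.sum_apply]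
  split_ifs with h
  · have h1 := h.choose_spec
    rw [Finset.sum_eq_single h.choose]
    · simp [ind, h1.2]
    · intro B hB hne
      have : B ∉ M x := by
        intro hBM
        exact hne ((hM x).eq_of_mem hBM h1.2 (h𝓑 B hB) (h𝓑 _ h1.1))
      simp [ind, this]
    · intro hn; exact absurd h1.1 hn
  · apply Finset.sum_eq_zero
    intro B hB
    have : B ∉ M x := fun hBM => h ⟨B, hB, hBM⟩
    simp [ind, this]

theorem uncovered_mem (hM : ∀ x, IsPM q (M x))
    (hB : ∀ B, ind K (fun x => decide (B ∈ M x)) ∈ 𝔉.LD e) (a : V) :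
    ind K (fun x => decide (a ∉ supp (M x))) ∈ 𝔉.LD e := by
  have h : ind K (fun x => decide (a ∉ supp (M x))) =
      1 - ∑ B ∈ Finset.univ.filter (fun B : Finset V => a ∈ B),
        ind K (fun x => decide (B ∈ M x)) * (fun _ : Finset V => (1 : X → K)) B := by
    funext x
    rw [Pi.sub_apply, sum_blocks hM (a := a) (by simp)]
    by_cases hx : a ∈ supp (M x)
    · have hx' := hx
      rw [mem_supp] at hx'
      obtain ⟨B, hB, haB⟩ := hx'
      rw [dif_pos ⟨B, by simpa using haB, hB⟩]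
      simp [ind, hx]
    · rw [dif_neg]
      · simp [ind, hx]
      · rintro ⟨B, hB, hBM⟩
        exact hx (mem_supp.2 ⟨B, hBM, by simpa using hB⟩)
  rw [h]
  refine Submodule.sub_mem _ (𝔉.one_mem' _) (Submodule.sum_mem _ (fun B _ => ?_))
  rw [mul_one]
  exact hB B

theorem tree_fn_aux (hq : 1 ≤ q) {ρ : Finset (Finset V)} (hρ : IsPM q ρ)
    (hM : ∀ x, IsPM q (M x)) (hMρ : ∀ x, Disjoint (supp (M x)) (supp ρ))
    (hB : ∀ B, ind K (fun x => decide (B ∈ M x)) ∈ 𝔉.LD e)
    {w s0 : ℕ} (hw : e * (s0 + 1) ≤ w) {Ax : Set (X → K)}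
    (hAx : ∀ a, a ∉ supp ρ → ind K (fun x => decide (a ∉ supp (M x))) ∈ Ax)
    {Q : Bool → Finset (Finset V) → Prop} {s : ℕ} {R : Finset (Finset V)}
    (h : Dec q (fun M => Q true M ∨ Q false M) s R) : ρ ⊆ R → IsPM q R →
    (R \ ρ).card + s ≤ s0 →
    ∃ b st : X → Bool, ind K b ∈ 𝔉.LD (e * s) ∧ ind K st ∈ 𝔉.LD (e * (s + 1)) ∧
      Der 𝔉 Ax w (ind K (fun x => decide (R \ ρ ⊆ M x)) * ind K st) ∧
      ∀ x, R \ ρ ⊆ M x →
        (st x = false → ∃ t, R \ ρ ⊆ t ∧ t ⊆ M x ∧ t.card ≤ (R \ ρ).card + s ∧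
          Q (b x) (ρ ∪ t)) ∧
        (b x = true → ∃ t, R \ ρ ⊆ t ∧ t ⊆ M x ∧ t.card ≤ (R \ ρ).card + s ∧
          Q true (ρ ∪ t)) := by
  induction h with
  | @leaf s R h =>
    intro hρR hR _
    have e1 : ρ ∪ (R \ ρ) = R := Finset.union_sdiff_of_subset hρR
    have hst0 : ind K (fun _ : X => false) = 0 := by funext x; simp [ind]
    by_cases hQ : Q true R
    · refine ⟨fun _ => true, fun _ => false, 𝔉.const_mem _ _, 𝔉.const_mem _ _, ?_, ?_⟩
      · rw [hst0, mul_zero]; exact Der.zero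
      · intro x hx
        refine ⟨fun _ => ⟨R \ ρ, le_refl _, hx, by omega, by rw [e1]; exact hQ⟩,
          fun _ => ⟨R \ ρ, le_refl _, hx, by omega, by rw [e1]; exact hQ⟩⟩
    · have hQ' : Q false R := h.resolve_left hQ
      refine ⟨fun _ => false, fun _ => false, 𝔉.const_mem _ _, 𝔉.const_mem _ _, ?_, ?_⟩
      · rw [hst0, mul_zero]; exact Der.zero
      · intro x hx
        refine ⟨fun _ => ⟨R \ ρ, le_refl _, hx, by omega, by rw [e1]; exact hQ'⟩,
          fun h => absurd h (by simp)⟩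
  | @node s R a ha hd ih =>
    intro hρR hR hs0
    set 𝓑 : Finset (Finset V) :=
      Finset.univ.filter (fun B => a ∈ B ∧ B.card = q ∧ Disjoint B (supp R)) with h𝓑
    have hmem : ∀ {B}, B ∈ 𝓑 ↔ a ∈ B ∧ B.card = q ∧ Disjoint B (supp R) := by
      intro B; simp [h𝓑]
    have haρ : a ∉ supp ρ := fun h => ha (supp_mono hρR h)
    have hins : ∀ B ∈ 𝓑, (insert B R) \ ρ = insert B (R \ ρ) ∧ B ∉ R \ ρ := by
      intro B hB
      rw [hmem] at hB
      have hBR : B ∉ R := IsPM.not_mem_of_disjoint hq hB.2.1 hB.2.2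
      refine ⟨?_, fun h => hBR (Finset.mem_sdiff.1 h).1⟩
      rw [Finset.insert_sdiff_of_notMem]
      exact fun h => hBR (hρR h)
    have hIH : ∀ B ∈ 𝓑, ∃ b st : X → Bool, ind K b ∈ 𝔉.LD (e * s) ∧
        ind K st ∈ 𝔉.LD (e * (s + 1)) ∧
        Der 𝔉 Ax w (ind K (fun x => decide ((insert B R) \ ρ ⊆ M x)) * ind K st) ∧
        ∀ x, (insert B R) \ ρ ⊆ M x →
        (st x = false → ∃ t, (insert B R) \ ρ ⊆ t ∧ t ⊆ M x ∧
          t.card ≤ ((insert B R) \ ρ).card + s ∧ Q (b x) (ρ ∪ t)) ∧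
        (b x = true → ∃ t, (insert B R) \ ρ ⊆ t ∧ t ⊆ M x ∧
          t.card ≤ ((insert B R) \ ρ).card + s ∧ Q true (ρ ∪ t)) := by
      intro B hB
      have hB' := hmem.1 hB
      refine ih B hB'.1 hB'.2.1 hB'.2.2 (hρR.trans (Finset.subset_insert _ _))
        (hR.insert hB'.2.1 hB'.2.2) ?_
      rw [(hins B hB).1, Finset.card_insert_of_notMem (hins B hB).2]
      omega
    choose! bB stB hb1 hst1 hder hsem using hIH
    have hcase : ∀ x, R \ ρ ⊆ M x → ∀ B ∈ M x, a ∈ B → B ∈ 𝓑 := by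
      intro x hx B hBM haB
      rw [hmem]
      refine ⟨haB, (hM x).1 B hBM, ?_⟩
      have e1 : R = ρ ∪ (R \ ρ) := (Finset.union_sdiff_of_subset hρR).symm
      rw [e1, supp_union, Finset.disjoint_union_right]
      refine ⟨?_, ?_⟩
      · refine Disjoint.mono_left ?_ (hMρ x)
        intro c hc
        exact mem_supp.2 ⟨B, hBM, hc⟩
      · refine (hM x).disjoint_supp hx hBM ?_
        intro hBR
        exact ha (mem_supp.2 ⟨B, (Finset.mem_sdiff.1 hBR).1, haB⟩)
    refine ⟨fun x => if h : ∃ B ∈ 𝓑, B ∈ M x then bB h.choose x else false,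
      fun x => if h : ∃ B ∈ 𝓑, B ∈ M x then stB h.choose x else true, ?_, ?_, ?_, ?_⟩
    · have h1 : ind K (fun x => if h : ∃ B ∈ 𝓑, B ∈ M x then bB h.choose x else false) =
          ∑ B ∈ 𝓑, ind K (fun x => decide (B ∈ M x)) * (fun B => ind K (bB B)) B := by
        funext x
        rw [sum_blocks hM (a := a) (fun B hB => (hmem.1 hB).1)]
        by_cases hx : ∃ B ∈ 𝓑, B ∈ M x
        · simp only [ind, dif_pos hx]
        · simp only [ind, dif_neg hx]; simp
      rw [h1]
      refine Submodule.sum_mem _ (fun B hB' => ?_)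
      have := 𝔉.mul_mem (hB B) (hb1 B hB')
      refine 𝔉.mono ?_ this
      ring_nf; exact le_refl _
    · have h1 : ind K (fun x => if h : ∃ B ∈ 𝓑, B ∈ M x then stB h.choose x else true) =
          (1 - ∑ B ∈ 𝓑, ind K (fun x => decide (B ∈ M x)) * (fun _ => (1 : X → K)) B) +
          ∑ B ∈ 𝓑, ind K (fun x => decide (B ∈ M x)) * (fun B => ind K (stB B)) B := by
        funext x
        rw [Pi.add_apply, Pi.sub_apply, sum_blocks hM (a := a) (fun B hB => (hmem.1 hB).1),
          sum_blocks hM (a := a) (fun B hB => (hmem.1 hB).1)]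
        by_cases hx : ∃ B ∈ 𝓑, B ∈ M x
        · simp only [ind, dif_pos hx]; simp
        · simp only [ind, dif_neg hx]; simp
      rw [h1]
      refine Submodule.add_mem _ (Submodule.sub_mem _ (𝔉.one_mem' _)
        (Submodule.sum_mem _ (fun B _ => ?_))) (Submodule.sum_mem _ (fun B hB' => ?_))
      · rw [mul_one]
        refine 𝔉.mono ?_ (hB B)
        nlinarith
      · refine 𝔉.mono ?_ (𝔉.mul_mem (hB B) (hst1 B hB'))
        ring_nf; exact le_refl _
    · have hdeg : ind K (fun x => decide (R \ ρ ⊆ M x)) ∈ 𝔉.LD (e * (R \ ρ).card) :=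
        path_mem hB _
      have h1 : ind K (fun x => decide (R \ ρ ⊆ M x)) *
          ind K (fun x => if h : ∃ B ∈ 𝓑, B ∈ M x then stB h.choose x else true) =
          ind K (fun x => decide (a ∉ supp (M x))) * ind K (fun x => decide (R \ ρ ⊆ M x)) +
          ∑ B ∈ 𝓑, ind K (fun x => decide ((insert B R) \ ρ ⊆ M x)) * ind K (stB B) := by
        funext x
        rw [Pi.add_apply, Pi.mul_apply, Pi.mul_apply]
        have h2 : (∑ B ∈ 𝓑, ind K (fun x => decide ((insert B R) \ ρ ⊆ M x)) * ind K (stB B)) x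
            = ind K (fun x => decide (R \ ρ ⊆ M x)) x *
              (∑ B ∈ 𝓑, ind K (fun x => decide (B ∈ M x)) * (fun B => ind K (stB B)) B) x := by
          rw [Finset.sum_apply, Finset.sum_apply, Finset.mul_sum]
          refine Finset.sum_congr rfl (fun B hB' => ?_)
          simp only [Pi.mul_apply]
          rw [← mul_assoc]
          congr 1
          rw [(hins B hB').1]
          simp only [ind]
          by_cases h3 : R \ ρ ⊆ M x
          · by_cases h4 : B ∈ M x
            · have : insert B (R \ ρ) ⊆ M x := Finset.insert_subset h4 h3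
              simp [h3, h4, this]
            · have : ¬ insert B (R \ ρ) ⊆ M x := fun h => h4 (h (Finset.mem_insert_self _ _))
              simp [h4, this]
          · have : ¬ insert B (R \ ρ) ⊆ M x :=
              fun h => h3 ((Finset.subset_insert _ _).trans h)
            simp [h3, this]
        rw [h2, sum_blocks hM (a := a) (fun B hB => (hmem.1 hB).1)]
        by_cases hx : R \ ρ ⊆ M x
        · by_cases hx2 : ∃ B ∈ 𝓑, B ∈ M x
          · have hcov : a ∈ supp (M x) := by
              obtain ⟨B, hB1, hB2⟩ := hx2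
              exact mem_supp.2 ⟨B, hB2, (hmem.1 hB1).1⟩
            simp only [ind, dif_pos hx2]
            simp [hx, hcov]
          · have hcov : a ∉ supp (M x) := by
              intro h
              rw [mem_supp] at h
              obtain ⟨B, hB1, hB2⟩ := h
              exact hx2 ⟨B, hcase x hx B hB1 hB2, hB1⟩
            simp only [ind, dif_neg hx2]
            simp [hx, hcov]
        · simp [ind, hx]
      rw [h1]
      refine Der.add ?_ (Der.sum _ _ (fun B hB' => hder B hB'))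
      refine Der.mul (Der.ax (hAx a haρ) (𝔉.mono ?_ (uncovered_mem hM hB a)))
        (uncovered_mem hM hB a) hdeg ?_
      · nlinarith
      · have : e + e * (R \ ρ).card = e * ((R \ ρ).card + 1) := by ring
        rw [this]
        refine le_trans (Nat.mul_le_mul_left _ ?_) hw
        omega
    · intro x hx
      by_cases hx2 : ∃ B ∈ 𝓑, B ∈ M x
      · simp only [dif_pos hx2]
        have hs := hx2.choose_spec
        set B := hx2.choose with hBdef
        have hsub : (insert B R) \ ρ ⊆ M x := by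
          rw [(hins B hs.1).1]
          exact Finset.insert_subset hs.2 hx
        have hcard : ((insert B R) \ ρ).card = (R \ ρ).card + 1 := by
          rw [(hins B hs.1).1, Finset.card_insert_of_notMem (hins B hs.1).2]
        have hsub2 : R \ ρ ⊆ (insert B R) \ ρ := by
          rw [(hins B hs.1).1]; exact Finset.subset_insert _ _
        obtain ⟨h1, h2⟩ := hsem B hs.1 x hsub
        refine ⟨fun h => ?_, fun h => ?_⟩
        · obtain ⟨t, ht1, ht2, ht3, ht4⟩ := h1 h
          exact ⟨t, hsub2.trans ht1, ht2, by omega, ht4⟩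
        · obtain ⟨t, ht1, ht2, ht3, ht4⟩ := h2 h
          exact ⟨t, hsub2.trans ht1, ht2, by omega, ht4⟩
      · simp only [dif_neg hx2]
        exact ⟨fun h => absurd h (by simp), fun h => absurd h (by simp)⟩

/-- The functions computed by a decision tree. -/
theorem tree_fn (hq : 1 ≤ q) {ρ : Finset (Finset V)} (hρ : IsPM q ρ)
    (hM : ∀ x, IsPM q (M x)) (hMρ : ∀ x, Disjoint (supp (M x)) (supp ρ))
    (hB : ∀ B, ind K (fun x => decide (B ∈ M x)) ∈ 𝔉.LD e)
    {w s : ℕ} (hw : e * (s + 1) ≤ w) {Ax : Set (X → K)}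
    (hAx : ∀ a, a ∉ supp ρ → ind K (fun x => decide (a ∉ supp (M x))) ∈ Ax)
    {Q : Bool → Finset (Finset V) → Prop}
    (h : Dec q (fun M => Q true M ∨ Q false M) s ρ) :
    ∃ b st : X → Bool, ind K b ∈ 𝔉.LD (e * (s + 1)) ∧ ind K st ∈ 𝔉.LD (e * (s + 1)) ∧
      Der 𝔉 Ax w (ind K st) ∧
      ∀ x, (st x = false → ∃ t, t ⊆ M x ∧ t.card ≤ s ∧ Q (b x) (ρ ∪ t)) ∧
        (b x = true → ∃ t, t ⊆ M x ∧ t.card ≤ s ∧ Q true (ρ ∪ t)) := by
  obtain ⟨b, st, h1, h2, h3, h4⟩ := tree_fn_aux hq hρ hM hMρ hB hw hAx h (le_refl _) hρ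
    (by simp)
  refine ⟨b, st, 𝔉.mono (Nat.mul_le_mul_left _ (Nat.le_succ _)) h1, h2, ?_, ?_⟩
  · have e1 : ind K (fun x => decide (ρ \ ρ ⊆ M x)) = 1 := by
      funext x; simp [ind]
    rwa [e1, one_mul] at h3
  · intro x
    obtain ⟨h5, h6⟩ := h4 x (by simp)
    refine ⟨fun h => ?_, fun h => ?_⟩
    · obtain ⟨t, _, ht2, ht3, ht4⟩ := h5 h
      exact ⟨t, ht2, by simpa using ht3, ht4⟩
    · obtain ⟨t, _, ht2, ht3, ht4⟩ := h6 h
      exact ⟨t, ht2, by simpa using ht3, ht4⟩

end Pool.Agent.Helper21.Mix
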