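import Pool.Agent.Helper21.Mix.OvRule
import Pool.Agent.Helper21.Mix.CountCNF

/-!
The core of the lower bound for refutations with few disjuncts that are not over a small set
of formulas.
-/

namespace Pool.Agent.Helper21.Mix

open scoped BigOperators Classical
open Pool.Agent.Helper21.AC0p

set_option linter.unusedSectionVars false

/-- Formulas without `MOD_p` to be handled by decision trees. -/
noncomputable def GamO (π : List Fm) (G : Finset Fm) : Finset Fm :=
  ({Fm.orL [], Fm.neg (Fm.orL [])} ∪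
    G.powerset.biUnion
      (fun H => ((finite_subs π).toFinset.filter (fun A => A.Over G)).image (sb G H))) ∪
    G.powerset.biUnion
      (fun H => ((finite_subs π).toFinset.filter IsOr).image (fun A => ovPart G H (args A)))

theorem mem_GamO {π : List Fm} {G : Finset Fm} {A : Fm} : A ∈ GamO π G ↔
    A = Fm.orL [] ∨ A = Fm.neg (Fm.orL []) ∨
    (∃ H ⊆ G, ∃ B ∈ subs π, B.Over G ∧ sb G H B = A) ∨
    ∃ H ⊆ G, ∃ L, Fm.orL L ∈ subs π ∧ ovPart G H L = A := by
  unfold GamO
  rw [Finset.mem_union, Finset.mem_union, Finset.mem_biUnion, Finset.mem_biUnion]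
  constructor
  · rintro ((h | ⟨H, hH, h⟩) | ⟨H, hH, h⟩)
    · rw [Finset.mem_insert, Finset.mem_singleton] at h
      rcases h with h | h
      · exact Or.inl h
      · exact Or.inr (Or.inl h)
    · rw [Finset.mem_image] at h
      obtain ⟨B, hB, rfl⟩ := h
      rw [Finset.mem_filter, Set.Finite.mem_toFinset] at hB
      exact Or.inr (Or.inr (Or.inl ⟨H, Finset.mem_powerset.1 hH, B, hB.1, hB.2, rfl⟩))
    · rw [Finset.mem_image] at h
      obtain ⟨B, hB, rfl⟩ := h
      rw [Finset.mem_filter, Set.Finite.mem_toFinset] at hB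
      obtain ⟨hB, k, f, rfl⟩ := hB
      refine Or.inr (Or.inr (Or.inr ⟨H, Finset.mem_powerset.1 hH, List.ofFn f, ?_, rfl⟩))
      rw [orL_ofFn]; exact hB
  · rintro (h | h | ⟨H, hH, B, h1, h2, rfl⟩ | ⟨H, hH, L, h1, rfl⟩)
    · exact Or.inl (Or.inl (by rw [h]; simp))
    · exact Or.inl (Or.inl (by rw [h]; simp))
    · refine Or.inl (Or.inr ⟨H, Finset.mem_powerset.2 hH, ?_⟩)
      refine Finset.mem_image_of_mem _ ?_
      rw [Finset.mem_filter, Set.Finite.mem_toFinset]
      exact ⟨h1, h2⟩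
    · refine Or.inr ⟨H, Finset.mem_powerset.2 hH, ?_⟩
      rw [Finset.mem_image]
      refine ⟨Fm.orL L, ?_, by rw [args_orL]⟩
      rw [Finset.mem_filter, Set.Finite.mem_toFinset]
      exact ⟨h1, L.length, L.get, rfl⟩

theorem cst_modFree (c : Prop) : (cst c).ModFree := by
  unfold cst
  by_cases h : c
  · rw [if_pos h]; intro i; exact i.elim0
  · rw [if_neg h]; intro i; exact i.elim0

theorem sb_modFree {G H : Finset Fm} {A : Fm} (hA : A.Over G) : (sb G H A).ModFree := by
  induction A with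
  | var i => trivial
  | neg A ih =>
    simp only [sb]
    by_cases hg : Fm.neg A ∈ G
    · rw [if_pos hg]; exact cst_modFree _
    · rw [if_neg hg]; exact ih (hA.resolve_left hg)
  | or k f ih =>
    simp only [sb]
    by_cases hg : Fm.or k f ∈ G
    · rw [if_pos hg]; exact cst_modFree _
    · rw [if_neg hg]; intro i; exact ih i (hA.resolve_left hg i)
  | mod k f _ => exact cst_modFree _

theorem cst_eq_neg {c : Prop} {B : Fm} (h : cst c = Fm.neg B) : B = Fm.orL [] := by
  unfold cst at h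
  by_cases hc : c
  · rw [if_pos hc] at h
    exact (Fm.neg.inj h).symm
  · rw [if_neg hc] at h
    exact Fm.noConfusion h

theorem cst_eq_or {c : Prop} {k : ℕ} {f : Fin k → Fm} (h : cst c = Fm.or k f) :
    Fm.or k f = Fm.orL [] := by
  unfold cst at h
  by_cases hc : c
  · rw [if_pos hc] at h
    exact Fm.noConfusion h
  · rw [if_neg hc] at h
    exact h.symm

theorem or_eq_nil {k : ℕ} {f : Fin k → Fm} (h : Fm.or k f = Fm.orL []) (i : Fin k) : False := by
  have h1 := congrArg args h
  rw [args_orL] at h1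
  have h2 : f i ∈ List.ofFn f := List.mem_ofFn.2 ⟨i, rfl⟩
  change List.ofFn f = [] at h1
  rw [h1] at h2
  simp at h2

theorem closed_GamO (π : List Fm) (G : Finset Fm) : Closed (GamO π G) := by
  refine ⟨?_, ?_, ?_⟩
  · intro A hA
    rcases mem_GamO.1 hA with rfl | rfl | ⟨H, _, B, _, h2, rfl⟩ | ⟨H, _, L, _, rfl⟩
    · intro i; exact i.elim0
    · intro i; exact i.elim0
    · exact sb_modFree h2
    · intro i
      have hi := List.get_mem ((L.filter (fun A => decide (A.Over G))).map (sb G H)) i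
      rw [List.mem_map] at hi
      obtain ⟨z, hz, hz2⟩ := hi
      rw [← hz2]
      rw [List.mem_filter] at hz
      exact sb_modFree (by simpa using hz.2)
  · intro B hB
    rcases mem_GamO.1 hB with h | h | ⟨H, hH, A, h1, h2, h3⟩ | ⟨H, _, L, _, h⟩
    · exact Fm.noConfusion h
    · exact mem_GamO.2 (Or.inl (Fm.neg.inj h))
    · cases A with
      | var i => exact Fm.noConfusion h3
      | neg A =>
        simp only [sb] at h3
        by_cases hg : Fm.neg A ∈ G
        · rw [if_pos hg] at h3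
          exact mem_GamO.2 (Or.inl (cst_eq_neg h3))
        · rw [if_neg hg] at h3
          refine mem_GamO.2 (Or.inr (Or.inr (Or.inl ⟨H, hH, A,
            subs_trans h1 (Fm.IsSub.neg Fm.IsSub.refl), h2.resolve_left hg, Fm.neg.inj h3⟩)))
      | or k f =>
        simp only [sb] at h3
        by_cases hg : Fm.or k f ∈ G
        · rw [if_pos hg] at h3
          exact mem_GamO.2 (Or.inl (cst_eq_neg h3))
        · rw [if_neg hg] at h3
          exact Fm.noConfusion h3
      | mod k f => exact mem_GamO.2 (Or.inl (cst_eq_neg h3))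
    · exact Fm.noConfusion h
  · intro k f hf i
    rcases mem_GamO.1 hf with h | h | ⟨H, hH, A, h1, h2, h3⟩ | ⟨H, hH, L, hL, h⟩
    · exact (or_eq_nil h i).elim
    · exact Fm.noConfusion h
    · cases A with
      | var i => exact Fm.noConfusion h3
      | neg A =>
        simp only [sb] at h3
        by_cases hg : Fm.neg A ∈ G
        · rw [if_pos hg] at h3
          exact (or_eq_nil (cst_eq_or h3) i).elim
        · rw [if_neg hg] at h3
          exact Fm.noConfusion h3
      | or k' f' =>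
        simp only [sb] at h3
        by_cases hg : Fm.or k' f' ∈ G
        · rw [if_pos hg] at h3
          exact (or_eq_nil (cst_eq_or h3) i).elim
        · rw [if_neg hg] at h3
          have h4 := congrArg args h3
          change List.ofFn (fun i => sb G H (f' i)) = List.ofFn f at h4
          have h5 : f i ∈ List.ofFn f := List.mem_ofFn.2 ⟨i, rfl⟩
          rw [← h4, List.mem_ofFn] at h5
          obtain ⟨j, hj⟩ := h5
          exact mem_GamO.2 (Or.inr (Or.inr (Or.inl ⟨H, hH, f' j,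
            subs_trans h1 (Fm.IsSub.or j Fm.IsSub.refl), h2.resolve_left hg j, hj⟩)))
      | mod k' f' => exact (or_eq_nil (cst_eq_or h3) i).elim
    · have h4 := congrArg args h
      rw [ovPart, args_orL] at h4
      have h5 : f i ∈ List.ofFn f := List.mem_ofFn.2 ⟨i, rfl⟩
      change _ = List.ofFn f at h4
      rw [← h4, List.mem_map] at h5
      obtain ⟨z, hz, hz2⟩ := h5
      rw [List.mem_filter] at hz
      exact mem_GamO.2 (Or.inr (Or.inr (Or.inl ⟨H, hH, z, subs_trans hL (isSub_orL hz.1),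
        by simpa using hz.2, hz2⟩)))

theorem card_GamO_or {π : List Fm} {G : Finset Fm} (hnil : Fm.orL [] ∈ subs π) :
    ((GamO π G).filter (fun A => ∃ (k : ℕ) (f : Fin k → Fm), A = .or k f)).card ≤
      2 ^ G.card * numOr π := by
  have key : ∀ H ⊆ G, ∀ L, Fm.orL L ∈ subs π → ovPart G H L ∈ G.powerset.biUnion
      (fun H => ((finite_subs π).toFinset.filter IsOr).image (fun A => ovPart G H (args A))) := by
    intro H hH L hL
    rw [Finset.mem_biUnion]
    refine ⟨H, Finset.mem_powerset.2 hH, ?_⟩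
    rw [Finset.mem_image]
    refine ⟨Fm.orL L, ?_, by rw [args_orL]⟩
    rw [Finset.mem_filter, Set.Finite.mem_toFinset]
    exact ⟨hL, L.length, L.get, rfl⟩
  have key0 : Fm.orL [] ∈ G.powerset.biUnion
      (fun H => ((finite_subs π).toFinset.filter IsOr).image (fun A => ovPart G H (args A))) :=
    key ∅ (by simp) [] hnil
  have h1 : (GamO π G).filter (fun A => ∃ (k : ℕ) (f : Fin k → Fm), A = .or k f) ⊆
      G.powerset.biUnion
      (fun H => ((finite_subs π).toFinset.filter IsOr).image (fun A => ovPart G H (args A))) := by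
    intro B hB
    rw [Finset.mem_filter] at hB
    obtain ⟨hB, k, f, rfl⟩ := hB
    rcases mem_GamO.1 hB with h | h | ⟨H, hH, A, h1, h2, h3⟩ | ⟨H, hH, L, hL, h⟩
    · rw [h]; exact key0
    · exact Fm.noConfusion h
    · cases A with
      | var i => exact Fm.noConfusion h3
      | neg A =>
        simp only [sb] at h3
        by_cases hg : Fm.neg A ∈ G
        · rw [if_pos hg] at h3
          rw [cst_eq_or h3]; exact key0
        · rw [if_neg hg] at h3
          exact Fm.noConfusion h3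
      | or k' f' =>
        by_cases hg : Fm.or k' f' ∈ G
        · simp only [sb] at h3
          rw [if_pos hg] at h3
          rw [cst_eq_or h3]; exact key0
        · rw [← h3]
          rw [← orL_ofFn] at hg h1 h2 ⊢
          rw [← ovPart_eq hg h2]
          exact key H hH _ h1
      | mod k' f' => rw [cst_eq_or h3]; exact key0
    · rw [← h]; exact key H hH L hL
  refine (Finset.card_le_card h1).trans (Finset.card_biUnion_le.trans ?_)
  have h2 : ((finite_subs π).toFinset.filter IsOr).card = numOr π := by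
    unfold numOr
    have h2 : {B : Fm | (∃ (k : ℕ) (f : Fin k → Fm), B = Fm.or k f) ∧ ∃ A ∈ π, Fm.IsSub B A} =
        (((finite_subs π).toFinset.filter IsOr : Finset Fm) : Set Fm) := by
      ext B
      rw [Set.mem_ofPred_eq, Finset.mem_coe, Finset.mem_filter, Set.Finite.mem_toFinset]
      exact and_comm
    rw [h2, Set.ncard_coe_finset]
  calc ∑ H ∈ G.powerset, (((finite_subs π).toFinset.filter IsOr).image
        (fun A => ovPart G H (args A))).card
      ≤ ∑ _H ∈ G.powerset, numOr π := by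
        refine Finset.sum_le_sum (fun H _ => ?_)
        rw [← h2]
        exact Finset.card_image_le
    _ = 2 ^ G.card * numOr π := by
        rw [Finset.sum_const, Finset.card_powerset, smul_eq_mul]

theorem ordep_cst (c : Prop) : ordep (cst c) ≤ 1 := by
  unfold cst
  by_cases h : c
  · rw [if_pos h]; exact ordep_orL_le (by simp)
  · rw [if_neg h]; exact ordep_orL_le (by simp)

theorem ordep_sb {G H : Finset Fm} (A : Fm) : ordep (sb G H A) ≤ ordep A + 1 := by
  induction A with
  | var i => simp [sb, ordep]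
  | neg A ih =>
    simp only [sb]
    by_cases hg : Fm.neg A ∈ G
    · rw [if_pos hg]; exact (ordep_cst _).trans (by omega)
    · rw [if_neg hg]; exact ih
  | or k f ih =>
    simp only [sb]
    by_cases hg : Fm.or k f ∈ G
    · rw [if_pos hg]; exact (ordep_cst _).trans (by omega)
    · rw [if_neg hg]
      simp only [ordep]
      refine Nat.succ_le_succ (Finset.sup_le (fun i _ => ?_))
      refine (ih i).trans (Nat.succ_le_succ ?_)
      exact Finset.le_sup (f := fun i => ordep (f i)) (Finset.mem_univ i)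
  | mod k f _ => exact (ordep_cst _).trans (by omega)

theorem ordep_GamO {π : List Fm} {G : Finset Fm} {d : ℕ} (hd : ∀ A ∈ π, A.depth ≤ d) {A : Fm}
    (hA : A ∈ GamO π G) : ordep A ≤ d + 1 := by
  rcases mem_GamO.1 hA with rfl | rfl | ⟨H, _, B, h1, _, rfl⟩ | ⟨H, _, L, hL, rfl⟩
  · exact (ordep_orL_le (by simp) : ordep (Fm.orL []) ≤ 0 + 1).trans (by omega)
  · exact (ordep_orL_le (by simp) : ordep (Fm.orL []) ≤ 0 + 1).trans (by omega)
  · exact (ordep_sb B).trans (Nat.succ_le_succ ((ordep_le_depth B).trans (depth_subs hd h1)))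
  · have h1 := (ordep_le_depth _).trans (depth_subs hd hL)
    have h2 : ordep (Fm.orL L) = (Finset.univ.sup fun i => ordep (L.get i)) + 1 := rfl
    refine (ordep_orL_le (m := (Finset.univ.sup fun i => ordep (L.get i)) + 1) ?_).trans
      (by omega)
    intro z hz
    rw [List.mem_map] at hz
    obtain ⟨z, hz, rfl⟩ := hz
    rw [List.mem_filter] at hz
    obtain ⟨i, hi⟩ := List.get_of_mem hz.1
    refine (ordep_sb z).trans (Nat.succ_le_succ ?_)
    rw [← hi]
    exact Finset.le_sup (f := fun i => ordep (L.get i)) (Finset.mem_univ i)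

theorem ovPart_clause {G : Finset Fm} (hgl : ∀ i, Fm.neg (.var i) ∉ G) (H : Finset Fm)
    (C : Clause) : ovPart G H (C.map litFm) = clauseFm C := by
  unfold ovPart clauseFm
  rw [List.filter_eq_self.2, List.map_map]
  · congr 1
    apply List.map_congr_left
    rintro ⟨j, c⟩ _
    cases c
    · change sb G H (Fm.neg (.var j)) = _
      rw [sb_neg (hgl j)]
      rfl
    · rfl
  · intro z hz
    rw [List.mem_map] at hz
    obtain ⟨⟨j, c⟩, _, rfl⟩ := hz
    rw [decide_eq_true_eq]
    cases c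
    · exact Or.inr trivial
    · exact trivial

theorem ov_core {p : ℕ} [hp : Fact p.Prime] {q c : ℕ} (hq : 1 ≤ q)
    (hard : ∀ m w : ℕ, m % q = 1 → c ≤ w → c * w ≤ m →
      ∀ (V : Type) (_ : Fintype V) (U : Finset V), U.card = m →
      ∃ (X K : Type) (_ : Field K) (_ : CharP K p) (𝔉 : Filt X K)
        (M : X → Finset (Finset V)),
        (∀ x, IsPM q (M x) ∧ supp (M x) ⊆ U) ∧
        (∀ B, ind K (fun x => decide (B ∈ M x)) ∈ 𝔉.LD 5) ∧
        ¬ Der 𝔉 {g | ∃ a ∈ U, g = ind K (fun x => decide (a ∉ supp (M x)))} w 1)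
    {V : Type} [Fintype V] {blk : ℕ → Option (Finset V)}
    (hblk : ∀ i B, blk i = some B → B.card = q)
    {N s j0 w t d κ Dm : ℕ} (hcard : Fintype.card V = N)
    {Fs : List Clause} (hFs : ∀ C ∈ Fs, ∀ M : Finset (Finset V), IsPM q M →
      q * (M.card + 1) + q * s ≤ N → ¬ Fo q s blk (clauseFm C) false M)
    (hN : N % q = 1) (hs : 1 ≤ s) (k a : ℕ → ℕ) (hk0 : k 0 = 0)
    (hkmono : ∀ i < d + 1, k i ≤ k (i + 1))
    (hkV : ∀ i ≤ d + 1, q * (k i + s + 1) ≤ N)
    (ha : ∀ i < d + 1, N - q * k (i + 1) ≤ a (i + 1)) (ha1 : ∀ i, 1 ≤ a i)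
    (hbig : ∀ i < d + 1, 4 * (a (i + 1) ^ q * (2 * (s * (a (i + 1) ^ q + 1) ^ q))) ≤
      k (i + 1) + 1 - k i)
    (hj0 : q * j0 ≤ s)
    (hroom : q * (k (d + 1) + 2 * s + 1) + q * s * (d + 2) ≤ N)
    (hcw : c ≤ w) (hcm : c * w ≤ N - q * k (d + 1)) (hw5 : 5 * (s + 1) ≤ w)
    {G : Finset Fm} (hκp : p ≤ κ) (hκt : t + G.card + 1 ≤ κ)
    (hDm : G.card * (κ ^ d * (5 * (s + 1))) + κ ^ d * (5 * (s + 1)) ≤ Dm)
    {R : List Rule} (hR : ∀ r ∈ R, r.Sound p)
    (hw : ∀ r ∈ R, ruleCost r * Dm ≤ w) (hw2 : 2 * Dm ≤ w)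
    {π : List Fm} (hπ : Refutation R Fs π) (hd : ∀ A ∈ π, A.depth ≤ d)
    (hgs : ∀ g ∈ G, g ∈ subs π) (hgv : ∀ i, Fm.var i ∉ G) (hgl : ∀ i, Fm.neg (.var i) ∉ G)
    (hfew : ∀ (k : ℕ) (f : Fin k → Fm), Fm.or k f ∈ subs π →
      ((Finset.univ.image f).filter (fun z => ¬ z.Over G)).card ≤ t)
    (hnum : 2 ^ G.card * numOr π < 2 ^ j0) : False := by
  have hnil : Fm.orL [] ∈ subs π := ⟨_, hπ.2, Fm.IsSub.refl⟩
  obtain ⟨ρ, hρ, hρk, hdec⟩ := levels (blk := blk) hq hs hblk
    (closed_GamO π G) (d := d + 1) (j0 := j0) k a hk0 hkmono (by rw [hcard]; exact hkV)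
    (by rw [hcard]; exact ha) ha1 hbig hj0 ((card_GamO_or hnil).trans_lt hnum) (d + 1) le_rfl
  set U : Finset V := Finset.univ \ supp ρ with hU
  have hUcard : U.card = N - q * k (d + 1) := by
    rw [hU, Finset.card_sdiff_of_subset (Finset.subset_univ _), Finset.card_univ, hcard,
      hρ.card_supp, hρk]
  have hkd : q * k (d + 1) ≤ N := by
    have := hkV (d + 1) le_rfl
    calc q * k (d + 1) ≤ q * (k (d + 1) + s + 1) := Nat.mul_le_mul_left _ (by omega)
      _ ≤ N := this
  have hmod : (N - q * k (d + 1)) % q = 1 := by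
    rw [Nat.sub_mul_mod hkd]; exact hN
  obtain ⟨X, K, _, _, 𝔉, M, hM, hMB, hnot⟩ := hard _ w hmod hcw hcm V inferInstance U hUcard
  apply hnot
  set Ax : Set (X → K) := {g | ∃ a ∈ U, g = ind K (fun x => decide (a ∉ supp (M x)))} with hAx
  have hdisj : ∀ x, Disjoint (supp (M x)) (supp ρ) := by
    intro x
    refine Finset.disjoint_left.2 (fun a h1 h2 => ?_)
    have := (hM x).2 h1
    rw [hU, Finset.mem_sdiff] at this
    exact this.2 h2
  have hPMu : ∀ x, IsPM q (ρ ∪ M x) := fun x => hρ.union (hM x).1 (hdisj x).symm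
  -- decision tree functions
  have htree : ∀ A ∈ GamO π G, ∃ b st : X → Bool, ind K b ∈ 𝔉.LD (5 * (s + 1)) ∧
      ind K st ∈ 𝔉.LD (5 * (s + 1)) ∧ Der 𝔉 Ax w (ind K st) ∧
      ∀ x, (st x = false → ∃ t, t ⊆ M x ∧ t.card ≤ s ∧ Fo q s blk A (b x) (ρ ∪ t)) ∧
        (b x = true → ∃ t, t ⊆ M x ∧ t.card ≤ s ∧ Fo q s blk A true (ρ ∪ t)) := by
    intro A hA
    refine tree_fn (Q := fun b M => Fo q s blk A b M) hq hρ (fun x => (hM x).1) hdisj hMB
      hw5 ?_ (hdec A hA (ordep_GamO hd hA))
    intro a ha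
    exact ⟨a, by rw [hU, Finset.mem_sdiff]; exact ⟨Finset.mem_univ _, ha⟩, rfl⟩
  choose! b st hb hst hder hsem using htree
  have hroom' : ∀ (x : X) (t t' : Finset (Finset V)), t.card ≤ s → t'.card ≤ s →
      q * (ρ ∪ (t ∪ t')).card ≤ q * (k (d + 1) + 2 * s) := by
    intro x t t' h1 h2
    refine Nat.mul_le_mul_left _ ((Finset.card_union_le _ _).trans ?_)
    have := Finset.card_union_le t t'
    omega
  have e1 : q * (k (d + 1) + 2 * s + 1) = q * (k (d + 1) + 2 * s) + q := by ring
  have H : OvHyp 𝔉 Ax w (5 * (s + 1)) t G (subs π) (GamO π G : Set Fm) b st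
      (fun A x => ∃ t, t ⊆ M x ∧ t.card ≤ s ∧ Fo q s blk A true (ρ ∪ t))
      (fun A x => ∃ t, t ⊆ M x ∧ t.card ≤ s ∧ Fo q s blk A false (ρ ∪ t)) := by
    refine ⟨?_, hgs, hgv, ?_, ?_, ?_, hfew, ?_, ?_, ?_, ?_, ?_, ?_, ?_, ?_, ?_, ?_⟩
    · intro A hA B hB; exact subs_trans hA hB
    · intro A hA hO H' hH'
      exact mem_GamO.2 (Or.inr (Or.inr (Or.inl ⟨H', hH', A, hA, hO, rfl⟩)))
    · intro L hL H' hH'
      exact mem_GamO.2 (Or.inr (Or.inr (Or.inr ⟨H', hH', L, hL, rfl⟩)))
    · exact mem_GamO.2 (Or.inl rfl)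
    · intro A hA; exact hb A hA
    · intro A hA; exact hst A hA
    · intro A hA; exact hder A hA
    · intro A hA x hx; exact ((hsem A hA x).2 hx)
    · intro A hA x h1 h2
      obtain ⟨t, ht1, ht2, ht3⟩ := (hsem A hA x).1 h1
      rw [h2] at ht3
      exact ⟨t, ht1, ht2, ht3⟩
    · rintro A hA x ⟨t, ht1, ht2, ht3⟩ ⟨t', ht1', ht2', ht3'⟩
      have hA' : A ∈ GamO π G := hA
      have h5 : ρ ∪ (t ∪ t') ⊆ ρ ∪ M x :=
        Finset.union_subset_union_right (Finset.union_subset ht1 ht1')
      refine Fo_cons A ((hPMu x).mono h5) ?_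
        (Fo_mono A _ (Finset.union_subset_union_right Finset.subset_union_left) ht3)
        (Fo_mono A _ (Finset.union_subset_union_right Finset.subset_union_right) ht3')
      have h6 := hroom' x t t' ht2 ht2'
      have h7 := ordep_GamO hd hA'
      have h8 : q * s * ordep A ≤ q * s * (d + 2) := Nat.mul_le_mul_left _ (by omega)
      rw [hcard]
      omega
    · intro A x; exact Iff.rfl
    · intro A x; exact Iff.rfl
    · intro L x
      constructor
      · rintro ⟨t, ht1, ht2, ht3⟩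
        rw [fo_orL_true] at ht3
        obtain ⟨z, hz, hz2⟩ := ht3
        exact ⟨z, hz, t, ht1, ht2, hz2⟩
      · rintro ⟨z, hz, t, ht1, ht2, hz2⟩
        exact ⟨t, ht1, ht2, fo_orL_true.2 ⟨z, hz, hz2⟩⟩
    · intro x
      refine ⟨∅, by simp, by simp, ?_⟩
      intro M' _ _ _ i
      exact i.elim0
  refine H.no_refutation hκp hκt (fun A hA => depth_subs hd hA) hDm hR (Fs := Fs) ?_ hw hw2
    hπ (fun A hA => ⟨A, hA, Fm.IsSub.refl⟩)
  rintro C hC H' _ x ⟨t, ht1, ht2, ht3⟩
  rw [ovPart_clause hgl] at ht3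
  refine hFs C hC _ ((hPMu x).mono (Finset.union_subset_union_right ht1)) ?_ ht3
  have h6 := hroom' x t ∅ ht2 (by simp)
  rw [Finset.union_empty] at h6
  have h8 : q * s * 1 ≤ q * s * (d + 2) := Nat.mul_le_mul_left _ (by omega)
  have e2 : q * ((ρ ∪ t).card + 1) = q * (ρ ∪ t).card + q := by ring
  omega

end Pool.Agent.Helper21.Mix
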