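import Pool.Agent.Helper21.Mix.Switch

/-!
Counting restrictions; existence of a restriction that makes all canonical trees shallow.
-/

namespace Pool.Agent.Helper21.Mix

open scoped BigOperators Classical

set_option linter.unusedSectionVars false

variable {V : Type} [Fintype V] {q : ℕ}

/-- Restrictions with `k` blocks extending `ρ`. -/
noncomputable def Om (q : ℕ) (ρ : Finset (Finset V)) (k : ℕ) : Finset (Finset (Finset V)) :=
  Finset.univ.filter (fun M => IsPM q M ∧ ρ ⊆ M ∧ M.card = k)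

theorem mem_Om {ρ M : Finset (Finset V)} {k : ℕ} :
    M ∈ Om q ρ k ↔ IsPM q M ∧ ρ ⊆ M ∧ M.card = k := by simp [Om]

theorem Om_step (ρ : Finset (Finset V)) (k : ℕ) :
    (Om q ρ (k + 1)).card * (k + 1 - ρ.card) ≤
      (Om q ρ k).card * (Fintype.card V - q * k) ^ q := by
  have h1 : ((Om q ρ (k + 1)).sigma (fun M => M \ ρ)).card =
      (Om q ρ (k + 1)).card * (k + 1 - ρ.card) := by
    rw [Finset.card_sigma, Finset.sum_congr rfl (g := fun _ => k + 1 - ρ.card), Finset.sum_const,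
      smul_eq_mul]
    intro M hM
    rw [mem_Om] at hM
    rw [Finset.card_sdiff_of_subset hM.2.1, hM.2.2]
  have h2 : ((Om q ρ k).sigma (fun M => (Finset.univ \ supp M).powersetCard q)).card ≤
      (Om q ρ k).card * (Fintype.card V - q * k) ^ q := by
    rw [Finset.card_sigma]
    refine (Finset.sum_le_card_nsmul _ _ ((Fintype.card V - q * k) ^ q) ?_).trans (le_refl _)
    intro M hM
    rw [mem_Om] at hM
    rw [Finset.card_powersetCard, Finset.card_sdiff_of_subset (Finset.subset_univ _),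
      Finset.card_univ, hM.1.card_supp, hM.2.2]
    exact Nat.choose_le_pow _ _
  rw [← h1]
  refine le_trans ?_ h2
  refine Finset.card_le_card_of_injOn (fun x => ⟨x.1.erase x.2, x.2⟩) ?_ ?_
  · rintro ⟨M, B⟩ h
    simp only [Finset.mem_coe, Finset.mem_sigma, mem_Om, Finset.mem_sdiff] at h
    obtain ⟨⟨hM, hρ, hc⟩, hB, hBρ⟩ := h
    simp only [Finset.mem_coe, Finset.mem_sigma, mem_Om, Finset.mem_powersetCard]
    refine ⟨⟨hM.mono (Finset.erase_subset _ _), ?_, ?_⟩, ?_, hM.1 B hB⟩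
    · intro C hC
      rw [Finset.mem_erase]
      exact ⟨fun h => hBρ (h ▸ hC), hρ hC⟩
    · rw [Finset.card_erase_of_mem hB]; omega
    · intro a ha
      simp only [Finset.mem_sdiff, Finset.mem_univ, true_and]
      intro ha'
      exact Finset.disjoint_left.1 (hM.disjoint_supp (Finset.erase_subset B M) hB (by simp))
        ha ha'
  · rintro ⟨M, B⟩ h ⟨M', B'⟩ h' he
    simp only [Finset.mem_coe, Finset.mem_sigma, mem_Om, Finset.mem_sdiff] at h h'
    have e2 : B = B' := by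
      have := congrArg (fun x : (_ : Finset (Finset V)) × Finset V => x.2) he
      simpa using this
    subst e2
    have e1 : M.erase B = M'.erase B := by
      have := congrArg (fun x : (_ : Finset (Finset V)) × Finset V => x.1) he
      simpa using this
    have : M = M' := by
      rw [← Finset.insert_erase h.2.1, e1, Finset.insert_erase h'.2.1]
    subst this
    rfl

theorem Om_iter (ρ : Finset (Finset V)) {k K a : ℕ} (hK : K ≤ k + 1 - ρ.card)
    (ha : Fintype.card V - q * k ≤ a) (j : ℕ) :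
    (Om q ρ (k + j)).card * K ^ j ≤ (Om q ρ k).card * (a ^ q) ^ j := by
  induction j with
  | zero => simp
  | succ j ih =>
    have h1 := Om_step (q := q) ρ (k + j)
    have h2 : K ≤ k + j + 1 - ρ.card := by omega
    have h3 : (Fintype.card V - q * (k + j)) ^ q ≤ a ^ q := by
      apply Nat.pow_le_pow_left
      have : q * k ≤ q * (k + j) := Nat.mul_le_mul_left _ (by omega)
      omega
    calc (Om q ρ (k + (j + 1))).card * K ^ (j + 1)
        = ((Om q ρ (k + j + 1)).card * K) * K ^ j := by rw [← add_assoc, pow_succ]; ring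
      _ ≤ ((Om q ρ (k + j + 1)).card * (k + j + 1 - ρ.card)) * K ^ j := by gcongr
      _ ≤ ((Om q ρ (k + j)).card * (Fintype.card V - q * (k + j)) ^ q) * K ^ j := by gcongr
      _ ≤ ((Om q ρ (k + j)).card * a ^ q) * K ^ j := by gcongr
      _ = ((Om q ρ (k + j)).card * K ^ j) * a ^ q := by ring
      _ ≤ ((Om q ρ k).card * (a ^ q) ^ j) * a ^ q := by gcongr
      _ = (Om q ρ k).card * (a ^ q) ^ (j + 1) := by rw [pow_succ]; ring

theorem Om_nonempty (hq : 1 ≤ q) {ρ : Finset (Finset V)} (hρ : IsPM q ρ) (j : ℕ)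
    (hj : q * (ρ.card + j) ≤ Fintype.card V) : (Om q ρ (ρ.card + j)).Nonempty := by
  induction j with
  | zero => exact ⟨ρ, by rw [mem_Om]; exact ⟨hρ, le_refl _, rfl⟩⟩
  | succ j ih =>
    have e : q * (ρ.card + (j + 1)) = q * (ρ.card + j) + q := by ring
    obtain ⟨M, hM⟩ := ih (by omega)
    rw [mem_Om] at hM
    have hs : (supp M).card + q ≤ Fintype.card V := by
      rw [hM.1.card_supp, hM.2.2]; omega
    have hne : (Finset.univ \ supp M).Nonempty := by
      rw [← Finset.card_pos, Finset.card_sdiff_of_subset (Finset.subset_univ _),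
        Finset.card_univ]
      omega
    obtain ⟨a, ha⟩ := hne
    simp only [Finset.mem_sdiff, Finset.mem_univ, true_and] at ha
    obtain ⟨B, _, hB, hd⟩ := exists_block hq hs ha
    refine ⟨insert B M, ?_⟩
    rw [mem_Om]
    refine ⟨hM.1.insert hB hd, hM.2.1.trans (Finset.subset_insert _ _), ?_⟩
    rw [Finset.card_insert_of_notMem (IsPM.not_mem_of_disjoint hq hB hd), hM.2.2]
    ring

/-- The switching lemma: few restrictions have a long path. -/
theorem card_long_le (hq : 1 ≤ q) {F : List (Finset (Finset V))} {r : ℕ}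
    (hF : ∀ t ∈ F, t.card ≤ r ∧ ∀ B ∈ t, B.card = q) (ρ : Finset (Finset V)) {k K a : ℕ}
    (hK : K ≤ k + 1 - ρ.card) (ha : Fintype.card V - q * k ≤ a) (ha1 : 1 ≤ a)
    (hbig : 4 * (a ^ q * (2 * (r * (a ^ q + 1) ^ q))) ≤ K) (hr : 1 ≤ r) {s j0 : ℕ}
    (hj0 : q * j0 ≤ s) :
    (((Om q ρ k).filter (fun M => Long q F s M)).card : ℝ) ≤ (Om q ρ k).card * (1 / 2) ^ j0 := by
  set A := 2 * (r * (a ^ q + 1) ^ q) with hA
  have haq : 1 ≤ a ^ q := Nat.one_le_pow _ _ ha1
  have hA1 : 1 ≤ A := by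
    rw [hA]
    have : 1 ≤ r * (a ^ q + 1) ^ q := Nat.mul_pos hr (Nat.pow_pos (by omega))
    omega
  set J := Fintype.card V with hJ
  -- covering
  have hcover : (Om q ρ k).filter (fun M => Long q F s M) ⊆
      ((Finset.range (J + 1)).filter (fun j => s < q * j ∧ q * (k + j) ≤ J)).biUnion (fun j =>
        (Om q ρ (k + j)).biUnion (fun R => Reach q F j R)) := by
    intro M hM
    rw [Finset.mem_filter, mem_Om] at hM
    obtain ⟨⟨hPM, hρM, hMk⟩, hlong⟩ := hM
    obtain ⟨j, R, hsj, hMR, hR, hRc, hreach⟩ := hlong.reach hq (fun t ht => (hF t ht).2) hPM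
    simp only [Finset.mem_biUnion, Finset.mem_filter, Finset.mem_range]
    refine ⟨j, ⟨?_, hsj, ?_⟩, R, ?_, hreach⟩
    · have := hR.card_le
      have h2 : j ≤ q * R.card := by
        rw [hRc]; nlinarith
      omega
    · have := hR.card_le
      rw [hRc, hMk] at this
      exact this
    · rw [mem_Om]
      exact ⟨hR, hρM.trans hMR, by rw [hRc, hMk]⟩
  have hreach_card : ∀ j, q * (k + j) ≤ J → ∀ R ∈ Om q ρ (k + j),
      (Reach q F j R).card ≤ A ^ j := by
    intro j hj R hR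
    rw [mem_Om] at hR
    apply card_Reach_le hF
    rw [Finset.card_sdiff_of_subset (Finset.subset_univ _), Finset.card_univ, hR.1.card_supp,
      hR.2.2]
    have : q * (k + j) = q * k + q * j := by ring
    omega
  have h1 : (((Om q ρ k).filter (fun M => Long q F s M)).card : ℝ) ≤
      ∑ j ∈ (Finset.range (J + 1)).filter (fun j => s < q * j ∧ q * (k + j) ≤ J),
        (((Om q ρ (k + j)).card * A ^ j : ℕ) : ℝ) := by
    rw [← Nat.cast_sum]
    norm_cast
    refine (Finset.card_le_card hcover).trans (Finset.card_biUnion_le.trans ?_)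
    refine Finset.sum_le_sum (fun j hj => ?_)
    rw [Finset.mem_filter] at hj
    refine Finset.card_biUnion_le.trans ?_
    refine (Finset.sum_le_card_nsmul _ _ (A ^ j) (hreach_card j hj.2.2)).trans (le_refl _)
  clear_value A
  have h2 : ∀ j, (((Om q ρ (k + j)).card * A ^ j : ℕ) : ℝ) ≤
      (Om q ρ k).card * (1 / 4 : ℝ) ^ j := by
    intro j
    have h3 := Om_iter ρ hK ha j
    have h4 : (4 * (a ^ q * A)) ^ j ≤ K ^ j := Nat.pow_le_pow_left hbig j
    have h5 : (Om q ρ (k + j)).card * (4 * (a ^ q * A)) ^ j ≤ (Om q ρ k).card * (a ^ q) ^ j :=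
      (Nat.mul_le_mul_left _ h4).trans h3
    have h6 : ((Om q ρ (k + j)).card * A ^ j * 4 ^ j) * (a ^ q) ^ j ≤
        (Om q ρ k).card * (a ^ q) ^ j := by
      calc ((Om q ρ (k + j)).card * A ^ j * 4 ^ j) * (a ^ q) ^ j
          = (Om q ρ (k + j)).card * (4 * (a ^ q * A)) ^ j := by rw [mul_pow, mul_pow]; ring
        _ ≤ _ := h5
    have h7 : (Om q ρ (k + j)).card * A ^ j * 4 ^ j ≤ (Om q ρ k).card :=
      Nat.le_of_mul_le_mul_right h6 (Nat.pow_pos haq)
    have h8 : (((Om q ρ (k + j)).card * A ^ j : ℕ) : ℝ) * 4 ^ j ≤ (Om q ρ k).card := by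
      exact_mod_cast h7
    rw [one_div, inv_pow, ← div_eq_mul_inv, le_div_iff₀ (by positivity)]
    exact h8
  refine h1.trans ?_
  have h9 : ∑ j ∈ (Finset.range (J + 1)).filter (fun j => s < q * j ∧ q * (k + j) ≤ J),
        (((Om q ρ (k + j)).card * A ^ j : ℕ) : ℝ) ≤
      ∑ j ∈ (Finset.range (J + 1)).filter (fun j => s < q * j ∧ q * (k + j) ≤ J),
        (((Om q ρ k).card : ℝ) * (1 / 2) ^ j0) * (1 / 2) ^ j := by
    refine Finset.sum_le_sum (fun j hj => (h2 j).trans ?_)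
    rw [Finset.mem_filter] at hj
    have hj0j : j0 ≤ j := by
      by_contra hcon
      have : q * j ≤ q * j0 := Nat.mul_le_mul_left _ (by omega)
      omega
    have e : (1 / 4 : ℝ) ^ j = (1 / 2) ^ j * (1 / 2) ^ j := by
      rw [← mul_pow]; norm_num
    rw [e, mul_assoc, ← mul_assoc]
    have h10 : (1 / 2 : ℝ) ^ j ≤ (1 / 2) ^ j0 :=
      pow_le_pow_of_le_one (by norm_num) (by norm_num) hj0j
    have h11 : (0 : ℝ) ≤ (Om q ρ k).card := Nat.cast_nonneg _
    have h12 : (0 : ℝ) ≤ (1 / 2 : ℝ) ^ j := by positivity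
    calc ((Om q ρ k).card : ℝ) * (1 / 2) ^ j * (1 / 2) ^ j
        ≤ ((Om q ρ k).card : ℝ) * (1 / 2) ^ j0 * (1 / 2) ^ j := by gcongr
      _ = _ := by ring
  refine h9.trans ?_
  rw [← Finset.mul_sum]
  have h13 : ∑ j ∈ (Finset.range (J + 1)).filter (fun j => s < q * j ∧ q * (k + j) ≤ J),
      (1 / 2 : ℝ) ^ j ≤ 1 := by
    have h14 : (Finset.range (J + 1)).filter (fun j => s < q * j ∧ q * (k + j) ≤ J) ⊆
        Finset.Icc 1 J := by
      intro j hj
      rw [Finset.mem_filter, Finset.mem_range] at hj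
      rw [Finset.mem_Icc]
      refine ⟨?_, by omega⟩
      rcases Nat.eq_zero_or_pos j with h | h
      · subst h; simp at hj
      · exact h
    refine (Finset.sum_le_sum_of_subset_of_nonneg h14 (fun _ _ _ => by positivity)).trans ?_
    have h15 : ∀ n : ℕ, ∑ j ∈ Finset.Icc 1 n, (1 / 2 : ℝ) ^ j = 1 - (1 / 2) ^ n := by
      intro n
      induction n with
      | zero => simp
      | succ n ih => rw [Finset.sum_Icc_succ_top (by omega), ih]; ring
    rw [h15]
    have : (0 : ℝ) ≤ (1 / 2) ^ J := by positivity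
    linarith
  have h16 : (0 : ℝ) ≤ ((Om q ρ k).card : ℝ) * (1 / 2) ^ j0 := by positivity
  calc ((Om q ρ k).card : ℝ) * (1 / 2) ^ j0 *
        ∑ j ∈ (Finset.range (J + 1)).filter (fun j => s < q * j ∧ q * (k + j) ≤ J),
          (1 / 2 : ℝ) ^ j ≤ ((Om q ρ k).card : ℝ) * (1 / 2) ^ j0 * 1 :=
        mul_le_mul_of_nonneg_left h13 h16
    _ = _ := mul_one _

/-- A restriction good for many DNFs. -/
theorem exists_good (hq : 1 ≤ q) {ι : Type} (𝒢 : Finset ι) (F : ι → List (Finset (Finset V)))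
    {r : ℕ} (hF : ∀ i ∈ 𝒢, ∀ t ∈ F i, t.card ≤ r ∧ ∀ B ∈ t, B.card = q)
    {ρ : Finset (Finset V)} (hρ : IsPM q ρ) {k a : ℕ} (hρk : ρ.card ≤ k)
    (hk : q * k ≤ Fintype.card V) (ha : Fintype.card V - q * k ≤ a) (ha1 : 1 ≤ a)
    (hbig : 4 * (a ^ q * (2 * (r * (a ^ q + 1) ^ q))) ≤ k + 1 - ρ.card) (hr : 1 ≤ r)
    {s j0 : ℕ} (hj0 : q * j0 ≤ s) (hG : 𝒢.card < 2 ^ j0) :
    ∃ M, IsPM q M ∧ ρ ⊆ M ∧ M.card = k ∧ ∀ i ∈ 𝒢, ¬ Long q (F i) s M := by
  by_contra hcon
  push Not at hcon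
  have hne : (Om q ρ k).Nonempty := by
    obtain ⟨j, rfl⟩ := Nat.exists_eq_add_of_le hρk
    exact Om_nonempty hq hρ j hk
  have hpos : (0 : ℝ) < (Om q ρ k).card := by
    exact_mod_cast Finset.card_pos.2 hne
  have h1 : Om q ρ k ⊆ 𝒢.biUnion (fun i => (Om q ρ k).filter (fun M => Long q (F i) s M)) := by
    intro M hM
    have hM' := mem_Om.1 hM
    obtain ⟨i, hi, hl⟩ := hcon M hM'.1 hM'.2.1 hM'.2.2
    simp only [Finset.mem_biUnion, Finset.mem_filter]
    exact ⟨i, hi, hM, hl⟩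
  have h2 : ((Om q ρ k).card : ℝ) ≤ ∑ i ∈ 𝒢, (((Om q ρ k).filter
      (fun M => Long q (F i) s M)).card : ℝ) := by
    rw [← Nat.cast_sum]
    exact_mod_cast (Finset.card_le_card h1).trans Finset.card_biUnion_le
  have h3 : ∑ i ∈ 𝒢, (((Om q ρ k).filter (fun M => Long q (F i) s M)).card : ℝ) ≤
      ∑ _i ∈ 𝒢, ((Om q ρ k).card * (1 / 2) ^ j0 : ℝ) :=
    Finset.sum_le_sum (fun i hi => card_long_le hq (hF i hi) ρ (le_refl _) ha ha1 hbig hr hj0)
  rw [Finset.sum_const, nsmul_eq_mul] at h3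
  have h4 : (𝒢.card : ℝ) < 2 ^ j0 := by exact_mod_cast hG
  have h5 : (𝒢.card : ℝ) * ((Om q ρ k).card * (1 / 2) ^ j0) < (Om q ρ k).card := by
    calc (𝒢.card : ℝ) * ((Om q ρ k).card * (1 / 2) ^ j0)
        < 2 ^ j0 * ((Om q ρ k).card * (1 / 2) ^ j0) := by
          apply mul_lt_mul_of_pos_right h4
          positivity
      _ = (Om q ρ k).card * (2 * (1 / 2)) ^ j0 := by rw [mul_pow]; ring
      _ = (Om q ρ k).card := by norm_num
  linarith

end Pool.Agent.Helper21.Mix
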