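import Pool.Agent.Helper21.AC0p.Defs

/-!
Formulas without `MOD_p`, and formulas over a set of formulas.
-/

namespace Pool.Agent.Helper21.AC0p

/-- The formula does not contain the connective `MOD_p`. -/
def Fm.ModFree : Fm → Prop
  | .var _ => True
  | .neg A => Fm.ModFree A
  | .or _ f => ∀ i, Fm.ModFree (f i)
  | .mod _ _ => False

/-- The formula is built from variables and members of `G` by negations and disjunctions. -/
def Fm.Over (G : Finset Fm) : Fm → Prop
  | .var _ => True
  | .neg A => Fm.neg A ∈ G ∨ Fm.Over G A
  | .or k f => Fm.or k f ∈ G ∨ ∀ i, Fm.Over G (f i)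
  | .mod k f => Fm.mod k f ∈ G

end Pool.Agent.Helper21.AC0p
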