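import Pool.Agent.Helper21.Mix.Defs
import Pool.Agent.Helper21.Mix.Count

/-!
A forcing relation for formulas without `MOD_p`, with partial partitions as conditions, and
decision trees.
-/

namespace Pool.Agent.Helper21.Mix

open scoped BigOperators Classical
open Pool.Agent.Helper21.AC0p

set_option linter.unusedSectionVars false

/-- Nesting of disjunctions. -/
def ordep : Fm → ℕ
  | .var _ => 0
  | .neg A => ordep A
  | .or _ f => (Finset.univ.sup fun i => ordep (f i)) + 1
  | .mod _ f => Finset.univ.sup fun i => ordep (f i)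

theorem ordep_le_depth (A : Fm) : ordep A ≤ A.depth := by
  induction A with
  | var i => simp [ordep, Fm.depth]
  | neg A ih => simp only [ordep, Fm.depth]; omega
  | or k f ih =>
    simp only [ordep, Fm.depth]
    apply Nat.succ_le_succ
    exact Finset.sup_mono_fun (fun i _ => ih i)
  | mod k f ih =>
    simp only [ordep, Fm.depth]
    exact (Finset.sup_mono_fun (fun i _ => ih i)).trans (Nat.le_succ _)

theorem ordep_lt {k : ℕ} {f : Fin k → Fm} (i : Fin k) : ordep (f i) + 1 ≤ ordep (.or k f) := by
  simp only [ordep]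
  exact Nat.succ_le_succ (Finset.le_sup (f := fun i => ordep (f i)) (Finset.mem_univ i))

variable {V : Type} [Fintype V]

/-- `Fo A b M`: the condition `M` forces `A` to have value `b`. -/
def Fo (q s : ℕ) (blk : ℕ → Option (Finset V)) : Fm → Bool → Finset (Finset V) → Prop
  | .var i, true, M => ∃ B, blk i = some B ∧ B ∈ M
  | .var i, false, M => ∀ B, blk i = some B → ∃ B' ∈ M, B' ≠ B ∧ ¬ Disjoint B' B
  | .neg A, b, M => Fo q s blk A (!b) M
  | .or _ f, true, M => ∃ i, Fo q s blk (f i) true M
  | .or k f, false, M => ∀ M', M ⊆ M' → IsPM q M' →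
      q * M'.card + q * s * ordep (.or k f) ≤ Fintype.card V → ∀ i, ¬ Fo q s blk (f i) true M'
  | .mod _ _, b, _ => b = false

variable {q s : ℕ} {blk : ℕ → Option (Finset V)}

theorem Fo_mono (A : Fm) : ∀ (b : Bool) {M M' : Finset (Finset V)}, M ⊆ M' →
    Fo q s blk A b M → Fo q s blk A b M' := by
  induction A with
  | var i =>
    intro b M M' hM h
    cases b with
    | true =>
      obtain ⟨B, h1, h2⟩ := h
      exact ⟨B, h1, hM h2⟩
    | false =>
      intro B hB
      obtain ⟨B', h1, h2⟩ := h B hB
      exact ⟨B', hM h1, h2⟩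
  | neg A ih =>
    intro b M M' hM h
    simp only [Fo] at h ⊢
    exact ih _ hM h
  | or k f ih =>
    intro b M M' hM h
    cases b with
    | true =>
      obtain ⟨i, hi⟩ := h
      exact ⟨i, ih i true hM hi⟩
    | false =>
      intro M'' hM'' hPM hc i
      exact h M'' (hM.trans hM'') hPM hc i
  | mod k f ih =>
    intro b M M' hM h
    exact h

theorem Fo_cons (A : Fm) : ∀ {M : Finset (Finset V)}, IsPM q M →
    q * M.card + q * s * ordep A ≤ Fintype.card V → Fo q s blk A true M →
    Fo q s blk A false M → False := by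
  induction A with
  | var i =>
    intro M hM _ h1 h2
    obtain ⟨B, hB, hBM⟩ := h1
    obtain ⟨B', hB', hne, hd⟩ := h2 B hB
    exact hd (hM.2 B' hB' B hBM hne)
  | neg A ih =>
    intro M hM hc h1 h2
    simp only [Fo, Bool.not_true, Bool.not_false] at h1 h2
    exact ih hM (by simpa [ordep] using hc) h2 h1
  | or k f ih =>
    intro M hM hc h1 h2
    obtain ⟨i, hi⟩ := h1
    exact h2 M (le_refl _) hM hc i hi
  | mod k f ih =>
    intro M _ _ h1 _
    simp [Fo] at h1

/-- Existence of a decision tree of height `s` all of whose leaves satisfy `P`. -/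
inductive Dec (q : ℕ) (P : Finset (Finset V) → Prop) : ℕ → Finset (Finset V) → Prop
  | leaf {s : ℕ} {M : Finset (Finset V)} : P M → Dec q P s M
  | node {s : ℕ} {M : Finset (Finset V)} (a : V) : a ∉ supp M →
      (∀ B : Finset V, a ∈ B → B.card = q → Disjoint B (supp M) → Dec q P s (insert B M)) →
      Dec q P (s + 1) M

theorem Dec.mono_s {P : Finset (Finset V) → Prop} {s s' : ℕ} {M : Finset (Finset V)}
    (h : Dec q P s M) (hs : s ≤ s') : Dec q P s' M := by
  induction h generalizing s' with
  | leaf h => exact Dec.leaf h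
  | @node s M a ha _ ih =>
    obtain ⟨s'', rfl⟩ : ∃ s'', s' = s'' + 1 := ⟨s' - 1, by omega⟩
    exact Dec.node a ha (fun B h1 h2 h3 => ih B h1 h2 h3 (by omega))

theorem Dec.restrict {P : Finset (Finset V) → Prop}
    (hP : ∀ M M', M ⊆ M' → P M → P M') {s : ℕ} {M M' : Finset (Finset V)}
    (h : Dec q P s M) (hM : M ⊆ M') (hM' : IsPM q M') : Dec q P s M' := by
  induction h generalizing M' with
  | leaf h => exact Dec.leaf (hP _ _ hM h)
  | @node s M a ha _ ih =>
    by_cases haM' : a ∈ supp M'
    · rw [mem_supp] at haM'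
      obtain ⟨B, hB, haB⟩ := haM'
      have hBM : B ∉ M := fun h => ha (mem_supp.2 ⟨B, h, haB⟩)
      have h1 := ih B haB (hM'.1 B hB) (hM'.disjoint_supp hM hB hBM)
        (Finset.insert_subset hB hM) hM'
      exact h1.mono_s (Nat.le_succ _)
    · refine Dec.node a haM' (fun B h1 h2 h3 => ?_)
      exact ih B h1 h2 (h3.mono_right (supp_mono hM)) (Finset.insert_subset_insert _ hM)
        (hM'.insert h2 h3)

theorem Dec.follow (hq : 1 ≤ q) {P : Finset (Finset V) → Prop} {s : ℕ}
    {M M' : Finset (Finset V)} (h : Dec q P s M) (hM : M ⊆ M') (hM' : IsPM q M')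
    (hc : q * M'.card + q * s ≤ Fintype.card V) :
    ∃ t : Finset (Finset V), t.card ≤ s ∧ IsPM q (M' ∪ t) ∧ P (M ∪ t) := by
  induction h generalizing M' with
  | @leaf s M h => exact ⟨∅, by simp, by simpa using hM', by simpa using h⟩
  | @node s M a ha _ ih =>
    have e : q * (s + 1) = q * s + q := by ring
    have key : ∀ (B : Finset V) (M'' : Finset (Finset V)), a ∈ B → B.card = q →
        Disjoint B (supp M) → M' ⊆ M'' → B ∈ M'' → M ⊆ M'' → IsPM q M'' →
        q * M''.card + q * s ≤ Fintype.card V →
        ∃ t : Finset (Finset V), t.card ≤ s + 1 ∧ IsPM q (M' ∪ t) ∧ P (M ∪ t) := by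
      intro B M'' haB hBq hBd hM'M'' hBM'' hMM'' hPM hc'
      obtain ⟨t, h1, h2, h3⟩ := ih B haB hBq hBd (Finset.insert_subset hBM'' hMM'') hPM hc'
      refine ⟨insert B t, (Finset.card_insert_le _ _).trans (by omega), ?_, ?_⟩
      · refine h2.mono ?_
        intro C hC
        rcases Finset.mem_union.1 hC with hC | hC
        · exact Finset.mem_union_left _ (hM'M'' hC)
        · rcases Finset.mem_insert.1 hC with rfl | hC
          · exact Finset.mem_union_left _ hBM''
          · exact Finset.mem_union_right _ hC
      · rwa [Finset.union_insert, ← Finset.insert_union]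
    by_cases haM' : a ∈ supp M'
    · rw [mem_supp] at haM'
      obtain ⟨B, hB, haB⟩ := haM'
      have hBM : B ∉ M := fun h => ha (mem_supp.2 ⟨B, h, haB⟩)
      exact key B M' haB (hM'.1 B hB) (hM'.disjoint_supp hM hB hBM) (le_refl _) hB hM hM'
        (by omega)
    · have hs : (supp M').card + q ≤ Fintype.card V := by
        rw [hM'.card_supp]; omega
      obtain ⟨B, haB, hBq, hd⟩ := exists_block hq hs haM'
      have hnot := IsPM.not_mem_of_disjoint hq hBq hd
      refine key B (insert B M') haB hBq (hd.mono_right (supp_mono hM))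
        (Finset.subset_insert _ _) (Finset.mem_insert_self _ _)
        (hM.trans (Finset.subset_insert _ _)) (hM'.insert hBq hd) ?_
      rw [Finset.card_insert_of_notMem hnot, mul_add]
      omega

/-- If there is no long path, there is a shallow decision tree. -/
theorem dec_of_not_long (hq : 1 ≤ q) {F : List (Finset (Finset V))}
    (hF : ∀ t ∈ F, ∀ B ∈ t, B.card = q)
    {P : Finset (Finset V) → Prop} {ρ : Finset (Finset V)}
    (hnone : ∀ M', ρ ⊆ M' → IsPM q M' → first q F M' = none → P M')
    (hsome : ∀ M' t, ρ ⊆ M' → IsPM q M' → first q F M' = some t → t ⊆ M' → P M') (s : ℕ) :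
    ∀ M, ρ ⊆ M → IsPM q M → q * (M.card + s + 1) ≤ Fintype.card V → ¬ Long q F s M →
      Dec q P s M := by
  induction s using Nat.strong_induction_on with
  | _ s ih =>
    intro M hρ hM hc hnl
    rcases hfirst : first q F M with _ | t
    · exact Dec.leaf (hnone M hρ hM hfirst)
    by_cases htM : t ⊆ M
    · exact Dec.leaf (hsome M t hρ hM hfirst htM)
    have ht := first_some hfirst
    have hPMt : IsPM q (t ∪ M) := ht.2
    set σ := t \ M with hσ
    have hsuppσ : Disjoint (supp σ) (supp M) :=
      hPMt.disjoint_supp' (Finset.sdiff_subset.trans Finset.subset_union_left)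
        Finset.subset_union_right Finset.sdiff_disjoint
    have hσne : (supp σ).Nonempty := by
      have : σ.Nonempty := by
        rw [Finset.nonempty_iff_ne_empty, Ne, hσ, Finset.sdiff_eq_empty_iff_subset]
        exact htM
      obtain ⟨B, hB⟩ := this
      have hBq := hF t ht.1 B (Finset.mem_sdiff.1 hB).1
      obtain ⟨a, ha⟩ := Finset.card_pos.1 (by omega : 0 < B.card)
      exact ⟨a, mem_supp.2 ⟨B, hB, ha⟩⟩
    have hcovcase : ∀ δ : Finset (Finset V), supp σ ⊆ supp δ →
        IsPM q (M ∪ δ) → Disjoint δ M → (∀ B ∈ δ, ∃ a ∈ B, a ∈ supp σ) →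
        Dec q P (s - δ.card) (M ∪ δ) := by
      intro δ hcov hPM hdisj hmeet
      have hδs : δ.card ≤ s := by
        by_contra hcon
        exact hnl (Long.stop hfirst htM hPM hdisj hmeet (by omega))
      have hδ1 : 1 ≤ δ.card := by
        obtain ⟨a, ha⟩ := hσne
        have := hcov ha
        rw [mem_supp] at this
        obtain ⟨B, hB, _⟩ := this
        exact Finset.card_pos.2 ⟨B, hB⟩
      apply ih (s - δ.card) (by omega) (M ∪ δ)
        (hρ.trans Finset.subset_union_left) hPM
      · rw [Finset.card_union_of_disjoint hdisj.symm]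
        have : M.card + δ.card + (s - δ.card) + 1 = M.card + s + 1 := by omega
        rw [this]; exact hc
      · intro hl
        apply hnl
        have := Long.step hfirst htM hPM hdisj hmeet hcov hl
        have e : s - δ.card + δ.card = s := by omega
        rwa [e] at this
    have key : ∀ (u : ℕ) (δ : Finset (Finset V)), (supp σ \ supp δ).card ≤ u →
        IsPM q (M ∪ δ) → Disjoint δ M → (∀ B ∈ δ, ∃ a ∈ B, a ∈ supp σ) →
        Dec q P (s - δ.card) (M ∪ δ) := by
      intro u
      induction u with
      | zero =>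
        intro δ hu hPM hdisj hmeet
        refine hcovcase δ ?_ hPM hdisj hmeet
        rw [← Finset.sdiff_eq_empty_iff_subset, ← Finset.card_eq_zero]; omega
      | succ u ihu =>
        intro δ hu hPM hdisj hmeet
        by_cases hcov : supp σ ⊆ supp δ
        · exact hcovcase δ hcov hPM hdisj hmeet
        have hne : (supp σ \ supp δ).Nonempty := by
          rw [Finset.nonempty_iff_ne_empty, Ne, Finset.sdiff_eq_empty_iff_subset]
          exact hcov
        obtain ⟨a, ha⟩ := hne
        rw [Finset.mem_sdiff] at ha
        have haM : a ∉ supp M := fun h => Finset.disjoint_left.1 hsuppσ ha.1 h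
        have haMδ : a ∉ supp (M ∪ δ) := by
          rw [supp_union, Finset.mem_union]
          rintro (h | h)
          · exact haM h
          · exact ha.2 h
        have hδs : δ.card ≤ s := by
          by_contra hcon
          exact hnl (Long.stop hfirst htM hPM hdisj hmeet (by omega))
        have hext : ∀ B : Finset V, a ∈ B → B.card = q → Disjoint B (supp (M ∪ δ)) →
            IsPM q (M ∪ insert B δ) ∧ Disjoint (insert B δ) M ∧
            (∀ B' ∈ insert B δ, ∃ a ∈ B', a ∈ supp σ) ∧ (insert B δ).card = δ.card + 1 ∧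
            M ∪ insert B δ = insert B (M ∪ δ) := by
          intro B haB hBq hBd
          have e : M ∪ insert B δ = insert B (M ∪ δ) := by rw [Finset.union_insert]
          have hnotM : B ∉ M ∪ δ := IsPM.not_mem_of_disjoint hq hBq hBd
          rw [Finset.mem_union, not_or] at hnotM
          refine ⟨?_, ?_, ?_, ?_, e⟩
          · rw [e]; exact hPM.insert hBq hBd
          · rw [Finset.disjoint_insert_left]
            exact ⟨hnotM.1, hdisj⟩
          · intro B' hB'
            rcases Finset.mem_insert.1 hB' with rfl | hB'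
            · exact ⟨a, haB, ha.1⟩
            · exact hmeet B' hB'
          · rw [Finset.card_insert_of_notMem hnotM.2]
        have hcardMδ : (M ∪ δ).card = M.card + δ.card :=
          Finset.card_union_of_disjoint hdisj.symm
        have hlt : δ.card < s := by
          by_contra hcon
          have hs : (supp (M ∪ δ)).card + q ≤ Fintype.card V := by
            rw [hPM.card_supp, hcardMδ]
            refine le_trans (le_of_eq ?_) hc
            have : M.card + s + 1 = (M.card + δ.card) + 1 := by omega
            rw [this]; ring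
          obtain ⟨B, haB, hBq, hBd⟩ := exists_block hq hs haMδ
          obtain ⟨h1, h2, h3, h4, _⟩ := hext B haB hBq hBd
          exact hnl (Long.stop hfirst htM h1 h2 h3 (by omega))
        obtain ⟨s', hs'⟩ : ∃ s', s - δ.card = s' + 1 := ⟨s - δ.card - 1, by omega⟩
        rw [hs']
        refine Dec.node a haMδ (fun B haB hBq hBd => ?_)
        obtain ⟨h1, h2, h3, h4, h5⟩ := hext B haB hBq hBd
        rw [← h5]
        have hlt' : (supp σ \ supp (insert B δ)).card ≤ u := by
          have hss : (supp σ \ supp (insert B δ)) ⊆ (supp σ \ supp δ).erase a := by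
            intro b hb
            rw [Finset.mem_sdiff, supp_insert, Finset.mem_union, not_or] at hb
            rw [Finset.mem_erase, Finset.mem_sdiff]
            exact ⟨fun h => hb.2.1 (h ▸ haB), hb.1, hb.2.2⟩
          have := Finset.card_le_card hss
          rw [Finset.card_erase_of_mem (Finset.mem_sdiff.2 ha)] at this
          omega
        have h6 := ihu _ hlt' h1 h2 h3
        rw [h4] at h6
        have : s - (δ.card + 1) = s' := by omega
        rwa [this] at h6
    have h0 := key _ ∅ (le_refl _) (by simpa using hM) (by simp) (by simp)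
    simpa using h0

/-! ### Disjunctions -/

/-- The formula is decided. -/
def Dcd (q s : ℕ) (blk : ℕ → Option (Finset V)) (A : Fm) (M : Finset (Finset V)) : Prop :=
  Fo q s blk A true M ∨ Fo q s blk A false M

theorem Dcd_mono {A : Fm} (M M' : Finset (Finset V)) (hM : M ⊆ M') (h : Dcd q s blk A M) :
    Dcd q s blk A M' := by
  rcases h with h | h
  · exact Or.inl (Fo_mono A _ hM h)
  · exact Or.inr (Fo_mono A _ hM h)

/-- The small conditions that make a disjunction true. -/
noncomputable def terms (q s : ℕ) (blk : ℕ → Option (Finset V)) (ρ : Finset (Finset V))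
    {k : ℕ} (f : Fin k → Fm) : List (Finset (Finset V)) :=
  (Finset.univ.filter (fun t : Finset (Finset V) => t.card ≤ s ∧ IsPM q (ρ ∪ t) ∧
    ∃ i, Fo q s blk (f i) true (ρ ∪ t))).toList

theorem mem_terms {ρ t : Finset (Finset V)} {k : ℕ} {f : Fin k → Fm} :
    t ∈ terms q s blk ρ f ↔ t.card ≤ s ∧ IsPM q (ρ ∪ t) ∧
      ∃ i, Fo q s blk (f i) true (ρ ∪ t) := by
  simp [terms]

theorem dec_or (hq : 1 ≤ q) {ρ : Finset (Finset V)} {k : ℕ} {f : Fin k → Fm}
    (hf : ∀ i, Dec q (Dcd q s blk (f i)) s ρ)
    {M : Finset (Finset V)} (hρM : ρ ⊆ M) (hM : IsPM q M)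
    (hc : q * (M.card + s + 1) ≤ Fintype.card V)
    (hnl : ¬ Long q (terms q s blk ρ f) s M) : Dec q (Dcd q s blk (.or k f)) s M := by
  refine dec_of_not_long hq (F := terms q s blk ρ f) ?_ (ρ := ρ) ?_ ?_ s M hρM hM hc hnl
  · intro t ht B hB
    rw [mem_terms] at ht
    exact ht.2.1.1 B (Finset.mem_union_right _ hB)
  · intro M' hρM' _ hnone
    right
    intro M'' hM'' hPM hc' i hi
    have hn := first_none hnone
    have hod : 1 ≤ ordep (.or k f) := by simp [ordep]
    have e1 : q * s ≤ q * s * ordep (.or k f) := Nat.le_mul_of_pos_right _ hod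
    obtain ⟨t, h1, h2, h3⟩ := (hf i).follow hq (hρM'.trans hM'') hPM (by omega)
    have hρt : ρ ∪ t ⊆ M'' ∪ t := Finset.union_subset_union_left (hρM'.trans hM'')
    rcases h3 with h3 | h3
    · refine hn t ?_ ?_
      · rw [mem_terms]
        exact ⟨h1, h2.mono hρt, i, h3⟩
      · refine h2.mono ?_
        rw [Finset.union_comm]
        exact Finset.union_subset_union_left hM''
    · refine Fo_cons (f i) h2 ?_ (Fo_mono _ _ Finset.subset_union_left hi) (Fo_mono _ _ hρt h3)
      have hle := ordep_lt (f := f) i
      have e2 : q * s * ordep (f i) + q * s ≤ q * s * ordep (.or k f) := by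
        calc q * s * ordep (f i) + q * s = q * s * (ordep (f i) + 1) := by ring
          _ ≤ _ := Nat.mul_le_mul_left _ hle
      have e3 : q * (M'' ∪ t).card ≤ q * M''.card + q * s := by
        rw [← mul_add]
        exact Nat.mul_le_mul_left _ ((Finset.card_union_le _ _).trans (by omega))
      omega
  · intro M' t hρM' _ hfirst htM'
    have ht := (first_some hfirst).1
    rw [mem_terms] at ht
    obtain ⟨_, _, i, hi⟩ := ht
    exact Or.inl ⟨i, Fo_mono _ _ (Finset.union_subset hρM' htM') hi⟩

theorem dec_neg {A : Fm} {M : Finset (Finset V)} {s' : ℕ} (h : Dec q (Dcd q s blk A) s' M) :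
    Dec q (Dcd q s blk (.neg A)) s' M := by
  induction h with
  | leaf h =>
    refine Dec.leaf ?_
    rcases h with h | h
    · exact Or.inr h
    · exact Or.inl h
  | node a ha _ ih => exact Dec.node a ha ih

theorem dec_var (hq : 1 ≤ q) (hs : 1 ≤ s) (hblk : ∀ i B, blk i = some B → B.card = q) (i : ℕ)
    (M : Finset (Finset V)) : Dec q (Dcd q s blk (.var i)) s M := by
  rcases hb : blk i with _ | B
  · refine Dec.leaf (Or.inr ?_)
    intro B hB
    rw [hb] at hB
    exact absurd hB (by simp)
  · have hBq := hblk i B hb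
    by_cases hBM : B ∈ M
    · exact Dec.leaf (Or.inl ⟨B, hb, hBM⟩)
    · by_cases hconf : ∃ B' ∈ M, ¬ Disjoint B' B
      · refine Dec.leaf (Or.inr ?_)
        intro C hC
        rw [hb, Option.some_inj] at hC
        subst hC
        obtain ⟨B', h1, h2⟩ := hconf
        exact ⟨B', h1, fun h => hBM (h ▸ h1), h2⟩
      · push Not at hconf
        obtain ⟨a, ha⟩ := Finset.card_pos.1 (by omega : 0 < B.card)
        have haM : a ∉ supp M := by
          intro h
          rw [mem_supp] at h
          obtain ⟨B', h1, h2⟩ := h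
          exact Finset.disjoint_left.1 (hconf B' h1) h2 ha
        obtain ⟨s', rfl⟩ : ∃ s', s = s' + 1 := ⟨s - 1, by omega⟩
        refine Dec.node a haM (fun B' haB' _ _ => Dec.leaf ?_)
        by_cases hBB' : B' = B
        · left
          exact ⟨B, hb, by rw [hBB']; exact Finset.mem_insert_self _ _⟩
        · right
          intro C hC
          rw [hb, Option.some_inj] at hC
          subst hC
          refine ⟨B', Finset.mem_insert_self _ _, hBB', ?_⟩
          intro hd
          exact Finset.disjoint_left.1 hd haB' ha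

end Pool.Agent.Helper21.Mix
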