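import Pool.Agent.Helper21.Mix.TreeFn
import Pool.Agent.Helper21.AC0p.Core

/-!
Simulation of refutations in which disjunctions have few disjuncts with `MOD_p`.
-/

namespace Pool.Agent.Helper21.Mix

open scoped BigOperators Classical
open Pool.Agent.Helper21.AC0p

set_option linter.unusedSectionVars false

/-- The disjunction of the disjuncts without `MOD_p`. -/
noncomputable def mfOrL (L : List Fm) : Fm := Fm.orL (L.filter (fun A => decide A.ModFree))

noncomputable def mfOr {k : ℕ} (f : Fin k → Fm) : Fm := mfOrL (List.ofFn f)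

theorem orL_ofFn {k : ℕ} (f : Fin k → Fm) : Fm.orL (List.ofFn f) = Fm.or k f := by
  have h := List.equivSigmaTuple.right_inv (⟨k, f⟩ : Σ n, Fin n → Fm)
  have h2 := congrArg (fun s : (Σ n, Fin n → Fm) => Fm.or s.1 s.2) h
  exact h2

theorem ofFn_get (L : List Fm) : List.ofFn L.get = L := List.ofFn_get L

theorem modFree_or {k : ℕ} {f : Fin k → Fm} (h : (Fm.or k f).ModFree) : mfOr f = .or k f := by
  unfold mfOr mfOrL
  rw [List.filter_eq_self.2, orL_ofFn]
  intro A hA
  rw [List.mem_ofFn] at hA
  obtain ⟨i, rfl⟩ := hA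
  simpa using h i

/-- The value of a formula at a point. -/
noncomputable def mval {X : Type} (p : ℕ) (b : Fm → X → Bool) (x : X) : Fm → Bool
  | .var i => b (.var i) x
  | .neg A => if A.ModFree then b (.neg A) x else !(mval p b x A)
  | .or _ f => b (mfOr f) x || decide (∃ i, ¬ (f i).ModFree ∧ mval p b x (f i) = true)
  | .mod _ f => decide (p ∣ ∑ i, (mval p b x (f i)).toNat)

variable {X K : Type} [Field K] {𝔉 : Filt X K} {p : ℕ} {b st : Fm → X → Bool}

theorem mval_modFree {A : Fm} (hA : A.ModFree) (x : X) : mval p b x A = b A x := by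
  cases A with
  | var i => rfl
  | neg A =>
    have hA' : A.ModFree := hA
    simp only [mval]; rw [if_pos hA']
  | or k f =>
    simp only [mval]
    rw [modFree_or hA]
    have : ¬ ∃ i, ¬ (f i).ModFree ∧ mval p b x (f i) = true := by
      rintro ⟨i, hi, _⟩
      exact hi (hA i)
    simp [this]
  | mod k f => exact hA.elim

theorem mval_orL (L : List Fm) (x : X) : mval p b x (Fm.orL L) =
    (b (mfOrL L) x || decide (∃ z ∈ L, ¬ z.ModFree ∧ mval p b x z = true)) := by
  simp only [Fm.orL, mval, mfOr, ofFn_get]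
  congr 1
  rw [Bool.eq_iff_iff, decide_eq_true_eq, decide_eq_true_eq,
    exists_get_iff L (fun z => ¬ z.ModFree ∧ mval p b x z = true)]

theorem mval_modL (L : List Fm) (x : X) : mval p b x (Fm.modL L) =
    decide (p ∣ (L.map (fun z => (mval p b x z).toNat)).sum) := by
  simp only [Fm.modL, mval]
  rw [sum_get L (fun z => (mval p b x z).toNat)]

/-- The derivation lemma for Boolean functions. -/
theorem der_of_cover {Ax : Set (X → K)} {w D : ℕ} (H : List (X → Bool))
    (hH : ∀ h ∈ H, ind K h ∈ 𝔉.LD D ∧ Der 𝔉 Ax w (ind K h)) :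
    ∀ (c : X → Bool) (Dc : ℕ), ind K c ∈ 𝔉.LD Dc → (∀ x, c x = true → ∃ h ∈ H, h x = true) →
      H.length * D + Dc ≤ w → Der 𝔉 Ax w (ind K c) := by
  induction H with
  | nil =>
    intro c Dc _ hcov _
    have : ind K c = 0 := by
      funext x
      have : c x = false := by
        by_contra hcon
        obtain ⟨h, hh, _⟩ := hcov x (by simpa using hcon)
        simp at hh
      simp [ind, this]
    rw [this]; exact Der.zero
  | cons h H ih =>
    intro c Dc hc hcov hw
    rw [List.length_cons] at hw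
    obtain ⟨h1, h2⟩ := hH h (by simp)
    have e1 : (H.length + 1) * D = H.length * D + D := by ring
    have h3 := ih (fun g hg => hH g (by simp [hg])) (fun x => c x && !(h x)) (Dc + D) (by
      rw [ind_and, ind_not]
      exact 𝔉.mul_mem hc (Submodule.sub_mem _ (𝔉.one_mem' _) h1)) (by
      intro x hx
      rw [Bool.and_eq_true] at hx
      obtain ⟨g, hg, hgx⟩ := hcov x hx.1
      rcases List.mem_cons.1 hg with rfl | hg
      · rw [hgx] at hx; simp at hx
      · exact ⟨g, hg, hgx⟩) (by omega)
    have e2 : ind K c = ind K h * ind K c + ind K (fun x => c x && !(h x)) := by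
      rw [ind_and, ind_not]; ring
    rw [e2]
    exact Der.add (Der.mul h2 h1 hc (by omega)) h3

/-- Hypotheses of the simulation. -/
structure MixHyp (𝔉 : Filt X K) (Ax : Set (X → K)) (w D0 t : ℕ) (S : Set Fm) (Γ : Set Fm)
    (b st : Fm → X → Bool) (T F : Fm → X → Prop) : Prop where
  sub : ∀ A ∈ S, ∀ B, Fm.IsSub B A → B ∈ S
  mf : ∀ A ∈ S, A.ModFree → A ∈ Γ
  mfor : ∀ L, Fm.orL L ∈ S → mfOrL L ∈ Γ
  few : ∀ (k : ℕ) (f : Fin k → Fm), Fm.or k f ∈ S →
    ((Finset.univ.image f).filter (fun z => ¬ z.ModFree)).card ≤ t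
  bdeg : ∀ A ∈ Γ, ind K (b A) ∈ 𝔉.LD D0
  sdeg : ∀ A ∈ Γ, ind K (st A) ∈ 𝔉.LD D0
  sder : ∀ A ∈ Γ, Der 𝔉 Ax w (ind K (st A))
  semT : ∀ A ∈ Γ, ∀ x, b A x = true → T A x
  semF : ∀ A ∈ Γ, ∀ x, st A x = false → b A x = false → F A x
  cons : ∀ A ∈ Γ, ∀ x, T A x → F A x → False
  tneg : ∀ A x, T (.neg A) x ↔ F A x
  fneg : ∀ A x, F (.neg A) x ↔ T A x
  tor : ∀ L x, T (Fm.orL L) x ↔ ∃ z ∈ L, T z x

variable {Ax : Set (X → K)} {w D0 t : ℕ} {S Γ : Set Fm} {T F : Fm → X → Prop}

theorem MixHyp.deg [hp : Fact p.Prime] [CharP K p]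
    (H : MixHyp 𝔉 Ax w D0 t S Γ b st T F) {κ : ℕ} (hκp : p ≤ κ) (hκt : t + 1 ≤ κ)
    (A : Fm) : A ∈ S → ind K (fun x => mval p b x A) ∈ 𝔉.LD (κ ^ A.depth * D0) := by
  have hκ1 : 1 ≤ κ := by omega
  have hmf : ∀ A ∈ S, A.ModFree →
      ind K (fun x => mval p b x A) ∈ 𝔉.LD (κ ^ A.depth * D0) := by
    intro A hA hAm
    have e : (fun x => mval p b x A) = b A := by funext x; exact mval_modFree hAm x
    rw [e]
    exact 𝔉.mono (Nat.le_mul_of_pos_left _ (Nat.pow_pos (by omega))) (H.bdeg A (H.mf A hA hAm))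
  induction A with
  | var i => intro hA; exact hmf _ hA trivial
  | neg A ih =>
    intro hA
    by_cases hAm : A.ModFree
    · exact hmf _ hA hAm
    · have e : (fun x => mval p b x (.neg A)) = (fun x => !(mval p b x A)) := by
        funext x; simp only [mval]; rw [if_neg hAm]
      rw [e, ind_not]
      refine Submodule.sub_mem _ (𝔉.one_mem' _)
        (𝔉.mono ?_ (ih (H.sub _ hA _ (Fm.IsSub.neg Fm.IsSub.refl))))
      exact Nat.mul_le_mul_right _ (Nat.pow_le_pow_right hκ1 (Nat.le_succ _))
  | or k f ih =>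
    intro hA
    set m := Finset.univ.sup fun i => (f i).depth with hm
    have hofFn : Fm.orL (List.ofFn f) ∈ S := by rw [orL_ofFn]; exact hA
    have e : ind K (fun x => mval p b x (.or k f)) = 1 - (1 - ind K (b (mfOr f))) *
        ∏ z ∈ (Finset.univ.image f).filter (fun z => ¬ z.ModFree),
          (1 - ind K (fun x => mval p b x z)) := by
      funext x
      simp only [Pi.sub_apply, Pi.mul_apply, Pi.one_apply, Finset.prod_apply]
      by_cases h1 : b (mfOr f) x = true
      · simp [ind, mval, h1]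
      · by_cases h2 : ∃ i, ¬ (f i).ModFree ∧ mval p b x (f i) = true
        · obtain ⟨i, hi1, hi2⟩ := h2
          rw [Finset.prod_eq_zero (i := f i)]
          · have : ∃ i, ¬ (f i).ModFree ∧ mval p b x (f i) = true := ⟨i, hi1, hi2⟩
            simp [ind, mval, this]
          · simp [hi1]
          · simp [ind, hi2]
        · rw [Finset.prod_eq_one]
          · have e1 : mval p b x (.or k f) = false := by
              simp only [mval, Bool.or_eq_false_iff, decide_eq_false_iff_not]
              exact ⟨by simpa using h1, h2⟩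
            have e2 : b (mfOr f) x = false := by simpa using h1
            simp [ind, e1, e2]
          · intro z hz
            rw [Finset.mem_filter, Finset.mem_image] at hz
            obtain ⟨⟨i, _, rfl⟩, hz2⟩ := hz
            have : mval p b x (f i) = false := by
              by_contra hcon
              exact h2 ⟨i, hz2, by simpa using hcon⟩
            simp [ind, this]
    rw [e]
    refine Submodule.sub_mem _ (𝔉.one_mem' _) ?_
    have h1 : (1 : X → K) - ind K (b (mfOr f)) ∈ 𝔉.LD D0 :=
      Submodule.sub_mem _ (𝔉.one_mem' _) (H.bdeg _ (H.mfor _ hofFn))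
    have h2 : ∀ z ∈ (Finset.univ.image f).filter (fun z => ¬ z.ModFree),
        (1 : X → K) - ind K (fun x => mval p b x z) ∈ 𝔉.LD (κ ^ m * D0) := by
      intro z hz
      rw [Finset.mem_filter, Finset.mem_image] at hz
      obtain ⟨⟨i, _, rfl⟩, _⟩ := hz
      refine Submodule.sub_mem _ (𝔉.one_mem' _) (𝔉.mono ?_
        (ih i (H.sub _ hA _ (Fm.IsSub.or i Fm.IsSub.refl))))
      refine Nat.mul_le_mul_right _ (Nat.pow_le_pow_right hκ1 ?_)
      exact Finset.le_sup (f := fun i => (f i).depth) (Finset.mem_univ i)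
    refine 𝔉.mono ?_ (𝔉.mul_mem h1 (𝔉.prod_mem _ _ _ h2))
    have h3 := H.few k f hA
    simp only [Fm.depth]
    have h4 : 1 ≤ κ ^ m := Nat.one_le_pow _ _ (by omega)
    calc D0 + ((Finset.univ.image f).filter (fun z => ¬ z.ModFree)).card * (κ ^ m * D0)
        ≤ κ ^ m * D0 + t * (κ ^ m * D0) :=
          Nat.add_le_add (Nat.le_mul_of_pos_left _ h4) (Nat.mul_le_mul_right _ h3)
      _ = (t + 1) * (κ ^ m * D0) := by ring
      _ ≤ κ * (κ ^ m * D0) := Nat.mul_le_mul_right _ hκt
      _ = κ ^ (m + 1) * D0 := by ring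
  | mod k f ih =>
    intro hA
    set m := Finset.univ.sup fun i => (f i).depth with hm
    have e : ind K (fun x => mval p b x (.mod k f)) =
        1 - (∑ i, ind K (fun x => mval p b x (f i))) ^ (p - 1) := by
      have h : (∑ i, ind K (fun x => mval p b x (f i))) =
          (fun x => ((∑ i, (mval p b x (f i)).toNat : ℕ) : K)) := by
        funext x
        simp only [Finset.sum_apply, ind]
        push_cast
        refine Finset.sum_congr rfl (fun i _ => ?_)
        by_cases hb : mval p b x (f i) = true <;> simp [hb]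
      rw [h, ← ind_dvd]
      rfl
    rw [e]
    refine Submodule.sub_mem _ (𝔉.one_mem' _) ?_
    have h1 : ∀ i ∈ (Finset.univ : Finset (Fin k)), ind K (fun x => mval p b x (f i)) ∈
        𝔉.LD (κ ^ m * D0) := by
      intro i _
      refine 𝔉.mono ?_ (ih i (H.sub _ hA _ (Fm.IsSub.mod i Fm.IsSub.refl)))
      refine Nat.mul_le_mul_right _ (Nat.pow_le_pow_right hκ1 ?_)
      exact Finset.le_sup (f := fun i => (f i).depth) (Finset.mem_univ i)
    refine 𝔉.mono ?_ (𝔉.pow_mem (𝔉.sum_mem Finset.univ _ _ h1) (p - 1))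
    simp only [Fm.depth]
    calc (p - 1) * (κ ^ m * D0) ≤ κ * (κ ^ m * D0) := Nat.mul_le_mul_right _ (by omega)
      _ = κ ^ (m + 1) * D0 := by ring

/-- Truth at a point, including forced truth. -/
def TR (p : ℕ) (b : Fm → X → Bool) (T : Fm → X → Prop) (z : Fm) (x : X) : Prop :=
  mval p b x z = true ∨ (z.ModFree ∧ T z x)

mutual
/-- The formulas whose trees are relevant for a scheme. -/
noncomputable def relF (σ : ℕ → Fm) (τ : ℕ → List Fm) : FSch → List Fm
  | .mv i => [σ i]
  | .neg s => Fm.neg (s.inst σ τ) :: relF σ τ s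
  | .or l => mfOrL (l.inst σ τ) :: relL σ τ l
  | .mod l => relL σ τ l
noncomputable def relL (σ : ℕ → Fm) (τ : ℕ → List Fm) : LSch → List Fm
  | .nil => []
  | .cons s l => relF σ τ s ++ relL σ τ l
  | .app _ l => relL σ τ l
end

mutual
/-- Number of relevant formulas. -/
def cntF : FSch → ℕ
  | .mv _ => 1
  | .neg s => cntF s + 1
  | .or l => cntL l + 1
  | .mod l => cntL l
def cntL : LSch → ℕ
  | .nil => 0
  | .cons s l => cntF s + cntL l
  | .app _ l => cntL l
end

mutual
theorem length_relF (σ : ℕ → Fm) (τ : ℕ → List Fm) :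
    (s : FSch) → (relF σ τ s).length = cntF s
  | .mv i => rfl
  | .neg s => by rw [relF, cntF, List.length_cons, length_relF σ τ s]
  | .or l => by rw [relF, cntF, List.length_cons, length_relL σ τ l]
  | .mod l => by rw [relF, cntF, length_relL σ τ l]
theorem length_relL (σ : ℕ → Fm) (τ : ℕ → List Fm) :
    (l : LSch) → (relL σ τ l).length = cntL l
  | .nil => rfl
  | .cons s l => by
      rw [relL, cntL, List.length_append, length_relF σ τ s, length_relL σ τ l]
  | .app _ l => by rw [relL, cntL, length_relL σ τ l]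
end

theorem modFree_orL {L : List Fm} (h : (Fm.orL L).ModFree) : mfOrL L = Fm.orL L := by
  have := modFree_or h
  rw [mfOr, ofFn_get] at this
  exact this

theorem inst_mem_relF (σ : ℕ → Fm) (τ : ℕ → List Fm) (s : FSch)
    (h : (s.inst σ τ).ModFree) : s.inst σ τ ∈ relF σ τ s := by
  cases s with
  | mv i => simp [relF, FSch.inst]
  | neg s => simp [relF, FSch.inst]
  | or l =>
    rw [FSch.inst] at h ⊢
    rw [relF, modFree_orL h]
    exact List.mem_cons_self
  | mod l => rw [FSch.inst] at h; exact h.elim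

/-- The formulas relevant for a scheme belong to `Γ` if they are without `MOD_p`. -/
theorem mfOrL_modFree (L : List Fm) : (mfOrL L).ModFree := by
  intro i
  have := List.get_mem (L.filter (fun A => decide A.ModFree)) i
  rw [List.mem_filter] at this
  simpa using this.2

mutual
theorem MixHyp.relF_mem (H : MixHyp 𝔉 Ax w D0 t S Γ b st T F) (σ : ℕ → Fm)
    (τ : ℕ → List Fm) :
    (s : FSch) → s.inst σ τ ∈ S → ∀ A ∈ relF σ τ s, A.ModFree → A ∈ Γ
  | .mv i => fun h A hA hAm => by
      rw [relF, List.mem_singleton] at hA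
      subst hA
      exact H.mf _ h hAm
  | .neg s => fun h A hA hAm => by
      rw [relF, List.mem_cons] at hA
      rcases hA with rfl | hA
      · exact H.mf _ h hAm
      · exact H.relF_mem σ τ s (H.sub _ h _ (Fm.IsSub.neg Fm.IsSub.refl)) A hA hAm
  | .or l => fun h A hA hAm => by
      rw [relF, List.mem_cons] at hA
      rcases hA with rfl | hA
      · exact H.mfor _ h
      · exact H.relL_mem σ τ l (fun B hB => H.sub _ h _ (isSub_orL hB)) A hA hAm
  | .mod l => fun h A hA hAm => by
      rw [relF] at hA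
      exact H.relL_mem σ τ l (fun B hB => H.sub _ h _ (isSub_modL hB)) A hA hAm
theorem MixHyp.relL_mem (H : MixHyp 𝔉 Ax w D0 t S Γ b st T F) (σ : ℕ → Fm)
    (τ : ℕ → List Fm) :
    (l : LSch) → (∀ B ∈ l.inst σ τ, B ∈ S) → ∀ A ∈ relL σ τ l, A.ModFree → A ∈ Γ
  | .nil => fun h A hA hAm => by simp [relL] at hA
  | .cons s l => fun h A hA hAm => by
      rw [LSch.inst] at h
      rw [relL, List.mem_append] at hA
      rcases hA with hA | hA
      · exact H.relF_mem σ τ s (h _ (by simp)) A hA hAm
      · exact H.relL_mem σ τ l (fun B hB => h B (by simp [hB])) A hA hAm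
  | .app j l => fun h A hA hAm => by
      rw [LSch.inst] at h
      rw [relL] at hA
      exact H.relL_mem σ τ l (fun B hB => h B (by simp [hB])) A hA hAm
end

theorem MixHyp.TR_iff (H : MixHyp 𝔉 Ax w D0 t S Γ b st T F) {A : Fm} {x : X} (hA : A ∈ S)
    (hst : A.ModFree → st A x = false) : TR p b T A x ↔ mval p b x A = true := by
  constructor
  · rintro (h | ⟨hm, hT⟩)
    · exact h
    · rw [mval_modFree hm]
      by_contra hcon
      have hb : b A x = false := by simpa using hcon
      exact H.cons A (H.mf A hA hm) x hT (H.semF A (H.mf A hA hm) x (hst hm) hb)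
  · exact Or.inl

theorem MixHyp.orL_iff (H : MixHyp 𝔉 Ax w D0 t S Γ b st T F) {L : List Fm} {x : X}
    (hL : Fm.orL L ∈ S) (hst : st (mfOrL L) x = false) :
    mval p b x (Fm.orL L) = true ↔ ∃ z ∈ L, TR p b T z x := by
  have hΓ := H.mfor L hL
  have hT : T (mfOrL L) x ↔ ∃ z ∈ L, z.ModFree ∧ T z x := by
    unfold mfOrL
    rw [H.tor]
    constructor
    · rintro ⟨z, hz, hTz⟩
      rw [List.mem_filter] at hz
      exact ⟨z, hz.1, by simpa using hz.2, hTz⟩
    · rintro ⟨z, hz, hm, hTz⟩
      exact ⟨z, by rw [List.mem_filter]; exact ⟨hz, by simpa using hm⟩, hTz⟩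
  rw [mval_orL, Bool.or_eq_true, decide_eq_true_eq]
  constructor
  · rintro (h | ⟨z, hz, _, h⟩)
    · obtain ⟨z, hz, hm, hTz⟩ := hT.1 (H.semT _ hΓ x h)
      exact ⟨z, hz, Or.inr ⟨hm, hTz⟩⟩
    · exact ⟨z, hz, Or.inl h⟩
  · rintro ⟨z, hz, h⟩
    by_cases hm : z.ModFree
    · left
      have hzS : z ∈ S := H.sub _ hL _ (isSub_orL hz)
      have hTz : T z x := by
        rcases h with h | h
        · rw [mval_modFree hm] at h
          exact H.semT z (H.mf z hzS hm) x h
        · exact h.2
      by_contra hcon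
      have hb : b (mfOrL L) x = false := by simpa using hcon
      exact H.cons _ hΓ x (hT.2 ⟨z, hz, hm, hTz⟩) (H.semF _ hΓ x hst hb)
    · right
      rcases h with h | h
      · exact ⟨z, hz, hm, h⟩
      · exact absurd h.1 hm

mutual
theorem MixHyp.val_inst (H : MixHyp 𝔉 Ax w D0 t S Γ b st T F) (σ : ℕ → Fm)
    (τ : ℕ → List Fm) (x : X) :
    (s : FSch) → s.inst σ τ ∈ S → (∀ A ∈ relF σ τ s, A.ModFree → st A x = false) →
      mval p b x (s.inst σ τ) = s.val p (fun i => mval p b x (σ i))
        (fun j => decide (∀ z ∈ τ j, ¬ TR p b T z x))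
        (fun j => ((τ j).map (fun z => (mval p b x z).toNat)).sum)
  | .mv i => fun _ _ => by simp [FSch.inst, FSch.val]
  | .neg s => fun h hst => by
      rw [FSch.inst] at h
      have hs : s.inst σ τ ∈ S := H.sub _ h _ (Fm.IsSub.neg Fm.IsSub.refl)
      have hst' : ∀ A ∈ relF σ τ s, A.ModFree → st A x = false :=
        fun A hA => hst A (by rw [relF]; exact List.mem_cons_of_mem _ hA)
      have ih := H.val_inst σ τ x s hs hst'
      rw [FSch.inst, FSch.val, ← ih]
      by_cases hm : (s.inst σ τ).ModFree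
      · have hmn : (Fm.neg (s.inst σ τ)).ModFree := hm
        rw [mval_modFree hmn, mval_modFree hm]
        have h1 : st (s.inst σ τ) x = false := hst' _ (inst_mem_relF σ τ s hm) hm
        have h2 : st (Fm.neg (s.inst σ τ)) x = false :=
          hst _ (by rw [relF]; exact List.mem_cons_self) hmn
        have hΓ1 := H.mf _ hs hm
        have hΓ2 := H.mf _ h hmn
        rcases hb1 : b (s.inst σ τ) x with _ | _
        · rcases hb2 : b (Fm.neg (s.inst σ τ)) x with _ | _
          · exfalso
            have h3 := H.semF _ hΓ1 x h1 hb1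
            have h4 := H.semF _ hΓ2 x h2 hb2
            rw [H.fneg] at h4
            exact H.cons _ hΓ1 x h4 h3
          · rfl
        · rcases hb2 : b (Fm.neg (s.inst σ τ)) x with _ | _
          · rfl
          · exfalso
            have h3 := H.semT _ hΓ1 x hb1
            have h4 := H.semT _ hΓ2 x hb2
            rw [H.tneg] at h4
            exact H.cons _ hΓ1 x h3 h4
      · simp only [mval]
        rw [if_neg hm]
  | .or l => fun h hst => by
      rw [FSch.inst] at h
      have hl : ∀ B ∈ l.inst σ τ, B ∈ S := fun B hB => H.sub _ h _ (isSub_orL hB)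
      have hst' : ∀ A ∈ relL σ τ l, A.ModFree → st A x = false :=
        fun A hA => hst A (by rw [relF]; exact List.mem_cons_of_mem _ hA)
      have ih := H.valF_inst σ τ x l hl hst'
      rw [FSch.inst, FSch.val, Bool.eq_iff_iff, H.orL_iff h
        (hst _ (by rw [relF]; exact List.mem_cons_self) (mfOrL_modFree _))]
      simp only [Bool.not_eq_true', ← Bool.not_eq_true, ih]
      push Not
      rfl
  | .mod l => fun h hst => by
      rw [FSch.inst] at h
      have hl : ∀ B ∈ l.inst σ τ, B ∈ S := fun B hB => H.sub _ h _ (isSub_modL hB)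
      have hst' : ∀ A ∈ relL σ τ l, A.ModFree → st A x = false :=
        fun A hA => hst A (by rw [relF]; exact hA)
      rw [FSch.inst, FSch.val, mval_modL, H.valC_inst σ τ x l hl hst']
theorem MixHyp.valF_inst (H : MixHyp 𝔉 Ax w D0 t S Γ b st T F) (σ : ℕ → Fm)
    (τ : ℕ → List Fm) (x : X) :
    (l : LSch) → (∀ B ∈ l.inst σ τ, B ∈ S) →
      (∀ A ∈ relL σ τ l, A.ModFree → st A x = false) →
      (l.valF p (fun i => mval p b x (σ i))
        (fun j => decide (∀ z ∈ τ j, ¬ TR p b T z x))
        (fun j => ((τ j).map (fun z => (mval p b x z).toNat)).sum) = true ↔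
      ∀ z ∈ l.inst σ τ, ¬ TR p b T z x)
  | .nil => fun _ _ => by simp [LSch.valF, LSch.inst]
  | .cons s l => fun h hst => by
      rw [LSch.inst] at h
      rw [relL] at hst
      have hs : s.inst σ τ ∈ S := h _ (by simp)
      have h1 := H.val_inst σ τ x s hs (fun A hA => hst A (List.mem_append_left _ hA))
      have h2 := H.valF_inst σ τ x l (fun B hB => h B (by simp [hB]))
        (fun A hA => hst A (List.mem_append_right _ hA))
      have h3 := H.TR_iff (p := p) hs (fun hm => hst _
        (List.mem_append_left _ (inst_mem_relF σ τ s hm)) hm)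
      rw [LSch.valF, LSch.inst, Bool.and_eq_true, h2, ← h1]
      simp only [List.mem_cons, forall_eq_or_imp, h3]
      simp
  | .app j l => fun h hst => by
      rw [LSch.inst] at h
      rw [relL] at hst
      have h2 := H.valF_inst σ τ x l (fun B hB => h B (by simp [hB])) hst
      rw [LSch.valF, LSch.inst, Bool.and_eq_true, h2, decide_eq_true_eq]
      simp only [List.mem_append]
      constructor
      · rintro ⟨h3, h4⟩ z (hz | hz)
        · exact h3 z hz
        · exact h4 z hz
      · intro h3
        exact ⟨fun z hz => h3 z (Or.inl hz), fun z hz => h3 z (Or.inr hz)⟩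
theorem MixHyp.valC_inst (H : MixHyp 𝔉 Ax w D0 t S Γ b st T F) (σ : ℕ → Fm)
    (τ : ℕ → List Fm) (x : X) :
    (l : LSch) → (∀ B ∈ l.inst σ τ, B ∈ S) →
      (∀ A ∈ relL σ τ l, A.ModFree → st A x = false) →
      ((l.inst σ τ).map (fun z => (mval p b x z).toNat)).sum =
      l.valC p (fun i => mval p b x (σ i))
        (fun j => decide (∀ z ∈ τ j, ¬ TR p b T z x))
        (fun j => ((τ j).map (fun z => (mval p b x z).toNat)).sum)
  | .nil => fun _ _ => by simp [LSch.valC, LSch.inst]
  | .cons s l => fun h hst => by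
      rw [LSch.inst] at h
      rw [relL] at hst
      have hs : s.inst σ τ ∈ S := h _ (by simp)
      have h1 := H.val_inst σ τ x s hs (fun A hA => hst A (List.mem_append_left _ hA))
      have h2 := H.valC_inst σ τ x l (fun B hB => h B (by simp [hB]))
        (fun A hA => hst A (List.mem_append_right _ hA))
      rw [LSch.valC, LSch.inst, List.map_cons, List.sum_cons, h2, ← h1]
  | .app j l => fun h hst => by
      rw [LSch.inst] at h
      rw [relL] at hst
      have h2 := H.valC_inst σ τ x l (fun B hB => h B (by simp [hB])) hst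
      rw [LSch.valC, LSch.inst, List.map_append, List.sum_append, h2]
end

/-- Budget of a rule. -/
def ruleCost (r : Rule) : ℕ :=
  r.prems.length + (r.prems.map cntF).sum + cntF r.concl + 1

theorem length_flatMap_relF (σ : ℕ → Fm) (τ : ℕ → List Fm) (l : List FSch) :
    (l.flatMap (relF σ τ)).length = (l.map cntF).sum := by
  rw [List.length_flatMap]
  congr 1
  exact List.map_congr_left (fun s _ => length_relF σ τ s)

theorem MixHyp.rule [hp : Fact p.Prime] [CharP K p]
    (H : MixHyp 𝔉 Ax w D0 t S Γ b st T F) {κ d : ℕ} (hκp : p ≤ κ) (hκt : t + 1 ≤ κ)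
    (hd : ∀ A ∈ S, A.depth ≤ d)
    {r : Rule} (hr : r.Sound p) (σ : ℕ → Fm) (τ : ℕ → List Fm)
    (hS : ∀ s ∈ r.prems, s.inst σ τ ∈ S) (hc : r.concl.inst σ τ ∈ S)
    (hprem : ∀ s ∈ r.prems, Der 𝔉 Ax w (ind K (fun x => !(mval p b x (s.inst σ τ)))))
    (hw : ruleCost r * (κ ^ d * D0) ≤ w) :
    Der 𝔉 Ax w (ind K (fun x => !(mval p b x (r.concl.inst σ τ)))) := by
  have hκ1 : 1 ≤ κ := by omega
  have hdeg : ∀ A ∈ S, ind K (fun x => !(mval p b x A)) ∈ 𝔉.LD (κ ^ d * D0) := by
    intro A hA
    rw [ind_not]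
    refine Submodule.sub_mem _ (𝔉.one_mem' _) (𝔉.mono ?_ (H.deg hκp hκt A hA))
    exact Nat.mul_le_mul_right _ (Nat.pow_le_pow_right hκ1 (hd A hA))
  have hD0 : D0 ≤ κ ^ d * D0 := Nat.le_mul_of_pos_left _ (Nat.pow_pos (by omega))
  have hrel : ∀ A ∈ r.prems.flatMap (relF σ τ) ++ relF σ τ r.concl, A.ModFree → A ∈ Γ := by
    intro A hA hAm
    rcases List.mem_append.1 hA with hA | hA
    · rw [List.mem_flatMap] at hA
      obtain ⟨s, hs, hA⟩ := hA
      exact H.relF_mem σ τ s (hS s hs) A hA hAm
    · exact H.relF_mem σ τ r.concl hc A hA hAm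
  refine der_of_cover (D := κ ^ d * D0)
    (r.prems.map (fun s x => !(mval p b x (s.inst σ τ))) ++
      (r.prems.flatMap (relF σ τ) ++ relF σ τ r.concl).map
        (fun A x => if A.ModFree then st A x else false)) ?_ _ _ (hdeg _ hc) ?_ ?_
  · intro h hh
    rcases List.mem_append.1 hh with hh | hh
    · rw [List.mem_map] at hh
      obtain ⟨s, hs, rfl⟩ := hh
      exact ⟨hdeg _ (hS s hs), hprem s hs⟩
    · rw [List.mem_map] at hh
      obtain ⟨A, hA, rfl⟩ := hh
      by_cases hm : A.ModFree
      · simp only [if_pos hm]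
        exact ⟨𝔉.mono hD0 (H.sdeg A (hrel A hA hm)), H.sder A (hrel A hA hm)⟩
      · simp only [if_neg hm]
        have h0 : ind K (fun _ : X => false) = 0 := by funext x; simp [ind]
        rw [h0]
        exact ⟨Submodule.zero_mem _, Der.zero⟩
  · intro x hx
    by_contra hcon
    push Not at hcon
    have hst : ∀ A ∈ r.prems.flatMap (relF σ τ) ++ relF σ τ r.concl, A.ModFree →
        st A x = false := by
      intro A hA hm
      have := hcon _ (List.mem_append_right _ (List.mem_map.2 ⟨A, hA, rfl⟩))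
      simp only [if_pos hm] at this
      simpa using this
    have hpt : ∀ s ∈ r.prems, mval p b x (s.inst σ τ) = true := by
      intro s hs
      have := hcon _ (List.mem_append_left _ (List.mem_map.2 ⟨s, hs, rfl⟩))
      simpa using this
    have h1 := H.val_inst (p := p) σ τ x r.concl hc
      (fun A hA => hst A (List.mem_append_right _ hA))
    have h2 : r.concl.val p (fun i => mval p b x (σ i))
        (fun j => decide (∀ z ∈ τ j, ¬ TR p b T z x))
        (fun j => ((τ j).map (fun z => (mval p b x z).toNat)).sum) = true := by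
      refine hr.val hp.out.pos _ _ _ ?_ ?_
      · intro j hj
        rw [decide_eq_true_eq] at hj
        apply List.sum_eq_zero
        intro n hn
        rw [List.mem_map] at hn
        obtain ⟨z, hz, rfl⟩ := hn
        have : mval p b x z = false := by
          by_contra hcon
          exact hj z hz (Or.inl (by simpa using hcon))
        rw [this]; rfl
      · intro s hs
        rw [← H.val_inst (p := p) σ τ x s (hS s hs)
          (fun A hA => hst A (List.mem_append_left _ (List.mem_flatMap.2 ⟨s, hs, hA⟩)))]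
        exact hpt s hs
    rw [h1, h2] at hx
    simp at hx
  · rw [List.length_append, List.length_map, List.length_map, List.length_append,
      length_flatMap_relF, length_relF]
    refine le_trans (le_of_eq ?_) hw
    unfold ruleCost
    ring

/-- Refutations are impossible. -/
theorem MixHyp.no_refutation [hp : Fact p.Prime] [CharP K p]
    (H : MixHyp 𝔉 Ax w D0 t S Γ b st T F) {κ d : ℕ} (hκp : p ≤ κ) (hκt : t + 1 ≤ κ)
    (hd : ∀ A ∈ S, A.depth ≤ d) {R : List Rule} (hR : ∀ r ∈ R, r.Sound p) {Fs : List Clause}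
    (hF : ∀ C ∈ Fs, ∀ x, ¬ F (clauseFm C) x)
    (hw : ∀ r ∈ R, ruleCost r * (κ ^ d * D0) ≤ w) (hw2 : 2 * (κ ^ d * D0) ≤ w)
    {π : List Fm} (hπ : Refutation R Fs π) (hS : ∀ A ∈ π, A ∈ S) : Der 𝔉 Ax w 1 := by
  have hκ1 : 1 ≤ κ := by omega
  have hdeg : ∀ A ∈ S, ind K (fun x => mval p b x A) ∈ 𝔉.LD (κ ^ d * D0) := by
    intro A hA
    refine 𝔉.mono ?_ (H.deg hκp hκt A hA)
    exact Nat.mul_le_mul_right _ (Nat.pow_le_pow_right hκ1 (hd A hA))
  have hD0 : D0 ≤ κ ^ d * D0 := Nat.le_mul_of_pos_left _ (Nat.pow_pos (by omega))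
  have hder : ∀ (π : List Fm), Derivation R Fs π → (∀ A ∈ π, A ∈ S) →
      ∀ A ∈ π, Der 𝔉 Ax w (ind K (fun x => !(mval p b x A))) := by
    intro π hπ
    induction hπ with
    | nil => intro _ A hA; simp at hA
    | @clause π C hd' hC ih =>
      intro hS A hA
      rcases List.mem_cons.1 hA with rfl | hA
      · have hCS : clauseFm C ∈ S := hS _ (by simp)
        have hm : (clauseFm C).ModFree := by
          intro i
          have hi := List.get_mem (C.map litFm) i
          rw [List.mem_map] at hi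
          obtain ⟨⟨j, c⟩, _, hl⟩ := hi
          rw [← hl]
          cases c <;> exact trivial
        have hΓ := H.mf _ hCS hm
        refine der_of_cover (D := κ ^ d * D0) [st (clauseFm C)] ?_ _ (κ ^ d * D0) ?_ ?_ ?_
        · intro h hh
          rw [List.mem_singleton] at hh
          subst hh
          exact ⟨𝔉.mono hD0 (H.sdeg _ hΓ), H.sder _ hΓ⟩
        · rw [ind_not]
          exact Submodule.sub_mem _ (𝔉.one_mem' _) (hdeg _ hCS)
        · intro x hx
          refine ⟨st (clauseFm C), List.mem_singleton.2 rfl, ?_⟩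
          by_contra hcon
          rw [mval_modFree hm] at hx
          exact hF C hC x (H.semF _ hΓ x (by simpa using hcon) (by simpa using hx))
        · rw [List.length_singleton, one_mul, ← two_mul]; exact hw2
      · exact ih (fun B hB => hS B (by simp [hB])) A hA
    | @rule π r σ τ hd' hr hprem ih =>
      intro hS A hA
      have ih' := ih (fun B hB => hS B (by simp [hB]))
      rcases List.mem_cons.1 hA with rfl | hA
      · exact H.rule hκp hκt hd (hR r hr) σ τ (fun s hs => hS _ (by simp [hprem s hs]))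
          (hS _ (by simp)) (fun s hs => ih' _ (hprem s hs)) (hw r hr)
      · exact ih' A hA
  have h1 := hder π hπ.1 hS _ hπ.2
  have hnilS : Fm.orL [] ∈ S := hS _ hπ.2
  have hm : (Fm.orL []).ModFree := by intro i; exact i.elim0
  have hΓ := H.mf _ hnilS hm
  have h2 : Der 𝔉 Ax w (ind K (fun x => mval p b x (Fm.orL []))) := by
    refine der_of_cover (D := κ ^ d * D0) [st (Fm.orL [])] ?_ _ (κ ^ d * D0) (hdeg _ hnilS) ?_ ?_
    · intro h hh
      rw [List.mem_singleton] at hh
      subst hh
      exact ⟨𝔉.mono hD0 (H.sdeg _ hΓ), H.sder _ hΓ⟩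
    · intro x hx
      exfalso
      rw [mval_modFree hm] at hx
      have := H.semT _ hΓ x hx
      rw [H.tor] at this
      obtain ⟨z, hz, _⟩ := this
      simp at hz
    · rw [List.length_singleton, one_mul, ← two_mul]; exact hw2
  rw [ind_not] at h1
  have := Der.add h1 h2
  simpa using this

end Pool.Agent.Helper21.Mix
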