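import Pool.Agent.Helper21.Mix.MixSim

/-!
Simulation of refutations whose disjunctions have few disjuncts that are not over a small set
of formulas.
-/

namespace Pool.Agent.Helper21.Mix

open scoped BigOperators Classical
open Pool.Agent.Helper21.AC0p

set_option linter.unusedSectionVars false

theorem depth_lt_of_sub {A B : Fm} (h : Fm.IsSub B A) (hne : B ≠ A) : B.depth < A.depth := by
  cases h with
  | refl => exact absurd rfl hne
  | neg h => exact Nat.lt_succ_of_le (depth_sub h)
  | or i h =>
    refine Nat.lt_succ_of_le ((depth_sub h).trans ?_)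
    exact Finset.le_sup (f := fun i => Fm.depth _) (Finset.mem_univ i)
  | mod i h =>
    refine Nat.lt_succ_of_le ((depth_sub h).trans ?_)
    exact Finset.le_sup (f := fun i => Fm.depth _) (Finset.mem_univ i)

/-- Constant formulas. -/
noncomputable def cst (c : Prop) : Fm := if c then Fm.neg (Fm.orL []) else Fm.orL []

theorem cst_congr {c c' : Prop} (h : c ↔ c') : cst c = cst c' := by
  rw [show c = c' from propext h]

/-- Replace the members of `G` by constants. -/
noncomputable def sb (G H : Finset Fm) : Fm → Fm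
  | .var i => .var i
  | .neg A => if Fm.neg A ∈ G then cst (Fm.neg A ∈ H) else .neg (sb G H A)
  | .or k f => if Fm.or k f ∈ G then cst (Fm.or k f ∈ H) else .or k (fun i => sb G H (f i))
  | .mod k f => cst (Fm.mod k f ∈ H)

/-- The disjuncts over `G` with the members of `G` replaced by constants. -/
noncomputable def ovPart (G H : Finset Fm) (L : List Fm) : Fm :=
  Fm.orL ((L.filter (fun A => decide (A.Over G))).map (sb G H))

theorem sb_congr {G H H' : Finset Fm} (A : Fm)
    (h : ∀ g ∈ G, Fm.IsSub g A → (g ∈ H ↔ g ∈ H')) (hA : A.Over G) :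
    sb G H A = sb G H' A := by
  induction A with
  | var i => rfl
  | neg A ih =>
    simp only [sb]
    by_cases hg : Fm.neg A ∈ G
    · rw [if_pos hg, if_pos hg]
      exact cst_congr (h _ hg Fm.IsSub.refl)
    · rw [if_neg hg, if_neg hg]
      have hA' : A.Over G := hA.resolve_left hg
      rw [ih (fun g hg hs => h g hg (Fm.IsSub.neg hs)) hA']
  | or k f ih =>
    simp only [sb]
    by_cases hg : Fm.or k f ∈ G
    · rw [if_pos hg, if_pos hg]
      exact cst_congr (h _ hg Fm.IsSub.refl)
    · rw [if_neg hg, if_neg hg]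
      have hA' : ∀ i, (f i).Over G := hA.resolve_left hg
      congr 1
      funext i
      exact ih i (fun g hg hs => h g hg (Fm.IsSub.or i hs)) (hA' i)
  | mod k f ih =>
    have hg : Fm.mod k f ∈ G := hA
    exact cst_congr (h _ hg Fm.IsSub.refl)

theorem sb_mem {G H : Finset Fm} (hv : ∀ i, Fm.var i ∉ G) {A : Fm} (hA : A ∈ G) :
    sb G H A = cst (A ∈ H) := by
  cases A with
  | var i => exact absurd hA (hv i)
  | neg A => simp only [sb]; rw [if_pos hA]
  | or k f => simp only [sb]; rw [if_pos hA]
  | mod k f => rfl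

theorem sb_neg {G H : Finset Fm} {A : Fm} (hA : Fm.neg A ∉ G) :
    sb G H (.neg A) = .neg (sb G H A) := by
  simp only [sb]; rw [if_neg hA]

theorem sb_orL {G H : Finset Fm} {L : List Fm} (hA : Fm.orL L ∉ G) :
    sb G H (Fm.orL L) = Fm.orL (L.map (sb G H)) := by
  have h1 : sb G H (Fm.orL L) = .or L.length (fun i => sb G H (L.get i)) := by
    simp only [Fm.orL, sb]
    exact if_neg hA
  rw [h1, ← orL_ofFn]
  congr 1
  have h2 : (fun i => sb G H (L.get i)) = sb G H ∘ L.get := rfl
  rw [h2, ← List.map_ofFn, List.ofFn_get]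

theorem over_orL {G : Finset Fm} {L : List Fm} (hA : Fm.orL L ∉ G) :
    (Fm.orL L).Over G ↔ ∀ z ∈ L, z.Over G := by
  constructor
  · intro h z hz
    obtain ⟨i, hi⟩ := List.get_of_mem hz
    have h2 : ∀ i, (L.get i).Over G := h.resolve_left hA
    rw [← hi]; exact h2 i
  · intro h
    right
    intro i
    exact h _ (List.get_mem L i)

theorem ovPart_eq {G H : Finset Fm} {L : List Fm} (hA : Fm.orL L ∉ G)
    (hO : (Fm.orL L).Over G) : ovPart G H L = sb G H (Fm.orL L) := by
  rw [sb_orL hA, ovPart, List.filter_eq_self.2]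
  intro z hz
  simpa using (over_orL hA).1 hO z hz

section Values

variable {X : Type} (p : ℕ) (G : Finset Fm) (b : Fm → X → Bool) (x : X)

/-- One step of the evaluation. -/
noncomputable def stepv (v : Fm → Bool) (A : Fm) : Bool :=
  if A.Over G ∧ A ∉ G then b (sb G (G.filter (fun g => v g = true)) A) x else
    match A with
    | .var i => b (.var i) x
    | .neg B => !(v B)
    | .or _ f => b (ovPart G (G.filter (fun g => v g = true)) (List.ofFn f)) x ||
        decide (∃ i, ¬ (f i).Over G ∧ v (f i) = true)
    | .mod _ f => decide (p ∣ ∑ i, (v (f i)).toNat)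

/-- Iterated evaluation. -/
noncomputable def valsv : ℕ → Fm → Bool
  | 0 => fun _ => false
  | n + 1 => stepv p G b x (valsv n)

variable {p G b x}

theorem ovPart_congr {H H' : Finset Fm} (L : List Fm)
    (h : ∀ z ∈ L, ∀ g ∈ G, Fm.IsSub g z → (g ∈ H ↔ g ∈ H')) :
    ovPart G H L = ovPart G H' L := by
  unfold ovPart
  congr 1
  apply List.map_congr_left
  intro z hz
  rw [List.mem_filter] at hz
  exact sb_congr z (h z hz.1) (by simpa using hz.2)

theorem stepv_congr {v v' : Fm → Bool} {A : Fm}
    (h : ∀ B, Fm.IsSub B A → B ≠ A → v B = v' B) : stepv p G b x v A = stepv p G b x v' A := by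
  unfold stepv
  by_cases hA : A.Over G ∧ A ∉ G
  · rw [if_pos hA, if_pos hA]
    congr 1
    refine sb_congr A ?_ hA.1
    intro g hg hs
    rw [Finset.mem_filter, Finset.mem_filter, h g hs (fun e => hA.2 (e ▸ hg))]
  · rw [if_neg hA, if_neg hA]
    cases A with
    | var i => rfl
    | neg B =>
      have : v B = v' B := h B (Fm.IsSub.neg Fm.IsSub.refl) (fun e => by
        have := congrArg Fm.depth e; simp [Fm.depth] at this)
      simp only [this]
    | or k f =>
      have h1 : ∀ i, ∀ B, Fm.IsSub B (f i) → v B = v' B := by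
        intro i B hB
        refine h B (Fm.IsSub.or i hB) (fun e => ?_)
        have h2 := depth_sub hB
        have h3 : (f i).depth < (Fm.or k f).depth :=
          Nat.lt_succ_of_le (Finset.le_sup (f := fun i => (f i).depth) (Finset.mem_univ i))
        rw [e] at h2
        omega
      have h2 : ovPart G (G.filter (fun g => v g = true)) (List.ofFn f) =
          ovPart G (G.filter (fun g => v' g = true)) (List.ofFn f) := by
        refine ovPart_congr _ ?_
        intro z hz g hg hs
        rw [List.mem_ofFn] at hz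
        obtain ⟨i, rfl⟩ := hz
        rw [Finset.mem_filter, Finset.mem_filter, h1 i g hs]
      have h3 : ∀ i, v (f i) = v' (f i) := fun i => h1 i _ Fm.IsSub.refl
      simp only [h2, h3]
    | mod k f =>
      have h1 : ∀ i, v (f i) = v' (f i) := by
        intro i
        refine h (f i) (Fm.IsSub.mod i Fm.IsSub.refl) (fun e => ?_)
        have h3 : (f i).depth < (Fm.mod k f).depth :=
          Nat.lt_succ_of_le (Finset.le_sup (f := fun i => (f i).depth) (Finset.mem_univ i))
        rw [e] at h3
        omega
      simp only [h1]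

theorem valsv_stable (n : ℕ) : ∀ A : Fm, A.depth < n →
    valsv p G b x n A = valsv p G b x (n + 1) A := by
  induction n with
  | zero => intro A h; omega
  | succ n ih =>
    intro A hA
    rw [valsv, valsv]
    refine stepv_congr ?_
    intro B hB hne
    exact ih B (by have := depth_lt_of_sub hB hne; omega)

end Values

/-- The value of a formula of depth at most `d` at a point. -/
noncomputable def oval {X : Type} (p : ℕ) (G : Finset Fm) (b : Fm → X → Bool) (d : ℕ) (x : X)
    (A : Fm) : Bool := valsv p G b x (d + 1) A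

/-- The true members of `G` at a point. -/
noncomputable def Hx {X : Type} (p : ℕ) (G : Finset Fm) (b : Fm → X → Bool) (d : ℕ) (x : X) :
    Finset Fm := G.filter (fun g => oval p G b d x g = true)

variable {X K : Type} [Field K] {𝔉 : Filt X K} {p : ℕ} {b st : Fm → X → Bool} {G : Finset Fm}
  {d : ℕ}

theorem oval_eq {A : Fm} (hA : A.depth ≤ d) (x : X) :
    oval p G b d x A = stepv p G b x (oval p G b d x) A := by
  unfold oval
  rw [valsv_stable (d + 1) A (by omega)]
  rfl

theorem Hx_sub (x : X) : Hx p G b d x ⊆ G := Finset.filter_subset _ _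

theorem oval_over {A : Fm} (hd : A.depth ≤ d) (hA : A.Over G) (hG : A ∉ G) (x : X) :
    oval p G b d x A = b (sb G (Hx p G b d x) A) x := by
  rw [oval_eq hd]
  unfold stepv
  rw [if_pos ⟨hA, hG⟩]
  rfl

theorem oval_neg {A : Fm} (hd : (Fm.neg A).depth ≤ d)
    (h : ¬ ((Fm.neg A).Over G ∧ Fm.neg A ∉ G)) (x : X) :
    oval p G b d x (.neg A) = !(oval p G b d x A) := by
  rw [oval_eq hd]
  unfold stepv
  rw [if_neg h]

theorem oval_orL {L : List Fm} (hd : (Fm.orL L).depth ≤ d) (x : X) :
    oval p G b d x (Fm.orL L) = (b (ovPart G (Hx p G b d x) L) x ||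
      decide (∃ z ∈ L, ¬ z.Over G ∧ oval p G b d x z = true)) := by
  by_cases h : (Fm.orL L).Over G ∧ Fm.orL L ∉ G
  · rw [oval_over hd h.1 h.2, ovPart_eq h.2 h.1]
    have : ¬ ∃ z ∈ L, ¬ z.Over G ∧ oval p G b d x z = true := by
      rintro ⟨z, hz, h1, _⟩
      exact h1 ((over_orL h.2).1 h.1 z hz)
    simp [this]
  · rw [oval_eq hd]
    unfold stepv
    rw [if_neg h]
    simp only [Fm.orL, List.ofFn_get]
    congr 1
    rw [Bool.eq_iff_iff, decide_eq_true_eq, decide_eq_true_eq,
      exists_get_iff L (fun z => ¬ z.Over G ∧ oval p G b d x z = true)]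

theorem oval_modL {L : List Fm} (hd : (Fm.modL L).depth ≤ d) (x : X) :
    oval p G b d x (Fm.modL L) =
      decide (p ∣ (L.map (fun z => (oval p G b d x z).toNat)).sum) := by
  rw [oval_eq hd]
  unfold stepv
  have h : ¬ ((Fm.modL L).Over G ∧ Fm.modL L ∉ G) := fun h => h.2 h.1
  rw [if_neg h]
  simp only [Fm.modL]
  rw [sum_get L (fun z => (oval p G b d x z).toNat)]

/-- Composition with the pattern of values. -/
theorem pat_mem {D D0 : ℕ} (v : Fm → X → Bool) (G' : Finset Fm) :
    (∀ g ∈ G', ind K (v g) ∈ 𝔉.LD D) → ∀ c : Finset Fm → X → Bool,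
    (∀ H ⊆ G', ind K (c H) ∈ 𝔉.LD D0) →
    ind K (fun x => c (G'.filter (fun g => v g x = true)) x) ∈ 𝔉.LD (G'.card * D + D0) := by
  induction G' using Finset.induction_on with
  | empty =>
    intro _ c hc
    simpa using hc ∅ (by simp)
  | insert a s ha ih =>
    intro hv c hc
    have h1 := ih (fun g hg => hv g (Finset.mem_insert_of_mem hg)) (fun H => c (insert a H))
      (fun H hH => hc _ (Finset.insert_subset_insert _ hH))
    have h2 := ih (fun g hg => hv g (Finset.mem_insert_of_mem hg)) c
      (fun H hH => hc _ (hH.trans (Finset.subset_insert _ _)))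
    have e : ind K (fun x => c ((insert a s).filter (fun g => v g x = true)) x) =
        ind K (v a) * ind K (fun x => c (insert a (s.filter (fun g => v g x = true))) x) +
        (1 - ind K (v a)) * ind K (fun x => c (s.filter (fun g => v g x = true)) x) := by
      funext x
      simp only [Pi.add_apply, Pi.mul_apply, Pi.sub_apply, Pi.one_apply, ind]
      by_cases hx : v a x = true
      · have hf : (insert a s).filter (fun g => v g x = true) =
            insert a (s.filter (fun g => v g x = true)) := by
          rw [Finset.filter_insert, if_pos hx]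
        simp [hf, hx]
      · have hf : (insert a s).filter (fun g => v g x = true) =
            s.filter (fun g => v g x = true) := by
          rw [Finset.filter_insert, if_neg hx]
        simp [hf, hx]
    rw [e, Finset.card_insert_of_notMem ha]
    have e2 : (s.card + 1) * D + D0 = D + (s.card * D + D0) := by ring
    rw [e2]
    have h3 := hv a (Finset.mem_insert_self _ _)
    exact Submodule.add_mem _ (𝔉.mul_mem h3 h1)
      (𝔉.mul_mem (Submodule.sub_mem _ (𝔉.one_mem' _) h3) h2)

theorem pat_der {Ax : Set (X → K)} {w D D0 : ℕ} (v : Fm → X → Bool) (G' : Finset Fm) :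
    (∀ g ∈ G', ind K (v g) ∈ 𝔉.LD D) → ∀ c : Finset Fm → X → Bool,
    (∀ H ⊆ G', ind K (c H) ∈ 𝔉.LD D0 ∧ Der 𝔉 Ax w (ind K (c H))) →
    G'.card * D + D0 ≤ w →
    Der 𝔉 Ax w (ind K (fun x => c (G'.filter (fun g => v g x = true)) x)) := by
  induction G' using Finset.induction_on with
  | empty =>
    intro _ c hc _
    simpa using (hc ∅ (by simp)).2
  | insert a s ha ih =>
    intro hv c hc hw
    rw [Finset.card_insert_of_notMem ha] at hw
    have e2 : (s.card + 1) * D + D0 = (s.card * D + D0) + D := by ring
    rw [e2] at hw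
    have h1 := ih (fun g hg => hv g (Finset.mem_insert_of_mem hg)) (fun H => c (insert a H))
      (fun H hH => hc _ (Finset.insert_subset_insert _ hH)) (by omega)
    have h2 := ih (fun g hg => hv g (Finset.mem_insert_of_mem hg)) c
      (fun H hH => hc _ (hH.trans (Finset.subset_insert _ _))) (by omega)
    have h1' := pat_mem v s (fun g hg => hv g (Finset.mem_insert_of_mem hg))
      (fun H => c (insert a H)) (fun H hH => (hc _ (Finset.insert_subset_insert _ hH)).1)
    have h2' := pat_mem v s (fun g hg => hv g (Finset.mem_insert_of_mem hg)) c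
      (fun H hH => (hc _ (hH.trans (Finset.subset_insert _ _))).1)
    have e : ind K (fun x => c ((insert a s).filter (fun g => v g x = true)) x) =
        ind K (fun x => c (insert a (s.filter (fun g => v g x = true))) x) * ind K (v a) +
        ind K (fun x => c (s.filter (fun g => v g x = true)) x) * (1 - ind K (v a)) := by
      funext x
      simp only [Pi.add_apply, Pi.mul_apply, Pi.sub_apply, Pi.one_apply, ind]
      by_cases hx : v a x = true
      · have hf : (insert a s).filter (fun g => v g x = true) =
            insert a (s.filter (fun g => v g x = true)) := by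
          rw [Finset.filter_insert, if_pos hx]
        simp [hf, hx]
      · have hf : (insert a s).filter (fun g => v g x = true) =
            s.filter (fun g => v g x = true) := by
          rw [Finset.filter_insert, if_neg hx]
        simp [hf, hx]
    rw [e]
    have h3 := hv a (Finset.mem_insert_self _ _)
    exact Der.add (Der.mul h1 h1' h3 hw)
      (Der.mul h2 h2' (Submodule.sub_mem _ (𝔉.one_mem' _) h3) hw)

/-- Hypotheses of the simulation. -/
structure OvHyp (𝔉 : Filt X K) (Ax : Set (X → K)) (w D0 t : ℕ) (G : Finset Fm) (S : Set Fm)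
    (Γ : Set Fm) (b st : Fm → X → Bool) (T F : Fm → X → Prop) : Prop where
  sub : ∀ A ∈ S, ∀ B, Fm.IsSub B A → B ∈ S
  gs : ∀ g ∈ G, g ∈ S
  gv : ∀ i, Fm.var i ∉ G
  ov : ∀ A ∈ S, A.Over G → ∀ H ⊆ G, sb G H A ∈ Γ
  ovp : ∀ L, Fm.orL L ∈ S → ∀ H ⊆ G, ovPart G H L ∈ Γ
  nil : Fm.orL [] ∈ Γ
  few : ∀ (k : ℕ) (f : Fin k → Fm), Fm.or k f ∈ S →
    ((Finset.univ.image f).filter (fun z => ¬ z.Over G)).card ≤ t
  bdeg : ∀ A ∈ Γ, ind K (b A) ∈ 𝔉.LD D0
  sdeg : ∀ A ∈ Γ, ind K (st A) ∈ 𝔉.LD D0
  sder : ∀ A ∈ Γ, Der 𝔉 Ax w (ind K (st A))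
  semT : ∀ A ∈ Γ, ∀ x, b A x = true → T A x
  semF : ∀ A ∈ Γ, ∀ x, st A x = false → b A x = false → F A x
  cons : ∀ A ∈ Γ, ∀ x, T A x → F A x → False
  tneg : ∀ A x, T (.neg A) x ↔ F A x
  fneg : ∀ A x, F (.neg A) x ↔ T A x
  tor : ∀ L x, T (Fm.orL L) x ↔ ∃ z ∈ L, T z x
  fnil : ∀ x, F (Fm.orL []) x

variable {Ax : Set (X → K)} {w D0 t : ℕ} {S Γ : Set Fm} {T F : Fm → X → Prop}

theorem Hx_filter (x : X) {n : ℕ} :
    (G.filter (fun g => g.depth < n)).filter (fun g => oval p G b d x g = true) ⊆
      Hx p G b d x := by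
  intro g hg
  rw [Finset.mem_filter, Finset.mem_filter] at hg
  exact Finset.mem_filter.2 ⟨hg.1.1, hg.2⟩

/-- Degree of a composition in which only the members of `G` of small depth matter. -/
theorem OvHyp.comp_deg (H : OvHyp 𝔉 Ax w D0 t G S Γ b st T F) {D n : ℕ}
    (hdeg : ∀ g ∈ G, g.depth < n → ind K (fun x => oval p G b d x g) ∈ 𝔉.LD D)
    (c : Finset Fm → Fm) (hc : ∀ H' ⊆ G, c H' ∈ Γ)
    (hcc : ∀ x, c (Hx p G b d x) =
      c ((G.filter (fun g => g.depth < n)).filter (fun g => oval p G b d x g = true))) :
    ind K (fun x => b (c (Hx p G b d x)) x) ∈ 𝔉.LD (G.card * D + D0) := by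
  have h1 := pat_mem (𝔉 := 𝔉) (D := D) (D0 := D0) (fun g x => oval p G b d x g)
    (G.filter (fun g => g.depth < n)) (fun g hg => by
      rw [Finset.mem_filter] at hg
      exact hdeg g hg.1 hg.2) (fun H' x => b (c H') x)
    (fun H' hH' => H.bdeg _ (hc H' (hH'.trans (Finset.filter_subset _ _))))
  have e : (fun x => b (c (Hx p G b d x)) x) = (fun x => b (c
      ((G.filter (fun g => g.depth < n)).filter (fun g => oval p G b d x g = true))) x) := by
    funext x; rw [hcc x]
  rw [e]
  refine 𝔉.mono ?_ h1
  exact Nat.add_le_add_right (Nat.mul_le_mul_right _ (Finset.card_filter_le _ _)) _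

theorem Hx_mem_iff (x : X) {n : ℕ} {g : Fm} (hg : g ∈ G) (hn : g.depth < n) :
    g ∈ Hx p G b d x ↔
      g ∈ (G.filter (fun g => g.depth < n)).filter (fun g => oval p G b d x g = true) := by
  rw [Hx, Finset.mem_filter, Finset.mem_filter, Finset.mem_filter]
  exact ⟨fun h => ⟨⟨hg, hn⟩, h.2⟩, fun h => ⟨hg, h.2⟩⟩

theorem OvHyp.deg [hp : Fact p.Prime] [CharP K p]
    (H : OvHyp 𝔉 Ax w D0 t G S Γ b st T F) {κ : ℕ} (hκp : p ≤ κ) (hκt : t + G.card + 1 ≤ κ)
    (hd : ∀ A ∈ S, A.depth ≤ d) (n : ℕ) : ∀ A ∈ S, A.depth ≤ n →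
    ind K (fun x => oval p G b d x A) ∈ 𝔉.LD (κ ^ n * D0) := by
  have hκ1 : 1 ≤ κ := by omega
  induction n with
  | zero =>
    intro A hA hn
    have hAv : ∃ i, A = .var i := by
      cases A with
      | var i => exact ⟨i, rfl⟩
      | neg A => simp [Fm.depth] at hn
      | or k f => simp [Fm.depth] at hn
      | mod k f => simp [Fm.depth] at hn
    obtain ⟨i, rfl⟩ := hAv
    have e : (fun x => oval p G b d x (.var i)) = b (.var i) := by
      funext x
      rw [oval_over (hd _ hA) trivial (H.gv i)]
      rfl
    rw [e]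
    have := H.bdeg _ (H.ov _ hA trivial ∅ (by simp))
    simpa [sb] using this
  | succ n ih =>
    intro A hA hn
    have hb : κ ^ n * D0 ≤ κ ^ (n + 1) * D0 :=
      Nat.mul_le_mul_right _ (Nat.pow_le_pow_right hκ1 (Nat.le_succ _))
    have hgdeg : ∀ g ∈ G, g.depth < n + 1 →
        ind K (fun x => oval p G b d x g) ∈ 𝔉.LD (κ ^ n * D0) := by
      intro g hg hgn
      exact ih g (H.gs g hg) (by omega)
    have hD0 : D0 ≤ κ ^ n * D0 := Nat.le_mul_of_pos_left _ (Nat.pow_pos (by omega))
    have htot : G.card * (κ ^ n * D0) + D0 + t * (κ ^ n * D0) ≤ κ ^ (n + 1) * D0 := by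
      calc G.card * (κ ^ n * D0) + D0 + t * (κ ^ n * D0) ≤
            G.card * (κ ^ n * D0) + κ ^ n * D0 + t * (κ ^ n * D0) := by omega
        _ = (t + G.card + 1) * (κ ^ n * D0) := by ring
        _ ≤ κ * (κ ^ n * D0) := Nat.mul_le_mul_right _ hκt
        _ = κ ^ (n + 1) * D0 := by ring
    by_cases hO : A.Over G ∧ A ∉ G
    · have e : (fun x => oval p G b d x A) = (fun x => b (sb G (Hx p G b d x) A) x) := by
        funext x; exact oval_over (hd A hA) hO.1 hO.2 x
      rw [e]
      refine 𝔉.mono ?_ (H.comp_deg (n := n + 1) hgdeg (fun H' => sb G H' A)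
        (fun H' hH' => H.ov A hA hO.1 H' hH') ?_)
      · omega
      · intro x
        refine sb_congr A ?_ hO.1
        intro g hg hs
        exact Hx_mem_iff x hg (by
          have := depth_lt_of_sub hs (fun e => hO.2 (e ▸ hg)); omega)
    · cases A with
      | var i => exact absurd ⟨trivial, H.gv i⟩ hO
      | neg B =>
        have e : (fun x => oval p G b d x (.neg B)) = (fun x => !(oval p G b d x B)) := by
          funext x; exact oval_neg (hd _ hA) hO x
        rw [e, ind_not]
        refine Submodule.sub_mem _ (𝔉.one_mem' _) (𝔉.mono hb (ih B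
          (H.sub _ hA _ (Fm.IsSub.neg Fm.IsSub.refl)) ?_))
        simp only [Fm.depth] at hn; omega
      | or k f =>
        have hfd : ∀ i, (f i).depth ≤ n := by
          intro i
          have := Finset.le_sup (f := fun i => (f i).depth) (Finset.mem_univ i)
          simp only [Fm.depth] at hn; omega
        have hofFn : Fm.orL (List.ofFn f) ∈ S := by rw [orL_ofFn]; exact hA
        have e : ind K (fun x => oval p G b d x (.or k f)) = 1 - (1 - ind K (fun x =>
            b (ovPart G (Hx p G b d x) (List.ofFn f)) x)) *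
            ∏ z ∈ (Finset.univ.image f).filter (fun z => ¬ z.Over G),
              (1 - ind K (fun x => oval p G b d x z)) := by
          funext x
          have hval := oval_orL (p := p) (G := G) (b := b) (L := List.ofFn f) (hd _ hofFn) x
          rw [orL_ofFn] at hval
          simp only [Pi.sub_apply, Pi.mul_apply, Pi.one_apply, Finset.prod_apply]
          by_cases h1 : b (ovPart G (Hx p G b d x) (List.ofFn f)) x = true
          · simp [ind, hval, h1]
          · have h1' : b (ovPart G (Hx p G b d x) (List.ofFn f)) x = false := by simpa using h1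
            by_cases h2 : ∃ z ∈ List.ofFn f, ¬ z.Over G ∧ oval p G b d x z = true
            · obtain ⟨z, hz, hz1, hz2⟩ := h2
              rw [Finset.prod_eq_zero (i := z)]
              · have : ∃ z ∈ List.ofFn f, ¬ z.Over G ∧ oval p G b d x z = true :=
                  ⟨z, hz, hz1, hz2⟩
                rw [h1', Bool.false_or, decide_eq_true this] at hval
                simp [ind, hval]
              · rw [List.mem_ofFn] at hz
                obtain ⟨i, rfl⟩ := hz
                simp [hz1]
              · simp [ind, hz2]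
            · rw [Finset.prod_eq_one]
              · rw [h1', Bool.false_or, decide_eq_false h2] at hval
                simp [ind, hval, h1']
              · intro z hz
                rw [Finset.mem_filter, Finset.mem_image] at hz
                obtain ⟨⟨i, _, rfl⟩, hz2⟩ := hz
                have : oval p G b d x (f i) = false := by
                  by_contra hcon
                  exact h2 ⟨f i, List.mem_ofFn.2 ⟨i, rfl⟩, hz2, by simpa using hcon⟩
                simp [ind, this]
        rw [e]
        refine Submodule.sub_mem _ (𝔉.one_mem' _) ?_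
        have h1 : (1 : X → K) - ind K (fun x =>
            b (ovPart G (Hx p G b d x) (List.ofFn f)) x) ∈
            𝔉.LD (G.card * (κ ^ n * D0) + D0) := by
          refine Submodule.sub_mem _ (𝔉.one_mem' _) (H.comp_deg (n := n + 1) hgdeg
            (fun H' => ovPart G H' (List.ofFn f)) (fun H' hH' => H.ovp _ hofFn H' hH') ?_)
          intro x
          refine ovPart_congr _ ?_
          intro z hz g hg hs
          rw [List.mem_ofFn] at hz
          obtain ⟨i, rfl⟩ := hz
          exact Hx_mem_iff x hg (by
            have h3 := depth_sub hs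
            have h4 := hfd i
            omega)
        have h2 : ∀ z ∈ (Finset.univ.image f).filter (fun z => ¬ z.Over G),
            (1 : X → K) - ind K (fun x => oval p G b d x z) ∈ 𝔉.LD (κ ^ n * D0) := by
          intro z hz
          rw [Finset.mem_filter, Finset.mem_image] at hz
          obtain ⟨⟨i, _, rfl⟩, _⟩ := hz
          exact Submodule.sub_mem _ (𝔉.one_mem' _)
            (ih _ (H.sub _ hA _ (Fm.IsSub.or i Fm.IsSub.refl)) (hfd i))
        refine 𝔉.mono ?_ (𝔉.mul_mem h1 (𝔉.prod_mem _ _ _ h2))
        refine le_trans ?_ htot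
        exact Nat.add_le_add_left (Nat.mul_le_mul_right _ (H.few k f hA)) _
      | mod k f =>
        have hfd : ∀ i, (f i).depth ≤ n := by
          intro i
          have := Finset.le_sup (f := fun i => (f i).depth) (Finset.mem_univ i)
          simp only [Fm.depth] at hn; omega
        have e : ind K (fun x => oval p G b d x (.mod k f)) =
            1 - (∑ i, ind K (fun x => oval p G b d x (f i))) ^ (p - 1) := by
          have h : (∑ i, ind K (fun x => oval p G b d x (f i))) =
              (fun x => ((∑ i, (oval p G b d x (f i)).toNat : ℕ) : K)) := by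
            funext x
            simp only [Finset.sum_apply, ind]
            push_cast
            refine Finset.sum_congr rfl (fun i _ => ?_)
            by_cases hb : oval p G b d x (f i) = true <;> simp [hb]
          rw [h, ← ind_dvd]
          congr 1
          funext x
          rw [oval_eq (hd _ hA)]
          unfold stepv
          rw [if_neg hO]
        rw [e]
        refine Submodule.sub_mem _ (𝔉.one_mem' _) ?_
        have h1 : ∀ i ∈ (Finset.univ : Finset (Fin k)), ind K (fun x => oval p G b d x (f i)) ∈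
            𝔉.LD (κ ^ n * D0) := fun i _ =>
          ih _ (H.sub _ hA _ (Fm.IsSub.mod i Fm.IsSub.refl)) (hfd i)
        refine 𝔉.mono ?_ (𝔉.pow_mem (𝔉.sum_mem Finset.univ _ _ h1) (p - 1))
        calc (p - 1) * (κ ^ n * D0) ≤ κ * (κ ^ n * D0) := Nat.mul_le_mul_right _ (by omega)
          _ = κ ^ (n + 1) * D0 := by ring

end Pool.Agent.Helper21.Mix
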