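import Pool.Agent.Helper21.Mix.Matching

/-!
The switching lemma for partial partitions into blocks of size `q`.
-/

namespace Pool.Agent.Helper21.Mix

open scoped BigOperators Classical

set_option linter.unusedSectionVars false

variable {V : Type} [Fintype V] {q : ℕ}

/-- First term compatible with `M`. -/
noncomputable def first (q : ℕ) (F : List (Finset (Finset V))) (M : Finset (Finset V)) :
    Option (Finset (Finset V)) := F.find? (fun t => decide (IsPM q (t ∪ M)))

theorem first_some {F : List (Finset (Finset V))} {M t : Finset (Finset V)}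
    (h : first q F M = some t) : t ∈ F ∧ IsPM q (t ∪ M) := by
  have h1 := List.mem_of_find?_eq_some h
  have h2 := List.find?_some h
  exact ⟨h1, by simpa using h2⟩

theorem first_none {F : List (Finset (Finset V))} {M : Finset (Finset V)}
    (h : first q F M = none) : ∀ t ∈ F, ¬ IsPM q (t ∪ M) := by
  intro t ht
  have := List.find?_eq_none.1 h t ht
  simpa using this

theorem first_mono {F : List (Finset (Finset V))} {M M' t : Finset (Finset V)}
    (h : first q F M = some t) (hM : M ⊆ M') (ht : t ⊆ M') (hM' : IsPM q M') :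
    first q F M' = some t := by
  unfold first at h ⊢
  rw [List.find?_eq_some_iff_append] at h ⊢
  obtain ⟨_, as, bs, hl, has⟩ := h
  refine ⟨?_, as, bs, hl, ?_⟩
  · rw [decide_eq_true_eq, Finset.union_eq_right.2 ht]
    exact hM'
  · intro t' ht'
    have h1 := has t' ht'
    simp only [Bool.not_eq_true', decide_eq_false_iff_not] at h1 ⊢
    intro h2
    exact h1 (h2.mono (Finset.union_subset_union_right hM))

/-- The canonical decision tree has a path querying more than `s` blocks. -/
inductive Long (q : ℕ) (F : List (Finset (Finset V))) : ℕ → Finset (Finset V) → Prop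
  | stop {s : ℕ} {M t δ : Finset (Finset V)} : first q F M = some t → ¬ t ⊆ M →
      IsPM q (M ∪ δ) → Disjoint δ M → (∀ B ∈ δ, ∃ a ∈ B, a ∈ supp (t \ M)) → s < δ.card →
      Long q F s M
  | step {s' : ℕ} {M t δ : Finset (Finset V)} : first q F M = some t → ¬ t ⊆ M →
      IsPM q (M ∪ δ) → Disjoint δ M → (∀ B ∈ δ, ∃ a ∈ B, a ∈ supp (t \ M)) →
      supp (t \ M) ⊆ supp δ → Long q F s' (M ∪ δ) → Long q F (s' + δ.card) M

/-- Sets of at most `c` blocks outside the support of `R`. -/
noncomputable def deltas (q : ℕ) (R : Finset (Finset V)) (c : ℕ) :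
    Finset (Finset (Finset V)) :=
  (((Finset.univ \ supp R).powersetCard q).powerset).filter (fun δ => δ.card ≤ c)

/-- The decoding of the switching lemma. -/
noncomputable def Reach (q : ℕ) (F : List (Finset (Finset V))) :
    ℕ → Finset (Finset V) → Finset (Finset (Finset V))
  | 0, R => {R}
  | j + 1, R =>
    match first q F R with
    | none => ∅
    | some t => (Finset.univ : Finset (Fin (j + 1))).biUnion fun i =>
        (t.powersetCard (i.val + 1)).biUnion fun σ =>
          (deltas q (R \ σ) (q * (i.val + 1))).biUnion fun δ =>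
            (Reach q F (j - i.val) ((R \ σ) ∪ δ)).image (fun M => M \ δ)
termination_by j _ => j
decreasing_by omega

theorem card_small_subsets {α : Type} (S : Finset α) (c : ℕ) :
    (S.powerset.filter (fun δ => δ.card ≤ c)).card ≤ (S.card + 1) ^ c := by
  induction c with
  | zero =>
    rw [pow_zero]
    refine (Finset.card_le_card (t := {∅}) ?_).trans (by simp)
    intro δ hδ
    rw [Finset.mem_filter] at hδ
    rw [Finset.mem_singleton, ← Finset.card_eq_zero]
    omega
  | succ c ih =>
    have h1 : S.powerset.filter (fun δ => δ.card ≤ c + 1) ⊆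
        ((S.powerset.filter (fun δ => δ.card ≤ c)) ×ˢ (Finset.insertNone S)).image
          (fun x => match x.2 with
            | none => x.1
            | some b => insert b x.1) := by
      intro δ hδ
      rw [Finset.mem_filter, Finset.mem_powerset] at hδ
      rw [Finset.mem_image]
      rcases Nat.lt_or_ge c δ.card with h | h
      · have hne : δ.Nonempty := Finset.card_pos.1 (by omega)
        obtain ⟨b, hb⟩ := hne
        refine ⟨(δ.erase b, some b), ?_, ?_⟩
        · rw [Finset.mem_product, Finset.mem_filter, Finset.mem_powerset]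
          refine ⟨⟨(Finset.erase_subset _ _).trans hδ.1, ?_⟩, ?_⟩
          · rw [Finset.card_erase_of_mem hb]; omega
          · rw [Finset.mem_insertNone]
            intro a ha
            simp only [Option.mem_some_iff] at ha
            subst ha
            exact hδ.1 hb
        · simp [Finset.insert_erase hb]
      · refine ⟨(δ, none), ?_, rfl⟩
        rw [Finset.mem_product, Finset.mem_filter, Finset.mem_powerset]
        refine ⟨⟨hδ.1, h⟩, ?_⟩
        rw [Finset.mem_insertNone]
        simp
    refine (Finset.card_le_card h1).trans (Finset.card_image_le.trans ?_)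
    rw [Finset.card_product, Finset.card_insertNone, pow_succ]
    exact Nat.mul_le_mul_right _ ih

theorem card_deltas_le {R : Finset (Finset V)} {c a : ℕ}
    (h : (Finset.univ \ supp R).card ≤ a) : (deltas q R c).card ≤ (a ^ q + 1) ^ c := by
  refine (card_small_subsets _ _).trans (Nat.pow_le_pow_left ?_ _)
  rw [Finset.card_powersetCard]
  have := Nat.choose_le_pow (Finset.univ \ supp R).card q
  exact Nat.succ_le_succ (this.trans (Nat.pow_le_pow_left h _))

theorem live_sdiff_le {R σ : Finset (Finset V)} (hσ : ∀ B ∈ σ, B.card = q) :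
    (Finset.univ \ supp (R \ σ)).card ≤ (Finset.univ \ supp R).card + q * σ.card := by
  have h1 : Finset.univ \ supp (R \ σ) ⊆ (Finset.univ \ supp R) ∪ supp σ := by
    intro a ha
    simp only [Finset.mem_sdiff, Finset.mem_univ, true_and, Finset.mem_union] at ha ⊢
    by_contra hcon
    push Not at hcon
    obtain ⟨h1, h2⟩ := hcon
    rw [mem_supp] at h1
    obtain ⟨B, hB, haB⟩ := h1
    apply ha
    rw [mem_supp]
    refine ⟨B, Finset.mem_sdiff.2 ⟨hB, fun hBσ => h2 (mem_supp.2 ⟨B, hBσ, haB⟩)⟩, haB⟩
  refine (Finset.card_le_card h1).trans ((Finset.card_union_le _ _).trans ?_)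
  apply Nat.add_le_add_left
  unfold supp
  refine Finset.card_biUnion_le.trans ?_
  rw [Finset.sum_congr rfl (fun B hB => (hσ B hB : (id B).card = q))]
  simp [mul_comm]

theorem geom_aux (c j : ℕ) :
    ∑ i : Fin (j + 1), c ^ (i.val + 1) * (2 * c) ^ (j - i.val) ≤ (2 * c) ^ (j + 1) := by
  have h1 : ∀ i : Fin (j + 1), c ^ (i.val + 1) * (2 * c) ^ (j - i.val) =
      c ^ (j + 1) * 2 ^ (j - i.val) := by
    intro i
    have := i.isLt
    rw [mul_pow, mul_left_comm, ← pow_add]
    have e : i.val + 1 + (j - i.val) = j + 1 := by omega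
    rw [e]; ring
  rw [Finset.sum_congr rfl (fun i _ => h1 i), ← Finset.mul_sum, mul_pow, mul_comm (2 ^ (j + 1))]
  apply Nat.mul_le_mul_left
  have h2 : ∑ i : Fin (j + 1), 2 ^ (j - i.val) = ∑ i ∈ Finset.range (j + 1), 2 ^ (j - i) := by
    rw [Finset.sum_range]
  rw [h2]
  have h3 : ∑ i ∈ Finset.range (j + 1), 2 ^ (j - i) = ∑ i ∈ Finset.range (j + 1), 2 ^ i := by
    have := Finset.sum_range_reflect (fun i => 2 ^ i) (j + 1)
    simpa using this
  rw [h3]
  have h4 : ∀ n : ℕ, ∑ i ∈ Finset.range n, 2 ^ i ≤ 2 ^ n := by
    intro n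
    induction n with
    | zero => simp
    | succ n ih => rw [Finset.sum_range_succ, pow_succ]; omega
  exact h4 (j + 1)

theorem card_Reach_le {F : List (Finset (Finset V))} {a r : ℕ}
    (hF : ∀ t ∈ F, t.card ≤ r ∧ ∀ B ∈ t, B.card = q) (j : ℕ) :
    ∀ R : Finset (Finset V), (Finset.univ \ supp R).card + q * j ≤ a →
      (Reach q F j R).card ≤ (2 * (r * (a ^ q + 1) ^ q)) ^ j := by
  induction j using Nat.strong_induction_on with
  | _ j ih =>
    intro R hR
    rcases j with _ | j
    · rw [Reach]; simp
    · rw [Reach]
      rcases hfirst : first q F R with _ | t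
      · simp
      · simp only []
        set c := r * (a ^ q + 1) ^ q with hc
        have ht := first_some hfirst
        refine Finset.card_biUnion_le.trans (le_trans ?_ (geom_aux c j))
        refine Finset.sum_le_sum (fun i _ => ?_)
        have hi := i.isLt
        refine Finset.card_biUnion_le.trans ?_
        have hσ : ∀ σ ∈ t.powersetCard (i.val + 1),
            ((deltas q (R \ σ) (q * (i.val + 1))).biUnion fun δ =>
              (Reach q F (j - i.val) ((R \ σ) ∪ δ)).image (fun M => M \ δ)).card ≤
            (a ^ q + 1) ^ (q * (i.val + 1)) * (2 * c) ^ (j - i.val) := by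
          intro σ hσ
          rw [Finset.mem_powersetCard] at hσ
          have hσq : ∀ B ∈ σ, B.card = q := fun B hB => (hF t ht.1).2 B (hσ.1 hB)
          have hlive := live_sdiff_le (R := R) hσq
          rw [hσ.2] at hlive
          have e1 : q * (j + 1) = q * (i.val + 1) + q * (j - i.val) := by
            rw [← mul_add]; congr 1; omega
          refine Finset.card_biUnion_le.trans ?_
          have hδ : ∀ δ ∈ deltas q (R \ σ) (q * (i.val + 1)),
              ((Reach q F (j - i.val) ((R \ σ) ∪ δ)).image (fun M => M \ δ)).card ≤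
              (2 * c) ^ (j - i.val) := by
            intro δ _
            refine Finset.card_image_le.trans (ih (j - i.val) (by omega) _ ?_)
            have h1 : (Finset.univ \ supp ((R \ σ) ∪ δ)).card ≤
                (Finset.univ \ supp (R \ σ)).card := by
              apply Finset.card_le_card
              apply Finset.sdiff_subset_sdiff (le_refl _)
              exact supp_mono Finset.subset_union_left
            omega
          refine (Finset.sum_le_sum hδ).trans ?_
          rw [Finset.sum_const, smul_eq_mul]
          apply Nat.mul_le_mul_right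
          apply card_deltas_le
          omega
        refine (Finset.sum_le_sum hσ).trans ?_
        rw [Finset.sum_const, smul_eq_mul, Finset.card_powersetCard, ← mul_assoc]
        apply Nat.mul_le_mul_right
        rw [hc, mul_pow, ← pow_mul]
        apply Nat.mul_le_mul_right
        exact (Nat.choose_le_pow _ _).trans (Nat.pow_le_pow_left (hF t ht.1).1 _)

/-- A set of disjoint blocks each meeting a set `S` has at most `|S|` elements. -/
theorem card_le_of_meet {M δ : Finset (Finset V)} (hM : IsPM q M) (hδ : δ ⊆ M) {S : Finset V}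
    (h : ∀ B ∈ δ, ∃ a ∈ B, a ∈ S) : δ.card ≤ S.card := by
  rcases δ.eq_empty_or_nonempty with rfl | ⟨B0, hB0⟩
  · simp
  have : Nonempty V := by
    obtain ⟨a, _⟩ := h B0 hB0
    exact ⟨a⟩
  choose! g hg1 hg2 using h
  refine Finset.card_le_card_of_injOn g (fun B hB => hg2 B hB) ?_
  intro B hB B' hB' he
  have h1 := hg1 B hB
  have h2 := hg1 B' hB'
  rw [he] at h1
  exact hM.eq_of_mem (hδ hB) (hδ hB') h1 h2

theorem card_supp_le {σ : Finset (Finset V)} (hσ : ∀ B ∈ σ, B.card = q) :
    (supp σ).card ≤ q * σ.card := by
  unfold supp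
  refine Finset.card_biUnion_le.trans ?_
  rw [Finset.sum_congr rfl (fun B hB => (hσ B hB : (id B).card = q))]
  simp [mul_comm]

theorem Long.reach (hq : 1 ≤ q) {F : List (Finset (Finset V))}
    (hF : ∀ t ∈ F, ∀ B ∈ t, B.card = q) {s : ℕ} {M : Finset (Finset V)}
    (h : Long q F s M) : IsPM q M →
    ∃ (j : ℕ) (R : Finset (Finset V)), s < q * j ∧ M ⊆ R ∧ IsPM q R ∧
      R.card = M.card + j ∧ M ∈ Reach q F j R := by
  induction h with
  | @stop s M t δ hfirst hnt hPM hdisj hmeet hs =>
    intro hM
    have ht := first_some hfirst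
    have htM : IsPM q (M ∪ (t \ M)) := by
      rw [Finset.union_sdiff_self_eq_union, Finset.union_comm]; exact ht.2
    have hσq : ∀ B ∈ t \ M, B.card = q := fun B hB => hF t ht.1 B (Finset.mem_sdiff.1 hB).1
    have hσpos : 1 ≤ (t \ M).card := by
      rw [Nat.one_le_iff_ne_zero, Ne, Finset.card_eq_zero, Finset.sdiff_eq_empty_iff_subset]
      exact hnt
    have hle : δ.card ≤ q * (t \ M).card := by
      refine (card_le_of_meet hPM Finset.subset_union_right hmeet).trans ?_
      exact card_supp_le hσq
    refine ⟨(t \ M).card, M ∪ (t \ M), lt_of_lt_of_le hs hle, Finset.subset_union_left, htM,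
      ?_, ?_⟩
    · rw [Finset.card_union_of_disjoint Finset.disjoint_sdiff]
    · obtain ⟨j, hj⟩ := Nat.exists_eq_succ_of_ne_zero (by omega : (t \ M).card ≠ 0)
      have hf' : first q F (M ∪ (t \ M)) = some t := by
        refine first_mono hfirst Finset.subset_union_left ?_ htM
        rw [Finset.union_sdiff_self_eq_union]; exact Finset.subset_union_right
      rw [hj, Nat.succ_eq_add_one, Reach, hf']
      simp only [Finset.mem_biUnion, Finset.mem_univ, true_and, Finset.mem_image]
      refine ⟨⟨j, by omega⟩, t \ M, ?_, ∅, ?_, M, ?_, by simp⟩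
      · rw [Finset.mem_powersetCard]
        exact ⟨Finset.sdiff_subset, hj⟩
      · simp [deltas]
      · simp only [Nat.sub_self, Reach, Finset.mem_singleton, Finset.union_empty]
        rw [Finset.union_sdiff_cancel_right Finset.disjoint_sdiff]
  | @step s' M t δ hfirst hnt hPM hdisj hmeet hcov hlong ih =>
    intro hM
    obtain ⟨j', R', hsj, hsub, hR', hcard, hreach⟩ := ih hPM
    have ht := first_some hfirst
    have htM : IsPM q (M ∪ (t \ M)) := by
      rw [Finset.union_sdiff_self_eq_union, Finset.union_comm]; exact ht.2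
    set σ := t \ M with hσ
    have hσq : ∀ B ∈ σ, B.card = q := fun B hB => hF t ht.1 B (Finset.mem_sdiff.1 hB).1
    have hσpos : 1 ≤ σ.card := by
      rw [Nat.one_le_iff_ne_zero, Ne, Finset.card_eq_zero, hσ, Finset.sdiff_eq_empty_iff_subset]
      exact hnt
    have hle : δ.card ≤ q * σ.card := by
      refine (card_le_of_meet hPM Finset.subset_union_right hmeet).trans ?_
      exact card_supp_le hσq
    have hδR' : δ ⊆ R' := Finset.subset_union_right.trans hsub
    have hMR' : M ⊆ R' := Finset.subset_union_left.trans hsub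
    have hsdisj : Disjoint (supp (R' \ δ)) (supp δ) :=
      hR'.disjoint_supp' Finset.sdiff_subset hδR' Finset.sdiff_disjoint
    have hσdisj : Disjoint (supp (R' \ δ)) (supp σ) := hsdisj.mono_right hcov
    have hPMR : IsPM q ((R' \ δ) ∪ σ) :=
      (hR'.mono Finset.sdiff_subset).union (htM.mono Finset.subset_union_right) hσdisj
    have hdσ : Disjoint (R' \ δ) σ := by
      rw [Finset.disjoint_left]
      intro B hB hBσ
      have hBc := hσq B hBσ
      obtain ⟨a, ha⟩ := Finset.card_pos.1 (by omega : 0 < B.card)
      exact Finset.disjoint_left.1 hσdisj (mem_supp.2 ⟨B, hB, ha⟩) (mem_supp.2 ⟨B, hBσ, ha⟩)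
    have hMR : M ⊆ (R' \ δ) ∪ σ := by
      intro B hB
      rw [Finset.mem_union, Finset.mem_sdiff]
      exact Or.inl ⟨hMR' hB, fun h => Finset.disjoint_left.1 hdisj h hB⟩
    have htR : t ⊆ (R' \ δ) ∪ σ := by
      intro B hB
      by_cases hBM : B ∈ M
      · exact hMR hBM
      · rw [Finset.mem_union]; right
        exact Finset.mem_sdiff.2 ⟨hB, hBM⟩
    refine ⟨j' + σ.card, (R' \ δ) ∪ σ, ?_, hMR, hPMR, ?_, ?_⟩
    · rw [mul_add]; omega
    · rw [Finset.card_union_of_disjoint hdσ, Finset.card_sdiff_of_subset hδR', hcard,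
        Finset.card_union_of_disjoint hdisj.symm]
      omega
    · have hf' : first q F ((R' \ δ) ∪ σ) = some t := first_mono hfirst hMR htR hPMR
      obtain ⟨i, hi⟩ := Nat.exists_eq_succ_of_ne_zero (by omega : σ.card ≠ 0)
      have e : j' + σ.card = (j' + i) + 1 := by omega
      rw [e, Reach, hf']
      simp only [Finset.mem_biUnion, Finset.mem_univ, true_and, Finset.mem_image]
      have e2 : ((R' \ δ) ∪ σ) \ σ = R' \ δ := Finset.union_sdiff_cancel_right hdσ
      refine ⟨⟨i, by omega⟩, σ, ?_, δ, ?_, M ∪ δ, ?_, ?_⟩
      · rw [Finset.mem_powersetCard]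
        exact ⟨Finset.sdiff_subset, hi⟩
      · simp only [deltas, Finset.mem_filter, Finset.mem_powerset]
        rw [e2]
        refine ⟨?_, ?_⟩
        · intro B hB
          rw [Finset.mem_powersetCard]
          refine ⟨?_, hPM.1 B (Finset.mem_union_right _ hB)⟩
          intro a ha
          simp only [Finset.mem_sdiff, Finset.mem_univ, true_and]
          intro ha'
          exact Finset.disjoint_left.1 hsdisj ha' (mem_supp.2 ⟨B, hB, ha⟩)
        · calc δ.card ≤ q * σ.card := hle
            _ = q * (i + 1) := by rw [hi]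
      · have e3 : j' + i - i = j' := by omega
        simp only [e3, e2]
        rw [Finset.sdiff_union_of_subset hδR']
        exact hreach
      · exact Finset.union_sdiff_cancel_right hdisj.symm

end Pool.Agent.Helper21.Mix
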